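import Pool.Agent.P.MP_3a7cda_pr.H21.Basic

set_option autoImplicit false
open Classical Finset

namespace Pool.Agent.BBM

/-- Data of a description scheme. -/
structure Scheme (V Γ : Type) [Fintype V] where
  opt : Γ → Finset Γ
  push : Γ → Finset V → Γ
  ker : Γ → V → ℝ
  ker_nonneg : ∀ γ v, 0 ≤ ker γ v
  ker_sum : ∀ γ, ∑ v, ker γ v ≤ 1

namespace Scheme
variable {V Γ : Type} [Fintype V] [DecidableEq V] (S : Scheme V Γ)

/-- Total weight of descriptions of height at most `n`. -/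
noncomputable def om : ℕ → Γ → V → Finset V → ℝ
  | 0, _, _, _ => 0
  | n + 1, γ, v, K => 1 / 4 * ind (K = {v}) +
      1 / 4 * ((∑ γ' ∈ S.opt γ, om n γ' v K) / (S.opt γ).card) +
      1 / 4 * ∑ K₁, ∑ v₂, ∑ K₂, om n γ v K₁ * S.ker (S.push γ K₁) v₂ *
        om n (S.push γ K₁) v₂ K₂ * ind (K₁ ∪ K₂ = K)

lemma om_nonneg (n : ℕ) : ∀ γ v K, 0 ≤ S.om n γ v K := by
  induction n with
  | zero => intro γ v K; exact le_rfl
  | succ n ih =>
    intro γ v K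
    rw [om]
    have h1 := ind_nonneg (K = {v})
    have h2 : 0 ≤ (∑ γ' ∈ S.opt γ, S.om n γ' v K) / (S.opt γ).card :=
      div_nonneg (Finset.sum_nonneg fun _ _ => ih _ _ _) (Nat.cast_nonneg _)
    have h3 : 0 ≤ ∑ K₁, ∑ v₂, ∑ K₂, S.om n γ v K₁ * S.ker (S.push γ K₁) v₂ *
        S.om n (S.push γ K₁) v₂ K₂ * ind (K₁ ∪ K₂ = K) :=
      Finset.sum_nonneg fun _ _ => Finset.sum_nonneg fun _ _ => Finset.sum_nonneg fun _ _ =>
        mul_nonneg (mul_nonneg (mul_nonneg (ih _ _ _) (S.ker_nonneg _ _)) (ih _ _ _))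
          (ind_nonneg _)
    linarith

lemma om_succ (n : ℕ) : ∀ γ v K, S.om n γ v K ≤ S.om (n + 1) γ v K := by
  induction n with
  | zero => intro γ v K; exact S.om_nonneg 1 γ v K
  | succ n ih =>
    intro γ v K
    rw [om, om]
    have h2 : (∑ γ' ∈ S.opt γ, S.om n γ' v K) / (S.opt γ).card ≤
        (∑ γ' ∈ S.opt γ, S.om (n + 1) γ' v K) / (S.opt γ).card :=
      div_le_div_of_nonneg_right (Finset.sum_le_sum fun _ _ => ih _ _ _) (Nat.cast_nonneg _)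
    have h3 : ∑ K₁, ∑ v₂, ∑ K₂, S.om n γ v K₁ * S.ker (S.push γ K₁) v₂ *
        S.om n (S.push γ K₁) v₂ K₂ * ind (K₁ ∪ K₂ = K) ≤
        ∑ K₁, ∑ v₂, ∑ K₂, S.om (n + 1) γ v K₁ * S.ker (S.push γ K₁) v₂ *
        S.om (n + 1) (S.push γ K₁) v₂ K₂ * ind (K₁ ∪ K₂ = K) :=
      Finset.sum_le_sum fun _ _ => Finset.sum_le_sum fun _ _ => Finset.sum_le_sum fun _ _ =>
        mul_le_mul_of_nonneg_right
          (mul_le_mul (mul_le_mul_of_nonneg_right (ih _ _ _) (S.ker_nonneg _ _)) (ih _ _ _)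
            (S.om_nonneg _ _ _ _) (mul_nonneg (S.om_nonneg _ _ _ _) (S.ker_nonneg _ _)))
          (ind_nonneg _)
    linarith

lemma om_mono {n m : ℕ} (h : n ≤ m) (γ : Γ) (v : V) (K : Finset V) :
    S.om n γ v K ≤ S.om m γ v K :=
  monotone_nat_of_le_succ (f := fun n => S.om n γ v K) (fun n => S.om_succ n γ v K) h

lemma sum_ind (K₀ : Finset V) : ∑ K : Finset V, ind (K₀ = K) = 1 := by
  rw [Finset.sum_eq_single K₀ (fun b _ hb => ind_neg (Ne.symm hb))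
    (fun h => absurd (Finset.mem_univ _) h), ind_pos rfl]

lemma om_sum (n : ℕ) : ∀ γ v, ∑ K, S.om n γ v K ≤ 1 := by
  induction n with
  | zero => intro γ v; simp [om]
  | succ n ih =>
    intro γ v
    simp only [om]
    rw [Finset.sum_add_distrib, Finset.sum_add_distrib, ← Finset.mul_sum, ← Finset.mul_sum,
      ← Finset.mul_sum]
    have h1 : ∑ K : Finset V, ind (K = {v}) = 1 := by
      simp_rw [eq_comm (b := ({v} : Finset V))]
      exact sum_ind _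
    have h2 : ∑ K : Finset V, (∑ γ' ∈ S.opt γ, S.om n γ' v K) / (S.opt γ).card ≤ 1 := by
      rw [← Finset.sum_div, Finset.sum_comm]
      apply div_le_one_of_le₀ _ (Nat.cast_nonneg _)
      calc ∑ γ' ∈ S.opt γ, ∑ K, S.om n γ' v K ≤ ∑ _γ' ∈ S.opt γ, (1 : ℝ) :=
            Finset.sum_le_sum fun γ' _ => ih γ' v
        _ = _ := by simp
    have h3 : ∑ K : Finset V, ∑ K₁, ∑ v₂, ∑ K₂, S.om n γ v K₁ * S.ker (S.push γ K₁) v₂ *
        S.om n (S.push γ K₁) v₂ K₂ * ind (K₁ ∪ K₂ = K) ≤ 1 := by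
      rw [Finset.sum_comm]
      refine le_trans (Finset.sum_le_sum fun K₁ _ => ?_) (ih γ v)
      rw [Finset.sum_comm]
      have h4 : ∀ v₂, ∑ K : Finset V, ∑ K₂, S.om n γ v K₁ * S.ker (S.push γ K₁) v₂ *
          S.om n (S.push γ K₁) v₂ K₂ * ind (K₁ ∪ K₂ = K) ≤
          S.om n γ v K₁ * S.ker (S.push γ K₁) v₂ := by
        intro v₂
        rw [Finset.sum_comm]
        simp_rw [← Finset.mul_sum, sum_ind, mul_one]
        rw [← Finset.mul_sum]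
        exact mul_le_of_le_one_right (mul_nonneg (S.om_nonneg _ _ _ _) (S.ker_nonneg _ _))
          (ih _ _)
      refine le_trans (Finset.sum_le_sum fun v₂ _ => h4 v₂) ?_
      rw [← Finset.mul_sum]
      exact mul_le_of_le_one_right (S.om_nonneg _ _ _ _) (S.ker_sum _)
    linarith

/-- `K` has a description of at most `x` bits. -/
def Cheap (γ : Γ) (v : V) (K : Finset V) (x : ℕ) : Prop :=
  ∃ n, (1 / 2 : ℝ) ^ x ≤ S.om n γ v K

variable {S}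

lemma Cheap.mono {γ : Γ} {v : V} {K : Finset V} {x y : ℕ} (h : S.Cheap γ v K x) (hxy : x ≤ y) :
    S.Cheap γ v K y := by
  obtain ⟨n, hn⟩ := h
  exact ⟨n, (pow_le_pow_of_le_one (by norm_num) (by norm_num) hxy).trans hn⟩

lemma term3_nonneg (n : ℕ) (γ : Γ) (v : V) (K : Finset V) :
    0 ≤ ∑ K₁, ∑ v₂, ∑ K₂, S.om n γ v K₁ * S.ker (S.push γ K₁) v₂ *
        S.om n (S.push γ K₁) v₂ K₂ * ind (K₁ ∪ K₂ = K) :=
  Finset.sum_nonneg fun _ _ => Finset.sum_nonneg fun _ _ => Finset.sum_nonneg fun _ _ =>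
    mul_nonneg (mul_nonneg (mul_nonneg (S.om_nonneg _ _ _ _) (S.ker_nonneg _ _))
      (S.om_nonneg _ _ _ _)) (ind_nonneg _)

lemma term2_nonneg (n : ℕ) (γ : Γ) (v : V) (K : Finset V) :
    0 ≤ (∑ γ' ∈ S.opt γ, S.om n γ' v K) / (S.opt γ).card :=
  div_nonneg (Finset.sum_nonneg fun _ _ => S.om_nonneg _ _ _ _) (Nat.cast_nonneg _)

lemma cheap_single (γ : Γ) (v : V) : S.Cheap γ v {v} 2 := by
  refine ⟨1, ?_⟩
  rw [om, ind_pos rfl]
  have h2 := term2_nonneg (S := S) 0 γ v {v}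
  have h3 := term3_nonneg (S := S) 0 γ v {v}
  norm_num at h2 h3 ⊢
  linarith

lemma Cheap.opt {γ γ' : Γ} {v : V} {K : Finset V} {x c : ℕ} (h : S.Cheap γ' v K x)
    (hγ : γ' ∈ S.opt γ) (hc : (S.opt γ).card ≤ 2 ^ c) : S.Cheap γ v K (x + c + 2) := by
  obtain ⟨n, hn⟩ := h
  refine ⟨n + 1, ?_⟩
  rw [om]
  have h1 := ind_nonneg (K = {v})
  have h3 := term3_nonneg (S := S) n γ v K
  have h4 : S.om n γ' v K ≤ ∑ γ' ∈ S.opt γ, S.om n γ' v K :=
    Finset.single_le_sum (f := fun γ' => S.om n γ' v K) (fun _ _ => S.om_nonneg _ _ _ _) hγ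
  have hpos : (0 : ℝ) < (S.opt γ).card := by exact_mod_cast Finset.card_pos.mpr ⟨_, hγ⟩
  have h5 : (1 / 2 : ℝ) ^ x * (1 / 2) ^ c ≤ (∑ γ' ∈ S.opt γ, S.om n γ' v K) / (S.opt γ).card := by
    rw [le_div_iff₀ hpos]
    have h6 : ((S.opt γ).card : ℝ) ≤ 2 ^ c := by exact_mod_cast hc
    have h7 : (1 / 2 : ℝ) ^ c * 2 ^ c = 1 := by rw [← mul_pow]; norm_num
    have h8 : (0 : ℝ) < (1 / 2 : ℝ) ^ x := by positivity
    have h9 : (0 : ℝ) < (1 / 2 : ℝ) ^ c := by positivity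
    have h10 : (1 / 2 : ℝ) ^ c * (S.opt γ).card ≤ 1 := by nlinarith
    nlinarith
  rw [pow_add, pow_add]
  norm_num at h5 ⊢
  linarith

lemma Cheap.join {γ : Γ} {v v₂ : V} {K₁ K₂ : Finset V} {x₁ x₂ y : ℕ} (h₁ : S.Cheap γ v K₁ x₁)
    (hk : (1 / 2 : ℝ) ^ y ≤ S.ker (S.push γ K₁) v₂) (h₂ : S.Cheap (S.push γ K₁) v₂ K₂ x₂) :
    S.Cheap γ v (K₁ ∪ K₂) (x₁ + x₂ + y + 2) := by
  obtain ⟨n₁, hn₁⟩ := h₁
  obtain ⟨n₂, hn₂⟩ := h₂
  have g₁ := hn₁.trans (S.om_mono (le_max_left n₁ n₂) _ _ _)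
  have g₂ := hn₂.trans (S.om_mono (le_max_right n₁ n₂) _ _ _)
  set n := max n₁ n₂
  refine ⟨n + 1, ?_⟩
  rw [om]
  have h1 := ind_nonneg (K₁ ∪ K₂ = {v})
  have h2 := term2_nonneg (S := S) n γ v (K₁ ∪ K₂)
  have hnn : ∀ a b c, 0 ≤ S.om n γ v a * S.ker (S.push γ a) b *
        S.om n (S.push γ a) b c * ind (a ∪ c = K₁ ∪ K₂) := fun a b c =>
    mul_nonneg (mul_nonneg (mul_nonneg (S.om_nonneg _ _ _ _) (S.ker_nonneg _ _))
      (S.om_nonneg _ _ _ _)) (ind_nonneg _)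
  have h3 : S.om n γ v K₁ * S.ker (S.push γ K₁) v₂ *
        S.om n (S.push γ K₁) v₂ K₂ * ind (K₁ ∪ K₂ = K₁ ∪ K₂) ≤
      ∑ a, ∑ b, ∑ c, S.om n γ v a * S.ker (S.push γ a) b *
        S.om n (S.push γ a) b c * ind (a ∪ c = K₁ ∪ K₂) := by
    refine le_trans ?_ (Finset.single_le_sum (f := fun a => ∑ b, ∑ c, S.om n γ v a *
      S.ker (S.push γ a) b * S.om n (S.push γ a) b c * ind (a ∪ c = K₁ ∪ K₂))
      (fun a _ => Finset.sum_nonneg fun b _ => Finset.sum_nonneg fun c _ => hnn a b c)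
      (Finset.mem_univ K₁))
    refine le_trans ?_ (Finset.single_le_sum (f := fun b => ∑ c, S.om n γ v K₁ *
      S.ker (S.push γ K₁) b * S.om n (S.push γ K₁) b c * ind (K₁ ∪ c = K₁ ∪ K₂))
      (fun b _ => Finset.sum_nonneg fun c _ => hnn K₁ b c) (Finset.mem_univ v₂))
    exact Finset.single_le_sum (f := fun c => S.om n γ v K₁ *
      S.ker (S.push γ K₁) v₂ * S.om n (S.push γ K₁) v₂ c * ind (K₁ ∪ c = K₁ ∪ K₂))
      (fun c _ => hnn K₁ v₂ c) (Finset.mem_univ K₂)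
  rw [ind_pos rfl, mul_one] at h3
  have h4 : (1 / 2 : ℝ) ^ x₁ * (1 / 2) ^ y * (1 / 2) ^ x₂ ≤
      S.om n γ v K₁ * S.ker (S.push γ K₁) v₂ * S.om n (S.push γ K₁) v₂ K₂ :=
    mul_le_mul (mul_le_mul g₁ hk (by positivity) (S.om_nonneg _ _ _ _)) g₂ (by positivity)
      (mul_nonneg (S.om_nonneg _ _ _ _) (S.ker_nonneg _ _))
  have e : (1 / 2 : ℝ) ^ (x₁ + x₂ + y + 2) =
      1 / 4 * ((1 / 2 : ℝ) ^ x₁ * (1 / 2) ^ y * (1 / 2) ^ x₂) := by
    rw [pow_add, pow_add, pow_add]; ring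
  rw [e]
  linarith

lemma kraft (γ : Γ) (v : V) (s : Finset (Finset V)) (x : Finset V → ℕ)
    (h : ∀ K ∈ s, S.Cheap γ v K (x K)) : ∑ K ∈ s, (1 / 2 : ℝ) ^ x K ≤ 1 := by
  choose! n hn using h
  calc ∑ K ∈ s, (1 / 2 : ℝ) ^ x K ≤ ∑ K ∈ s, S.om (s.sup n) γ v K :=
        Finset.sum_le_sum fun K hK => (hn K hK).trans (S.om_mono (Finset.le_sup hK) _ _ _)
    _ ≤ ∑ K, S.om (s.sup n) γ v K :=
        Finset.sum_le_sum_of_subset_of_nonneg (Finset.subset_univ _)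
          fun _ _ _ => S.om_nonneg _ _ _ _
    _ ≤ 1 := S.om_sum _ _ _

end Scheme

variable {d : ℕ}

/-- Location weight. -/
noncomputable def loc (q : ℕ) (a v : Cube d) : ℝ := (1 / 2 : ℝ) ^ (q * hammingDist a v + 2)

lemma loc_sum {q : ℕ} (hd : d ≤ 2 ^ q) (a : Cube d) : ∑ v, loc q a v ≤ 1 := by
  set θ : ℝ := (1 / 2) ^ q with hθ
  have h1 : ∀ v, loc q a v = 1 / 4 * ∏ s, (if a s = v s then 1 else θ) := by
    intro v
    unfold loc hammingDist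
    rw [pow_add, pow_mul, Finset.prod_ite, Finset.prod_const_one, Finset.prod_const]
    ring
  simp_rw [h1]
  rw [← Finset.mul_sum, ← Fintype.piFinset_univ,
    ← Finset.prod_univ_sum (fun _ : Fin d => (univ : Finset Bool))
      (fun s b => if a s = b then (1 : ℝ) else θ)]
  have h2 : ∀ s : Fin d, ∑ b : Bool, (if a s = b then (1 : ℝ) else θ) = 1 + θ := by
    intro s
    cases a s <;> simp [add_comm]
  simp_rw [h2]
  rw [Finset.prod_const, Finset.card_univ, Fintype.card_fin]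
  have hθ0 : 0 ≤ θ := by positivity
  have h3 : (1 + θ) ^ d ≤ Real.exp θ ^ d :=
    pow_le_pow_left₀ (by linarith) (by linarith [Real.add_one_le_exp θ]) _
  rw [← Real.exp_nat_mul] at h3
  have h4 : (d : ℝ) * θ ≤ 1 := by
    have h5 : (d : ℝ) ≤ 2 ^ q := by exact_mod_cast hd
    have h6 : (2 : ℝ) ^ q * θ = 1 := by rw [hθ, ← mul_pow]; norm_num
    nlinarith
  have h5 := Real.exp_le_exp.mpr h4
  have h6 := Real.exp_one_lt_d9
  linarith

end Pool.Agent.BBM
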