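import Pool.Agent.P.MP_3a7cda_pr.H21.Core
import Pool.Agent.P.MP_3a7cda_pr.H21.Kraft

set_option autoImplicit false
open Classical Finset

namespace Pool.Agent.BBM

/-- Stacks of groups. -/
abbrev Stk (d : ℕ) := List (Finset (Cube d))

variable {d R : ℕ} {lev Lb : ℕ → ℕ}

/-- The exclusive layer. -/
noncomputable def ZSys.Y (ZS : ZSys d R lev Lb) (c : Stk d) (j : ℕ) : Finset (Cube d) :=
  ZS.Z c j \ ZS.Z c (j - 1)

lemma loc_nonneg (q : ℕ) (a v : Cube d) : 0 ≤ loc q a v := by unfold loc; positivity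

/-- The description scheme on pairs of stacks. -/
noncomputable def ZSys.scheme (ZS : ZSys d R lev Lb) (q : ℕ) (hd : d ≤ 2 ^ q) :
    Scheme (Cube d) (Stk d × Stk d) where
  opt γ := (γ.1.tails.toFinset ∪ γ.2.tails.toFinset) ×ˢ (γ.1.tails.toFinset ∪ γ.2.tails.toFinset)
  push γ K := (K :: γ.1, γ.2)
  ker γ v := (∑ i ∈ range (R + 1),
    (∑ a ∈ ZS.Y γ.1 i, loc q a v) / (ZS.Y γ.1 i).card) / (R + 1 : ℕ)
  ker_nonneg γ v := div_nonneg (Finset.sum_nonneg fun _ _ =>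
    div_nonneg (Finset.sum_nonneg fun _ _ => loc_nonneg _ _ _) (Nat.cast_nonneg _))
    (Nat.cast_nonneg _)
  ker_sum γ := by
    rw [← Finset.sum_div, Finset.sum_comm]
    apply div_le_one_of_le₀ _ (Nat.cast_nonneg _)
    calc _ ≤ ∑ _i ∈ range (R + 1), (1 : ℝ) := by
          apply Finset.sum_le_sum
          intro i _
          rw [← Finset.sum_div, Finset.sum_comm]
          apply div_le_one_of_le₀ _ (Nat.cast_nonneg _)
          calc _ ≤ ∑ _a ∈ ZS.Y γ.1 i, (1 : ℝ) := Finset.sum_le_sum fun a _ => loc_sum hd a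
            _ = _ := by simp
      _ = _ := by simp

variable (ZS : ZSys d R lev Lb) {q : ℕ} (hd : d ≤ 2 ^ q)

lemma ker_ge (γ : Stk d × Stk d) {i L : ℕ} (hi : i ≤ R) {a : Cube d} (ha : a ∈ ZS.Y γ.1 i)
    (hL : (ZS.Y γ.1 i).card ≤ 2 ^ L) (v : Cube d) :
    (1 / 2 : ℝ) ^ (R + L + (q * hammingDist a v + 2)) ≤ (ZS.scheme q hd).ker γ v := by
  show _ ≤ (∑ i ∈ range (R + 1),
    (∑ a ∈ ZS.Y γ.1 i, loc q a v) / (ZS.Y γ.1 i).card) / (R + 1 : ℕ)
  have h1 : loc q a v ≤ ∑ a ∈ ZS.Y γ.1 i, loc q a v :=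
    Finset.single_le_sum (f := fun a => loc q a v) (fun _ _ => loc_nonneg _ _ _) ha
  have h2 : (∑ a ∈ ZS.Y γ.1 i, loc q a v) / (ZS.Y γ.1 i).card ≤ ∑ i ∈ range (R + 1),
      (∑ a ∈ ZS.Y γ.1 i, loc q a v) / (ZS.Y γ.1 i).card :=
    Finset.single_le_sum (f := fun i => (∑ a ∈ ZS.Y γ.1 i, loc q a v) / (ZS.Y γ.1 i).card)
      (fun _ _ => div_nonneg (Finset.sum_nonneg fun _ _ => loc_nonneg _ _ _) (Nat.cast_nonneg _))
      (Finset.mem_range.mpr (by omega))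
  have hp : (0 : ℝ) < (ZS.Y γ.1 i).card := by exact_mod_cast Finset.card_pos.mpr ⟨_, ha⟩
  have h3 : loc q a v / 2 ^ L ≤ (∑ a ∈ ZS.Y γ.1 i, loc q a v) / (ZS.Y γ.1 i).card :=
    div_le_div₀ ((loc_nonneg _ _ _).trans h1) h1 hp (by exact_mod_cast hL)
  have h4 : ((R + 1 : ℕ) : ℝ) ≤ 2 ^ R := by exact_mod_cast Nat.lt_two_pow_self
  refine le_trans ?_ (div_le_div₀ (((div_nonneg (loc_nonneg _ _ _) (by positivity)).trans h3).trans
    h2) (h3.trans h2) (by positivity) h4)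
  apply le_of_eq
  unfold loc
  rw [pow_add, pow_add]
  simp only [one_div, inv_pow]
  field_simp

lemma opt_card (γ : Stk d × Stk d) (h1 : γ.1.length ≤ R) (h2 : γ.2.length ≤ R) :
    ((ZS.scheme q hd).opt γ).card ≤ 2 ^ (2 * R + 2) := by
  show ((γ.1.tails.toFinset ∪ γ.2.tails.toFinset) ×ˢ
    (γ.1.tails.toFinset ∪ γ.2.tails.toFinset)).card ≤ _
  rw [Finset.card_product]
  have a1 := List.toFinset_card_le γ.1.tails
  have a2 := List.toFinset_card_le γ.2.tails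
  rw [List.length_tails] at a1 a2
  have a3 := Finset.card_union_le γ.1.tails.toFinset γ.2.tails.toFinset
  have a4 : R + 1 ≤ 2 ^ R := Nat.lt_two_pow_self
  have a5 : (γ.1.tails.toFinset ∪ γ.2.tails.toFinset).card ≤ 2 ^ (R + 1) := by
    rw [pow_succ]; omega
  calc _ ≤ 2 ^ (R + 1) * 2 ^ (R + 1) := Nat.mul_le_mul a5 a5
    _ = _ := by rw [← pow_add]; congr 1; ring

/-- `K` is cheaply describable from suffixes of two stacks. -/
def Ch (c₁ c₂ : Stk d) (K : Finset (Cube d)) (x : ℕ) : Prop :=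
  ∃ γ : Stk d × Stk d, (γ.1 <:+ c₁ ∨ γ.1 <:+ c₂) ∧ (γ.2 <:+ c₁ ∨ γ.2 <:+ c₂) ∧
    ∃ v ∈ K, (ZS.scheme q hd).Cheap γ v K x

variable {ZS hd}

lemma Ch.mono {c₁ c₂ e₁ e₂ : Stk d} {K : Finset (Cube d)} {x y : ℕ} (h : Ch ZS hd c₁ c₂ K x)
    (h1 : c₁ <:+ e₁ ∨ c₁ <:+ e₂) (h2 : c₂ <:+ e₁ ∨ c₂ <:+ e₂) (hxy : x ≤ y) :
    Ch ZS hd e₁ e₂ K y := by
  obtain ⟨γ, a1, a2, v, hv, hc⟩ := h
  have key : ∀ s : Stk d, (s <:+ c₁ ∨ s <:+ c₂) → (s <:+ e₁ ∨ s <:+ e₂) := by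
    rintro s (hs | hs)
    · exact h1.imp hs.trans hs.trans
    · exact h2.imp hs.trans hs.trans
  exact ⟨γ, key _ a1, key _ a2, v, hv, hc.mono hxy⟩

lemma Ch.reset {c₁ c₂ : Stk d} {K : Finset (Cube d)} {x : ℕ} (h : Ch ZS hd c₁ c₂ K x)
    (h1 : c₁.length ≤ R) (h2 : c₂.length ≤ R) :
    ∃ v ∈ K, (ZS.scheme q hd).Cheap (c₁, c₂) v K (x + (2 * R + 2) + 2) := by
  obtain ⟨γ, a1, a2, v, hv, hc⟩ := h
  refine ⟨v, hv, hc.opt ?_ (opt_card ZS hd (c₁, c₂) h1 h2)⟩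
  show γ ∈ (c₁.tails.toFinset ∪ c₂.tails.toFinset) ×ˢ (c₁.tails.toFinset ∪ c₂.tails.toFinset)
  simp only [Finset.mem_product, Finset.mem_union, List.mem_toFinset, List.mem_tails]
  exact ⟨a1, a2⟩

lemma Ch.nil {K : Finset (Cube d)} {x : ℕ} (h : Ch ZS hd [] [] K x) :
    ∃ v ∈ K, (ZS.scheme q hd).Cheap ([], []) v K x := by
  obtain ⟨⟨γ₁, γ₂⟩, a1, a2, v, hv, hc⟩ := h
  simp only [List.suffix_nil, or_self] at a1 a2
  subst a1 a2
  exact ⟨v, hv, hc⟩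

/-- The non-constant coordinates of a group. -/
noncomputable def dimT (K : Finset (Cube d)) : Finset (Fin d) :=
  univ.filter (fun s => ∃ x ∈ K, ∃ y ∈ K, x s ≠ y s)

/-- The group spans a small subcube. -/
def Tight (K : Finset (Cube d)) : Prop := (dimT K).card + 2 ≤ 2 * K.card

lemma InSpan.mono {K K' : Finset (Cube d)} {u : Cube d} (h : InSpan K u) (hK : K ⊆ K') :
    InSpan K' u := fun s => by
  obtain ⟨x, hx, hs⟩ := h s
  exact ⟨x, hK hx, hs⟩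

lemma inSpan_of_mem {K : Finset (Cube d)} {u : Cube d} (h : u ∈ K) : InSpan K u :=
  fun _ => ⟨u, h, rfl⟩

lemma InSpan.dist {K : Finset (Cube d)} {u v : Cube d} (hu : InSpan K u) (hv : InSpan K v) :
    hammingDist u v ≤ (dimT K).card := by
  unfold hammingDist
  apply Finset.card_le_card
  intro s hs
  simp only [Finset.mem_filter, Finset.mem_univ, true_and, dimT] at hs ⊢
  obtain ⟨x, hx, h1⟩ := hu s
  obtain ⟨y, hy, h2⟩ := hv s
  exact ⟨x, hx, y, hy, by rw [h1, h2]; exact hs⟩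

lemma tight_single (a : Cube d) : Tight {a} := by
  have : dimT ({a} : Finset (Cube d)) = ∅ := by
    ext s; simp [dimT]
  simp [Tight, this]

lemma tight_union {K E : Finset (Cube d)} (hK : Tight K) (hE : Tight E) (hd : Disjoint K E)
    {a u : Cube d} (ha : InSpan K a) (hu : InSpan E u) (hau : hammingDist a u ≤ 2) :
    Tight (K ∪ E) := by
  have h1 : dimT (K ∪ E) ⊆ dimT K ∪ dimT E ∪ univ.filter (fun s => a s ≠ u s) := by
    intro s hs
    by_contra hcon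
    simp only [Finset.mem_union, dimT, Finset.mem_filter, Finset.mem_univ, true_and] at hs hcon
    push Not at hcon
    obtain ⟨⟨c1, c2⟩, c3⟩ := hcon
    obtain ⟨a', ha', ha''⟩ := ha s
    obtain ⟨u', hu', hu''⟩ := hu s
    have key : ∀ x, (x ∈ K ∨ x ∈ E) → x s = a s := by
      rintro x (hx | hx)
      · rw [c1 x hx a' ha', ha'']
      · rw [c2 x hx u' hu', hu'', c3]
    obtain ⟨x, hx, y, hy, hxy⟩ := hs
    exact hxy ((key x hx).trans (key y hy).symm)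
  have h2 := Finset.card_le_card h1
  have h3 := Finset.card_union_le (dimT K ∪ dimT E) (univ.filter (fun s => a s ≠ u s))
  have h4 := Finset.card_union_le (dimT K) (dimT E)
  unfold Tight at *
  unfold hammingDist at hau
  rw [Finset.card_union_of_disjoint hd]
  omega

variable (ZS) in
/-- `E` is attached to the stack `c` at level `i`. -/
def Att (c : Stk d) (i : ℕ) (E : Finset (Cube d)) : Prop :=
  ∃ a ∈ ZS.Y c i, ∃ u, InSpan E u ∧ hammingDist a u ≤ 2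

lemma Att.mono {c : Stk d} {i : ℕ} {E E' : Finset (Cube d)} (h : Att ZS c i E) (hE : E ⊆ E') :
    Att ZS c i E' := by
  obtain ⟨a, ha, u, hu, hau⟩ := h
  exact ⟨a, ha, u, hu.mono hE, hau⟩

lemma absorb {K E : Finset (Cube d)} {c₁ c₂ : Stk d} {i x₁ x₂ : ℕ} (hK : K.Nonempty)
    (h1 : 1 ≤ lev K.card) (hi : lev K.card ≤ i) (hiR : i ≤ R) (hl1 : c₁.length + 1 ≤ R)
    (hl2 : c₂.length ≤ R) (hc1 : Ch ZS hd c₁ c₂ K x₁) (hc2 : Ch ZS hd (K :: c₁) c₂ E x₂)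
    (hA : Att ZS (K :: c₁) i E) (tK : Tight K) (tE : Tight E) (hdis : Disjoint K E) :
    Ch ZS hd c₁ c₂ (K ∪ E) (x₁ + x₂ + Lb i + 2 * q * E.card + (5 * R + 12)) ∧ Tight (K ∪ E) := by
  obtain ⟨a, ha, u, hu, hau⟩ := hA
  refine ⟨?_, tight_union tK tE hdis (ZS.span K c₁ i hK h1 hi hiR a ha) hu hau⟩
  obtain ⟨v, hv, g1⟩ := hc1.reset (by omega) hl2
  obtain ⟨v₂, hv₂, g2⟩ := hc2.reset (by simpa using hl1) hl2
  have g3 := ker_ge ZS hd (K :: c₁, c₂) hiR ha (ZS.light K c₁ i hK h1 hi hiR) v₂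
  have g4 := g1.join (S := ZS.scheme q hd) g3 g2
  refine ⟨(c₁, c₂), Or.inl List.suffix_rfl, Or.inr List.suffix_rfl, v,
    Finset.mem_union_left _ hv, g4.mono ?_⟩
  have h2 : hammingDist a v₂ ≤ 2 * E.card := by
    have b1 := hammingDist_triangle a u v₂
    have b2 := hu.dist (inSpan_of_mem hv₂)
    unfold Tight at tE
    omega
  have h3 := Nat.mul_le_mul_left q h2
  have h4 : q * (2 * E.card) = 2 * q * E.card := by ring
  omega

end Pool.Agent.BBM
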