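import Pool.Agent.P.MP_3a7cda_pr.H21.Basic

set_option autoImplicit false
open Classical Finset Polynomial

namespace Pool.Agent.BBM

/-! ### Linear algebra helpers -/

section LinAlg
variable {A B : Type} [AddCommGroup A] [Module ℚ A] [AddCommGroup B] [Module ℚ B]

/-- Dimension of a subspace. -/
noncomputable abbrev fr (U : Submodule ℚ A) : ℕ := Module.finrank ℚ U

lemma fg_le {U W : Submodule ℚ A} (hW : W.FG) (h : U ≤ W) : U.FG := by
  have := Module.Finite.of_fg hW
  have := Submodule.finiteDimensional_of_le h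
  exact Module.Finite.iff_fg.mp this

lemma fr_mono {U W : Submodule ℚ A} (hW : W.FG) (h : U ≤ W) : fr U ≤ fr W := by
  have := Module.Finite.of_fg hW
  exact Submodule.finrank_mono h

lemma fr_sup_inf {U W : Submodule ℚ A} (hU : U.FG) (hW : W.FG) :
    fr (U ⊔ W) + fr (U ⊓ W) = fr U + fr W := by
  have := Module.Finite.of_fg hW
  have := Module.Finite.of_fg hU
  exact Submodule.finrank_sup_add_finrank_inf_eq U W

lemma fr_pos {U : Submodule ℚ A} (hU : U.FG) (h : U ≠ ⊥) : 0 < fr U := by
  have := Module.Finite.of_fg hU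
  rw [Nat.pos_iff_ne_zero]
  intro h0
  exact h (Submodule.finrank_eq_zero.mp h0)

lemma fr_lt {U W : Submodule ℚ A} (hW : W.FG) (h : U < W) : fr U < fr W := by
  have := Module.Finite.of_fg hW
  exact Submodule.finrank_lt_finrank_of_lt h

lemma rank_null (f : A →ₗ[ℚ] B) {U : Submodule ℚ A} (hU : U.FG) :
    fr U = fr (U.map f) + fr (U ⊓ LinearMap.ker f) := by
  have := Module.Finite.of_fg hU
  have h := LinearMap.finrank_range_add_finrank_ker (f.domRestrict U)
  rw [LinearMap.range_domRestrict, LinearMap.ker_domRestrict] at h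
  have e : Submodule.comap U.subtype (LinearMap.ker f) =
      Submodule.comap U.subtype (U ⊓ LinearMap.ker f) := by
    ext x; simp
  rw [e, (Submodule.comapSubtypeEquivOfLe
    (inf_le_left : U ⊓ LinearMap.ker f ≤ U)).finrank_eq] at h
  exact h.symm

lemma fr_map_inj (f : A →ₗ[ℚ] B) (hf : Function.Injective f) (U : Submodule ℚ A) :
    fr (U.map f) = fr U :=
  (Submodule.equivMapOfInjective f hf U).finrank_eq.symm

lemma codim_inf {X Y X' : Submodule ℚ A} (hX : X.FG) (hY : Y ≤ X) (hX' : X' ≤ X) :
    fr X' + fr Y ≤ fr X + fr (Y ⊓ X') := by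
  have h1 := fr_sup_inf (fg_le hX hY) (fg_le hX hX')
  have h2 := fr_mono hX (sup_le hY hX')
  omega

lemma codim_sup {X Y E : Submodule ℚ A} (hX : X.FG) (hE : E.FG) (hY : Y ≤ X) :
    fr (X ⊔ E) + fr Y ≤ fr X + fr (Y ⊔ E) := by
  have hYE : (Y ⊔ E).FG := (fg_le hX hY).sup hE
  have h1 := fr_sup_inf hX hYE
  have h2 : X ⊔ (Y ⊔ E) = X ⊔ E := by rw [← sup_assoc, sup_eq_left.mpr hY]
  have h3 : fr Y ≤ fr (X ⊓ (Y ⊔ E)) :=
    fr_mono (fg_le hX inf_le_left) (le_inf hY le_sup_left)
  rw [h2] at h1
  omega

lemma codim_map (f : A →ₗ[ℚ] B) {X Y : Submodule ℚ A} (hX : X.FG) (hY : Y ≤ X) :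
    fr (X.map f) + fr Y ≤ fr X + fr (Y.map f) := by
  have h1 := rank_null f hX
  have h2 := rank_null f (fg_le hX hY)
  have h3 : fr (Y ⊓ LinearMap.ker f) ≤ fr (X ⊓ LinearMap.ker f) :=
    fr_mono (fg_le hX inf_le_left) (inf_le_inf_right _ hY)
  omega

lemma codim_gain (f : A →ₗ[ℚ] B) {X Y X' : Submodule ℚ A} (hX : X.FG) (hY : Y ≤ X)
    (hYf : Y ≤ LinearMap.ker f) (hX' : X' ≤ X) :
    fr (X.map f) + fr X' + fr Y ≤ fr X + fr (Y ⊓ X') + fr (X'.map f) := by
  have h1 := fr_sup_inf (fg_le hX hY) (fg_le hX hX')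
  have h2 := codim_map f hX (sup_le hY hX')
  have h3 : (Y ⊔ X').map f = X'.map f := by
    rw [Submodule.map_sup, (LinearMap.le_ker_iff_map).mp hYf, bot_sup_eq]
  rw [h3] at h2
  omega

end LinAlg

/-! ### The algebra of polynomial-valued functions on the cube -/

/-- Polynomial-valued functions on the cube. -/
abbrev Alg (d : ℕ) := Cube d → ℚ[X]

variable {d : ℕ}

lemma fr_mul_le {U W : Submodule ℚ (Alg d)} (hU : U.FG) (hW : W.FG) :
    fr (U * W) ≤ fr U * fr W := by
  have := Module.Finite.of_fg hW
  have := Module.Finite.of_fg hU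
  rw [← Submodule.mulMap_range, ← Module.finrank_tensorProduct]
  exact LinearMap.finrank_range_le _

/-- The linear polynomial attached to a coordinate. -/
noncomputable def lin (s : Fin d) : ℚ[X] := X - C ((s : ℕ) : ℚ)

lemma lin_ne (s : Fin d) : lin s ≠ 0 := X_sub_C_ne_zero _

/-- The face functions. -/
noncomputable def eta (s : Fin d) (b : Bool) : Alg d := fun x => if x s = b then lin s else 0

/-- The space of degree-one functions. -/
noncomputable def Lam (d : ℕ) : Submodule ℚ (Alg d) :=
  Submodule.span ℚ ((insert 1 (univ.image (fun sb : Fin d × Bool => eta sb.1 sb.2)) :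
    Finset (Alg d)) : Set (Alg d))

lemma Lam_fg : (Lam d).FG := ⟨_, rfl⟩

lemma one_mem_Lam : (1 : Alg d) ∈ Lam d := Submodule.subset_span (by simp)

lemma eta_mem_Lam (s : Fin d) (b : Bool) : eta s b ∈ Lam d :=
  Submodule.subset_span (Finset.mem_coe.mpr (Finset.mem_insert_of_mem
    (Finset.mem_image.mpr ⟨(s, b), Finset.mem_univ _, rfl⟩)))

lemma fr_Lam : fr (Lam d) ≤ 2 * d + 1 := by
  refine (finrank_span_finset_le_card _).trans ((Finset.card_insert_le _ _).trans ?_)
  have := Finset.card_image_le (s := (univ : Finset (Fin d × Bool)))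
    (f := fun sb : Fin d × Bool => eta sb.1 sb.2)
  simp only [Finset.card_univ, Fintype.card_prod, Fintype.card_fin, Fintype.card_bool] at this
  omega

lemma Lam_pow_fg (j : ℕ) : (Lam d ^ j).FG := Lam_fg.pow j

lemma fr_Lam_pow (j : ℕ) : fr (Lam d ^ j) ≤ (2 * d + 1) ^ j := by
  induction j with
  | zero =>
    rw [pow_zero, pow_zero, Submodule.one_eq_span]
    have := finrank_span_finset_le_card (R := ℚ) ({1} : Finset (Alg d))
    rw [Set.finrank, Finset.coe_singleton, Finset.card_singleton] at this
    exact this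
  | succ j ih =>
    rw [pow_succ, pow_succ]
    exact (fr_mul_le (Lam_pow_fg j) Lam_fg).trans (Nat.mul_le_mul ih fr_Lam)

lemma le_mul_Lam (U : Submodule ℚ (Alg d)) : U ≤ U * Lam d := fun P hP => by
  have := Submodule.mul_mem_mul hP (one_mem_Lam (d := d))
  simpa using this

/-- Degree bound and edge compatibility. -/
def Good (j : ℕ) (P : Alg d) : Prop :=
  (∀ x, (P x).natDegree ≤ j) ∧
    ∀ (x y : Cube d) (s : Fin d), (∀ s', s' ≠ s → x s' = y s') →
      (P x).eval ((s : ℕ) : ℚ) = (P y).eval ((s : ℕ) : ℚ)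

lemma Good.add {j : ℕ} {P Q : Alg d} (hP : Good j P) (hQ : Good j Q) : Good j (P + Q) :=
  ⟨fun x => (natDegree_add_le _ _).trans (max_le (hP.1 x) (hQ.1 x)),
    fun x y s h => by simp [hP.2 x y s h, hQ.2 x y s h]⟩

lemma Good.mul {i j : ℕ} {P Q : Alg d} (hP : Good i P) (hQ : Good j Q) : Good (i + j) (P * Q) :=
  ⟨fun x => natDegree_mul_le.trans (add_le_add (hP.1 x) (hQ.1 x)),
    fun x y s h => by simp [hP.2 x y s h, hQ.2 x y s h]⟩

lemma Good.smul {j : ℕ} {P : Alg d} (c : ℚ) (hP : Good j P) : Good j (c • P) :=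
  ⟨fun x => (natDegree_smul_le _ _).trans (hP.1 x),
    fun x y s h => by simp [hP.2 x y s h]⟩

lemma good_zero (j : ℕ) : Good j (0 : Alg d) := ⟨fun x => by simp, fun x y s _ => by simp⟩

lemma good_one (j : ℕ) : Good j (1 : Alg d) := ⟨fun x => by simp, fun x y s _ => by simp⟩

lemma good_eta (s : Fin d) (b : Bool) : Good 1 (eta s b) := by
  constructor
  · intro x
    unfold eta lin
    split_ifs
    · exact (natDegree_X_sub_C _).le
    · simp
  · intro x y s' h
    by_cases hs : s = s'
    · subst hs
      unfold eta lin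
      split_ifs <;> simp
    · unfold eta
      rw [h s hs]

lemma good_Lam {P : Alg d} (hP : P ∈ Lam d) : Good 1 P := by
  induction hP using Submodule.span_induction with
  | mem P hP =>
    simp only [Finset.coe_insert, Finset.coe_image, Set.mem_insert_iff, Set.mem_image] at hP
    rcases hP with rfl | ⟨sb, _, rfl⟩
    · exact good_one 1
    · exact good_eta _ _
  | zero => exact good_zero 1
  | add P Q _ _ hP hQ => exact hP.add hQ
  | smul c P _ hP => exact hP.smul c

lemma good_pow (j : ℕ) : ∀ P : Alg d, P ∈ Lam d ^ j → Good j P := by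
  induction j with
  | zero =>
    intro P hP
    rw [pow_zero, Submodule.one_eq_span, Submodule.mem_span_singleton] at hP
    obtain ⟨c, rfl⟩ := hP
    exact (good_one 0).smul c
  | succ j ih =>
    intro P hP
    rw [pow_succ] at hP
    refine Submodule.mul_induction_on hP ?_ ?_
    · intro a ha b hb
      exact (ih a ha).mul (good_Lam hb)
    · intro a b ha hb
      exact ha.add hb

/-- Common zero set. -/
noncomputable def zs (G : Submodule ℚ (Alg d)) : Finset (Cube d) :=
  univ.filter (fun x => ∀ P ∈ G, P x = 0)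

lemma mem_zs {G : Submodule ℚ (Alg d)} {x : Cube d} : x ∈ zs G ↔ ∀ P ∈ G, P x = 0 := by
  simp [zs]

lemma zs_anti {G H : Submodule ℚ (Alg d)} (h : G ≤ H) : zs H ⊆ zs G := fun _ hx =>
  mem_zs.mpr fun P hP => mem_zs.mp hx P (h hP)

lemma zs_mul (G H : Submodule ℚ (Alg d)) : zs G ⊆ zs (G * H) := fun x hx => by
  rw [mem_zs] at hx ⊢
  intro P hP
  refine Submodule.mul_induction_on hP ?_ ?_
  · intro a ha b _
    simp [hx a ha]
  · intro a b ha hb
    simp [ha, hb]

lemma zs_pow (j : ℕ) : zs (Lam d ^ j) = ∅ := by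
  rw [Finset.eq_empty_iff_forall_notMem]
  intro x hx
  have h1 : (1 : Alg d) ∈ Lam d ^ j := by
    have := Submodule.pow_mem_pow (Lam d) (one_mem_Lam (d := d)) j
    simpa using this
  have := mem_zs.mp hx 1 h1
  simp at this

lemma nbr_eq {u v : Cube d} (h : hammingDist u v = 1) :
    ∃ s, u = Function.update v s (!v s) := by
  unfold hammingDist at h
  obtain ⟨s, hs⟩ := Finset.card_eq_one.mp h
  refine ⟨s, funext fun s' => ?_⟩
  by_cases h' : s' = s
  · subst h'
    have : s' ∈ univ.filter (fun i => u i ≠ v i) := by rw [hs]; simp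
    simp only [Finset.mem_filter, Finset.mem_univ, true_and] at this
    rw [Function.update_self]
    exact Bool.eq_not_iff.mpr this
  · rw [Function.update_of_ne h']
    by_contra hne
    have : s' ∈ univ.filter (fun i => u i ≠ v i) := by simp [hne]
    rw [hs] at this
    exact h' (by simpa using this)

lemma zs_closed {j : ℕ} {G : Submodule ℚ (Alg d)} (hG : G ≤ Lam d ^ j) :
    Closed (j + 1) (zs G) := by
  intro v hv
  rw [mem_zs]
  intro P hP
  have hg := good_pow j P (hG hP)
  set T : Finset (Fin d) := univ.filter (fun s => Function.update v s (!v s) ∈ zs G) with hT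
  have h1 : ((zs G).filter (fun u => hammingDist u v = 1)).card ≤ T.card := by
    refine le_trans (Finset.card_le_card ?_)
      (Finset.card_image_le (f := fun s => Function.update v s (!v s)))
    intro u hu
    rw [Finset.mem_filter] at hu
    obtain ⟨s, rfl⟩ := nbr_eq hu.2
    exact Finset.mem_image.mpr ⟨s, by simp [hT, hu.1], rfl⟩
  apply eq_zero_of_natDegree_lt_card_of_eval_eq_zero' _
    (T.image (fun s : Fin d => ((s : ℕ) : ℚ)))
  · intro c hc
    obtain ⟨s, hs, rfl⟩ := Finset.mem_image.mp hc
    have h2 : Function.update v s (!v s) ∈ zs G := by simpa [hT] using hs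
    rw [hg.2 v (Function.update v s (!v s)) s (fun s' h' => (Function.update_of_ne h' _ _).symm),
      mem_zs.mp h2 P hP]
    simp
  · rw [Finset.card_image_of_injective _
      (fun a b h => Fin.ext (by exact_mod_cast h))]
    have := hg.1 v
    omega

/-- Restriction to a set of vertices. -/
noncomputable def res (Y : Finset (Cube d)) : Alg d →ₗ[ℚ] Alg d where
  toFun P := fun x => if x ∈ Y then P x else 0
  map_add' P Q := by funext x; by_cases h : x ∈ Y <;> simp [h]
  map_smul' c P := by funext x; by_cases h : x ∈ Y <;> simp [h]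

lemma res_apply (Y : Finset (Cube d)) (P : Alg d) (x : Cube d) :
    res Y P x = if x ∈ Y then P x else 0 := rfl

lemma res_mul (Y : Finset (Cube d)) (P Q : Alg d) : res Y (P * Q) = res Y P * Q := by
  funext x; by_cases h : x ∈ Y <;> simp [res_apply, h]

lemma res_res {Y Y' : Finset (Cube d)} (h : Y' ⊆ Y) (P : Alg d) : res Y' (res Y P) = res Y' P := by
  funext x
  by_cases hx : x ∈ Y'
  · simp [res_apply, hx, h hx]
  · simp [res_apply, hx]

lemma mem_ker_res {Y : Finset (Cube d)} {P : Alg d} :
    P ∈ LinearMap.ker (res Y) ↔ ∀ x ∈ Y, P x = 0 := by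
  rw [LinearMap.mem_ker]
  constructor
  · intro h x hx
    have := congrFun h x
    simpa [res_apply, hx] using this
  · intro h
    funext x
    by_cases hx : x ∈ Y
    · simp [res_apply, hx, h x hx]
    · simp [res_apply, hx]

lemma map_res_res {Y Y' : Finset (Cube d)} (h : Y' ⊆ Y) (U : Submodule ℚ (Alg d)) :
    (U.map (res Y)).map (res Y') = U.map (res Y') := by
  rw [← Submodule.map_comp]
  congr 1
  exact LinearMap.ext fun P => res_res h P

lemma map_res_mul (Y : Finset (Cube d)) (U W : Submodule ℚ (Alg d)) :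
    (U * W).map (res Y) = U.map (res Y) * W := by
  apply le_antisymm
  · rw [Submodule.map_le_iff_le_comap, Submodule.mul_le]
    intro a ha b hb
    rw [Submodule.mem_comap, res_mul]
    exact Submodule.mul_mem_mul (Submodule.mem_map_of_mem ha) hb
  · rw [Submodule.mul_le]
    rintro _ ⟨a, ha, rfl⟩ b hb
    rw [← res_mul]
    exact Submodule.mem_map_of_mem (Submodule.mul_mem_mul ha hb)

lemma fr_res_mono {Y Y' : Finset (Cube d)} (h : Y' ⊆ Y) {U : Submodule ℚ (Alg d)} (hU : U.FG) :
    fr (U.map (res Y')) ≤ fr (U.map (res Y)) := by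
  rw [← map_res_res h U]
  have := rank_null (res Y') (hU.map (res Y))
  omega

lemma ker_mul_le (Y : Finset (Cube d)) (U W : Submodule ℚ (Alg d)) :
    (U ⊓ LinearMap.ker (res Y)) * W ≤ (U * W) ⊓ LinearMap.ker (res Y) := by
  rw [Submodule.mul_le]
  intro a ha b hb
  refine ⟨Submodule.mul_mem_mul ha.1 hb, ?_⟩
  have : res Y a = 0 := ha.2
  show res Y (a * b) = 0
  rw [res_mul, this, zero_mul]

/-- The splitting inequality along one coordinate. -/
lemma split_gain (Y : Finset (Cube d)) (s : Fin d) (b : Bool) {U : Submodule ℚ (Alg d)}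
    (hU : U.FG) :
    fr ((U * Lam d).map (res (Y.filter (fun x => x s ≠ b)))) +
      fr (U.map (res (Y.filter (fun x => x s = b)))) ≤ fr ((U * Lam d).map (res Y)) := by
  have hfg : ((U * Lam d).map (res Y)).FG := (hU.mul Lam_fg).map _
  rw [rank_null (res (Y.filter (fun x => x s ≠ b))) hfg, map_res_res (Finset.filter_subset _ _)]
  apply Nat.add_le_add_left
  let m : Alg d →ₗ[ℚ] Alg d := LinearMap.mulRight ℚ (fun _ => lin s)
  have hm : Function.Injective m := by
    rw [injective_iff_map_eq_zero]
    intro P hP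
    funext x
    have : P x * lin s = 0 := congrFun hP x
    exact (mul_eq_zero.mp this).resolve_right (lin_ne s)
  rw [← fr_map_inj m hm]
  apply fr_mono (fg_le hfg inf_le_left)
  rintro _ ⟨_, ⟨P, hP, rfl⟩, rfl⟩
  constructor
  · refine ⟨P * eta s b, Submodule.mul_mem_mul hP (eta_mem_Lam s b), ?_⟩
    funext x
    show res Y (P * eta s b) x = res (Y.filter (fun x => x s = b)) P x * lin s
    by_cases h1 : x ∈ Y <;> by_cases h2 : x s = b <;> simp [res_apply, eta, h1, h2]
  · apply mem_ker_res.mpr
    intro x hx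
    show res (Y.filter (fun x => x s = b)) P x * lin s = 0
    have := (Finset.mem_filter.mp hx).2
    simp [res_apply, this]

/-- Vanishing on `K` costs at most `(j+1)|K|` dimensions in degree `j`. -/
lemma fr_res_le {j : ℕ} {U : Submodule ℚ (Alg d)} (hU : U ≤ Lam d ^ j) (K : Finset (Cube d)) :
    fr (U.map (res K)) ≤ (j + 1) * K.card := by
  let φ : (U.map (res K)) →ₗ[ℚ] (Fin (j + 1) × K → ℚ) :=
    { toFun := fun P ix => (P.1 ix.2.1).coeff ix.1
      map_add' := fun P Q => by funext ix; simp
      map_smul' := fun c P => by funext ix; simp }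
  have hφ : Function.Injective φ := by
    rw [injective_iff_map_eq_zero]
    rintro ⟨_, P, hP, rfl⟩ h
    apply Subtype.ext
    funext x
    show res K P x = 0
    by_cases hx : x ∈ K
    · have hdeg := (good_pow j P (hU hP)).1 x
      ext i
      by_cases hi : i < j + 1
      · exact congrFun h (⟨i, hi⟩, ⟨x, hx⟩)
      · rw [res_apply, if_pos hx, coeff_eq_zero_of_natDegree_lt (by omega)]; simp
    · simp [res_apply, hx]
  have := LinearMap.finrank_le_finrank_of_injective hφ
  simpa using this

/-- A balanced coordinate. -/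
lemma exists_balanced (Y : Finset (Cube d)) (hY : 2 ≤ Y.card) :
    ∃ (s : Fin d) (b : Bool), Y.card ≤ 2 * d * (Y.filter (fun x => x s = b)).card ∧
      Y.card ≤ 2 * (Y.filter (fun x => x s ≠ b)).card := by
  have hmin : ∀ s : Fin d, ∃ b : Bool, Y.card ≤ 2 * (Y.filter (fun x => x s ≠ b)).card := by
    intro s
    have h := Finset.card_filter_add_card_filter_not (s := Y) (fun x => x s = true)
    by_cases h1 : Y.card ≤ 2 * (Y.filter (fun x => x s ≠ true)).card
    · exact ⟨true, h1⟩
    · refine ⟨false, ?_⟩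
      have e : Y.filter (fun x => x s ≠ false) = Y.filter (fun x => x s = true) := by
        apply Finset.filter_congr; intro x _; simp
      rw [e]
      simp only [ne_eq] at h1
      omega
  choose b hb using hmin
  by_contra hcon
  push Not at hcon
  have h1 : ∀ s, 2 * d * (Y.filter (fun x => x s = b s)).card + 1 ≤ Y.card := fun s => by
    by_contra h
    exact absurd (hb s) (not_le.mpr (hcon s (b s) (by omega)))
  have h2 : Y ⊆ insert (fun s => !b s) (univ.biUnion (fun s => Y.filter (fun x => x s = b s))) := by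
    intro x hx
    by_cases h : ∃ s, x s = b s
    · obtain ⟨s, hs⟩ := h
      apply Finset.mem_insert_of_mem
      exact Finset.mem_biUnion.mpr ⟨s, Finset.mem_univ _, Finset.mem_filter.mpr ⟨hx, hs⟩⟩
    · push Not at h
      have : x = fun s => !b s := funext fun s => Bool.eq_not_iff.mpr (h s)
      rw [this]; exact Finset.mem_insert_self _ _
  have h3 := (Finset.card_le_card h2).trans (Finset.card_insert_le _ _)
  have h4 := Finset.card_biUnion_le (s := (univ : Finset (Fin d)))
    (t := fun s => Y.filter (fun x => x s = b s))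
  have h5 : ∑ s : Fin d, (2 * d * (Y.filter (fun x => x s = b s)).card + 1) ≤
      ∑ _s : Fin d, Y.card := Finset.sum_le_sum fun s _ => h1 s
  rw [Finset.sum_add_distrib, ← Finset.mul_sum] at h5
  simp only [Finset.sum_const, Finset.card_univ, Fintype.card_fin, smul_eq_mul, mul_one] at h5
  set T := ∑ s : Fin d, (Y.filter (fun x => x s = b s)).card
  have h6 : Y.card ≤ 2 * T := by omega
  have h7 : d * Y.card ≤ d * (2 * T) := Nat.mul_le_mul_left _ h6
  have hd : d = 0 := by nlinarith
  subst hd
  have : T = 0 := by simp [T]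
  omega

lemma fr_res_pos {U : Submodule ℚ (Alg d)} (hU : U.FG) {Y : Finset (Cube d)} {x : Cube d}
    (hx : x ∈ Y) (hs : x ∉ zs U) : 0 < fr (U.map (res Y)) := by
  apply fr_pos (hU.map _)
  intro h
  apply hs
  rw [mem_zs]
  intro P hP
  have : res Y P ∈ U.map (res Y) := Submodule.mem_map_of_mem hP
  rw [h, Submodule.mem_bot] at this
  have := congrFun this x
  simpa [res_apply, hx] using this

/-- A set in the support has size at most `2` to the growth dimension. -/
lemma card_le_two_pow {U : Submodule ℚ (Alg d)} (hU : U.FG) (n : ℕ) :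
    ∀ Y : Finset (Cube d), (∀ x ∈ Y, x ∉ zs U) → fr ((U * Lam d).map (res Y)) ≤ n →
      Y.card ≤ 2 ^ n := by
  induction n with
  | zero =>
    intro Y hY h
    by_contra hc
    obtain ⟨s, b, h1, h2⟩ := exists_balanced Y (by omega)
    have h3 := split_gain Y s b hU
    have : (Y.filter (fun x => x s = b)).Nonempty := by
      rw [← Finset.card_pos]
      by_contra h0
      have : (Y.filter (fun x => x s = b)).card = 0 := by omega
      rw [this] at h1; omega
    obtain ⟨x, hx⟩ := this
    have := fr_res_pos hU hx (hY x (Finset.mem_filter.mp hx).1)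
    omega
  | succ n ih =>
    intro Y hY h
    by_contra hc
    have hp : 1 ≤ 2 ^ n := Nat.one_le_two_pow
    obtain ⟨s, b, h1, h2⟩ := exists_balanced Y (by omega)
    have h3 := split_gain Y s b hU
    have : (Y.filter (fun x => x s = b)).Nonempty := by
      rw [← Finset.card_pos]
      by_contra h0
      have : (Y.filter (fun x => x s = b)).card = 0 := by omega
      rw [this] at h1; omega
    obtain ⟨x, hx⟩ := this
    have := fr_res_pos hU hx (hY x (Finset.mem_filter.mp hx).1)
    have h4 := ih (Y.filter (fun x => x s ≠ b)) (fun x hx => hY x (Finset.mem_filter.mp hx).1)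
      (by omega)
    omega

end Pool.Agent.BBM
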