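import Mathlib

set_option autoImplicit false
open Classical Finset

namespace Pool.Agent.BBM

/-- The vertex set of the `d`-cube. -/
abbrev Cube (d : ℕ) := Fin d → Bool

/-- `S` is closed under the `r`-neighbour rule. -/
def Closed {d : ℕ} (r : ℕ) (S : Finset (Cube d)) : Prop :=
  ∀ v : Cube d, r ≤ (S.filter (fun u => hammingDist u v = 1)).card → v ∈ S

/-- `A` percolates in the `r`-neighbour process. -/
def Perc {d : ℕ} (r : ℕ) (A : Finset (Cube d)) : Prop :=
  ∀ S : Finset (Cube d), A ⊆ S → Closed r S → S = univ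

/-- Product weight of a finite set. -/
noncomputable def wt {ι : Type} [Fintype ι] (p : ℝ) (A : Finset ι) : ℝ :=
  ∏ x, if x ∈ A then p else 1 - p

/-- Expectation under the `p`-random subset. -/
noncomputable def Ex {ι : Type} [Fintype ι] (p : ℝ) (f : Finset ι → ℝ) : ℝ :=
  ∑ A, wt p A * f A

/-- Indicator of a proposition. -/
noncomputable def ind (P : Prop) : ℝ := if P then 1 else 0

lemma ind_nonneg (P : Prop) : 0 ≤ ind P := by unfold ind; split_ifs <;> norm_num
lemma ind_le_one (P : Prop) : ind P ≤ 1 := by unfold ind; split_ifs <;> norm_num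
lemma ind_pos {P : Prop} (h : P) : ind P = 1 := by simp [ind, h]
lemma ind_neg {P : Prop} (h : ¬ P) : ind P = 0 := by simp [ind, h]

section
variable {ι : Type} [Fintype ι]

lemma wt_eq (p : ℝ) (A : Finset ι) :
    wt p A = p ^ A.card * (1 - p) ^ (Fintype.card ι - A.card) := by
  unfold wt
  rw [Finset.prod_ite, Finset.prod_const, Finset.prod_const]
  have h1 : (univ.filter (fun x => x ∈ A)) = A := by ext x; simp
  have h2 : (univ.filter (fun x => ¬ x ∈ A)) = Aᶜ := by ext x; simp
  rw [h1, h2, Finset.card_compl]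

lemma wt_nonneg {p : ℝ} (h0 : 0 ≤ p) (h1 : p ≤ 1) (A : Finset ι) : 0 ≤ wt p A := by
  unfold wt
  apply Finset.prod_nonneg
  intro x _
  split_ifs <;> linarith

lemma sum_prod_form (f g : ι → ℝ) :
    ∑ A : Finset ι, ∏ x, (if x ∈ A then f x else g x) = ∏ x, (f x + g x) := by
  rw [Finset.prod_add, Finset.powerset_univ]
  apply Finset.sum_congr rfl
  intro A _
  rw [Finset.prod_ite]
  have h1 : (univ.filter (fun x => x ∈ A)) = A := by ext x; simp
  have h2 : (univ.filter (fun x => ¬ x ∈ A)) = univ \ A := by ext x; simp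
  rw [h1, h2]

lemma Ex_mono {p : ℝ} (h0 : 0 ≤ p) (h1 : p ≤ 1) {f g : Finset ι → ℝ} (h : ∀ A, f A ≤ g A) :
    Ex p f ≤ Ex p g := by
  unfold Ex
  exact Finset.sum_le_sum fun A _ => mul_le_mul_of_nonneg_left (h A) (wt_nonneg h0 h1 A)

lemma Ex_sub (K : Finset ι) (p : ℝ) : Ex p (fun A => ind (K ⊆ A)) = p ^ K.card := by
  unfold Ex
  have h : ∀ A : Finset ι, wt p A * ind (K ⊆ A) =
      ∏ x, (if x ∈ A then p else (if x ∈ K then 0 else 1 - p)) := by
    intro A
    by_cases hK : K ⊆ A
    · rw [ind_pos hK, mul_one]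
      unfold wt
      apply Finset.prod_congr rfl
      intro x _
      by_cases hx : x ∈ A
      · simp [hx]
      · have : x ∉ K := fun h => hx (hK h)
        simp [hx, this]
    · rw [ind_neg hK, mul_zero]
      obtain ⟨x, hxK, hxA⟩ := Finset.not_subset.mp hK
      symm
      apply Finset.prod_eq_zero (Finset.mem_univ x)
      simp [hxK, hxA]
  simp_rw [h]
  rw [sum_prod_form]
  have h2 : ∀ x : ι, (p + if x ∈ K then 0 else 1 - p) = if x ∈ K then p else 1 := by
    intro x; split_ifs <;> ring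
  simp_rw [h2]
  rw [Finset.prod_ite, Finset.prod_const, Finset.prod_const]
  have h1 : (univ.filter (fun x => x ∈ K)) = K := by ext x; simp
  rw [h1]; simp

lemma Ex_one (p : ℝ) : Ex p (fun _ : Finset ι => (1 : ℝ)) = 1 := by
  have := Ex_sub (∅ : Finset ι) p
  simpa [ind] using this

lemma Ex_sum {κ : Type} (s : Finset κ) (p : ℝ) (f : κ → Finset ι → ℝ) :
    Ex p (fun A => ∑ k ∈ s, f k A) = ∑ k ∈ s, Ex p (f k) := by
  unfold Ex
  simp_rw [Finset.mul_sum]
  exact Finset.sum_comm

/-- Union bound over a family of witnesses. -/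
lemma Ex_union {κ : Type} (s : Finset κ) (G : κ → Finset ι) {p : ℝ} (h0 : 0 ≤ p) (h1 : p ≤ 1)
    (P : Finset ι → Prop) (h : ∀ A, P A → ∃ k ∈ s, G k ⊆ A) :
    Ex p (fun A => ind (P A)) ≤ ∑ k ∈ s, p ^ (G k).card := by
  calc Ex p (fun A => ind (P A)) ≤ Ex p (fun A => ∑ k ∈ s, ind (G k ⊆ A)) := by
        apply Ex_mono h0 h1
        intro A
        by_cases hP : P A
        · obtain ⟨k, hk, hG⟩ := h A hP
          rw [ind_pos hP]
          calc (1 : ℝ) = ind (G k ⊆ A) := (ind_pos hG).symm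
            _ ≤ ∑ k ∈ s, ind (G k ⊆ A) :=
              Finset.single_le_sum (f := fun k => ind (G k ⊆ A)) (fun k _ => ind_nonneg _) hk
        · rw [ind_neg hP]
          exact Finset.sum_nonneg fun k _ => ind_nonneg _
    _ = ∑ k ∈ s, p ^ (G k).card := by
        rw [Ex_sum]
        exact Finset.sum_congr rfl fun k _ => Ex_sub (G k) p

end

/-- Probability of percolation. -/
noncomputable def fP (p : ℝ) (r d : ℕ) : ℝ := Ex p (fun A : Finset (Cube d) => ind (Perc r A))

end Pool.Agent.BBM
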