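import Pool.Agent.P.MP_3a7cda_pr.H21.RStar

set_option autoImplicit false
open Classical Finset

namespace Pool.Agent.BBM

variable {d : ℕ}

/-- Membership in the subcube spanned by `K`. -/
def InSpan (K : Finset (Cube d)) (u : Cube d) : Prop := ∀ s, ∃ x ∈ K, x s = u s

/-- Chains of subspaces. -/
def IsCh (R : ℕ) (G : ℕ → Submodule ℚ (Alg d)) : Prop :=
  G 0 = 1 ∧ ∀ j < R, G (j + 1) ≤ G j * Lam d

lemma IsCh.le_pow {R : ℕ} {G : ℕ → Submodule ℚ (Alg d)} (h : IsCh R G) :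
    ∀ j ≤ R, G j ≤ Lam d ^ j := by
  intro j
  induction j with
  | zero => intro _; rw [h.1, pow_zero]
  | succ j ih =>
    intro hj
    rw [pow_succ]
    exact (h.2 j (by omega)).trans (mul_le_mul_left (ih (by omega)) _)

lemma IsCh.fg {R : ℕ} {G : ℕ → Submodule ℚ (Alg d)} (h : IsCh R G) {j : ℕ} (hj : j ≤ R) :
    (G j).FG := fg_le (Lam_pow_fg j) (h.le_pow j hj)

lemma IsCh.zs_mono {R : ℕ} {G : ℕ → Submodule ℚ (Alg d)} (h : IsCh R G) {j : ℕ} (hj : j < R) :
    zs (G j) ⊆ zs (G (j + 1)) := (zs_mul _ _).trans (zs_anti (h.2 j hj))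

lemma IsCh.zs_mono' {R : ℕ} {G : ℕ → Submodule ℚ (Alg d)} (h : IsCh R G) {i : ℕ} :
    ∀ j, i ≤ j → j ≤ R → zs (G i) ⊆ zs (G j) := by
  intro j hij
  induction j, hij using Nat.le_induction with
  | base => intro _; exact le_rfl
  | succ j _ ih => intro hj; exact (ih (by omega)).trans (h.zs_mono (by omega))

/-- The chain cut out by a sequence of constraints. -/
noncomputable def cut (X : ℕ → Submodule ℚ (Alg d)) : ℕ → Submodule ℚ (Alg d)
  | 0 => 1
  | j + 1 => X (j + 1) ⊓ (cut X j * Lam d)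

lemma cut_isCh (R : ℕ) (X : ℕ → Submodule ℚ (Alg d)) : IsCh R (cut X) :=
  ⟨rfl, fun _ _ => inf_le_right⟩

lemma cut_agree {R : ℕ} {G X : ℕ → Submodule ℚ (Alg d)} (h : IsCh R G) :
    ∀ j ≤ R, (∀ i ≤ j, X i = G i) → cut X j = G j := by
  intro j
  induction j with
  | zero => intro _ _; exact h.1.symm
  | succ j ih =>
    intro hj hX
    rw [cut, ih (by omega) (fun i hi => hX i (by omega)), hX _ le_rfl]
    exact inf_eq_left.mpr (h.2 j (by omega))

/-- Extensions of a chain above level `l` vanishing on `K`. -/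
def IsExt (R l : ℕ) (G : ℕ → Submodule ℚ (Alg d)) (K : Finset (Cube d))
    (H : ℕ → Submodule ℚ (Alg d)) : Prop :=
  IsCh R H ∧ (∀ j ≤ l, H j = G j) ∧ K ⊆ zs (H R)

/-- Weighted codimension. -/
noncomputable def cost (w : ℕ → ℕ) (R l : ℕ) (H : ℕ → Submodule ℚ (Alg d)) : ℕ :=
  ∑ j ∈ Ico l R, w (j + 1) * (fr (H j * Lam d) - fr (H (j + 1)))

lemma exists_cheap_ext (w : ℕ → ℕ) {R l : ℕ} (hw : w R = 1) (hl : l < R)
    {G : ℕ → Submodule ℚ (Alg d)} (hG : IsCh R G) (K : Finset (Cube d)) :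
    ∃ H, IsExt R l G K H ∧ cost w R l H ≤ (R + 1) * K.card := by
  let X : ℕ → Submodule ℚ (Alg d) := fun j =>
    if j ≤ l then G j else if j < R then ⊤ else LinearMap.ker (res K)
  have hch := cut_isCh R X
  obtain ⟨R', rfl⟩ : ∃ R', R = R' + 1 := ⟨R - 1, by omega⟩
  have hXR : X (R' + 1) = LinearMap.ker (res K) := by
    simp only [X]; rw [if_neg (by omega), if_neg (by omega)]
  refine ⟨cut X, ⟨hch, ?_, ?_⟩, ?_⟩
  · intro j hj
    apply cut_agree hG j (by omega)
    intro i hi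
    simp only [X]; rw [if_pos (by omega)]
  · intro x hx
    rw [mem_zs]
    intro P hP
    rw [cut, hXR] at hP
    exact mem_ker_res.mp hP.1 x hx
  · unfold cost
    rw [Finset.sum_Ico_succ_top (by omega), Finset.sum_eq_zero, zero_add, hw, one_mul]
    · have hle : cut X R' * Lam d ≤ Lam d ^ (R' + 1) := by
        rw [pow_succ]; exact mul_le_mul_left (hch.le_pow R' (by omega)) _
      have h1 := rank_null (res K) (fg_le (Lam_pow_fg _) hle)
      have h2 := fr_res_le hle K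
      rw [cut, hXR, inf_comm]
      omega
    · intro j hj
      rw [Finset.mem_Ico] at hj
      have : X (j + 1) = ⊤ := by
        simp only [X]; rw [if_neg (by omega), if_pos (by omega)]
      rw [cut, this, top_inf_eq, Nat.sub_self, mul_zero]

lemma exists_span_ext (w : ℕ → ℕ) {R l : ℕ} (hl : l < R)
    {G : ℕ → Submodule ℚ (Alg d)} (K : Finset (Cube d)) {H : ℕ → Submodule ℚ (Alg d)}
    (hH : IsExt R l G K H) :
    ∃ H', IsExt R l G K H' ∧ cost w R l H' ≤ cost w R l H ∧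
      ∀ j, l < j → ∀ x ∈ zs (H' j), x ∉ zs (G l) → InSpan K x := by
  let LK : Submodule ℚ (Alg d) := Lam d ⊓ LinearMap.ker (res K)
  let E : ℕ → Submodule ℚ (Alg d) := fun j =>
    if j ≤ l then ⊥ else G l * LK * Lam d ^ (j - (l + 1))
  have hGl : H l = G l := hH.2.1 l le_rfl
  have hGfg : (G l).FG := hGl ▸ hH.1.fg hl.le
  have hEfg : ∀ j, (E j).FG := by
    intro j
    simp only [E]
    split_ifs
    · exact Submodule.fg_bot
    · exact (hGfg.mul (fg_le Lam_fg inf_le_left)).mul (Lam_pow_fg _)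
  have hE0 : ∀ j ≤ l, E j = ⊥ := fun j hj => by simp only [E]; rw [if_pos hj]
  have hmul : ∀ j, l ≤ j → (H j ⊔ E j) * Lam d = H j * Lam d ⊔ E (j + 1) := by
    intro j hj
    rcases hj.eq_or_lt with rfl | hj
    · rw [hE0 _ le_rfl, sup_bot_eq]
      symm
      apply sup_eq_left.mpr
      simp only [E]
      rw [if_neg (by omega), Nat.sub_self, pow_zero, mul_one, hGl]
      exact mul_le_mul_right inf_le_left _
    · rw [Submodule.sup_mul]
      congr 1
      simp only [E]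
      rw [if_neg (by omega), if_neg (by omega), mul_assoc _ _ (Lam d), ← pow_succ]
      congr 2
      omega
  refine ⟨fun j => H j ⊔ E j, ⟨⟨?_, ?_⟩, ?_, ?_⟩, ?_, ?_⟩
  · show H 0 ⊔ E 0 = 1
    rw [hE0 0 (by omega), sup_bot_eq, hH.1.1]
  · intro j hj
    show H (j + 1) ⊔ E (j + 1) ≤ (H j ⊔ E j) * Lam d
    by_cases hjl : l ≤ j
    · rw [hmul j hjl]
      exact sup_le_sup_right (hH.1.2 j hj) _
    · rw [hE0 (j + 1) (by omega), hE0 j (by omega), sup_bot_eq, sup_bot_eq]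
      exact hH.1.2 j hj
  · intro j hj
    show H j ⊔ E j = G j
    rw [hE0 j hj, sup_bot_eq, hH.2.1 j hj]
  · intro x hx
    rw [mem_zs]
    intro P hP
    obtain ⟨a, ha, b, hb, rfl⟩ := Submodule.mem_sup.mp hP
    have h1 : a x = 0 := mem_zs.mp (hH.2.2 hx) a ha
    have h2 : x ∈ zs LK := mem_zs.mpr fun Q hQ => mem_ker_res.mp hQ.2 x hx
    have h3 : x ∈ zs (E R) := by
      simp only [E]
      rw [if_neg (by omega), mul_comm (G l) LK]
      exact zs_mul _ _ (zs_mul _ _ h2)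
    simp [h1, mem_zs.mp h3 b hb]
  · unfold cost
    apply Finset.sum_le_sum
    intro j hj
    rw [Finset.mem_Ico] at hj
    apply Nat.mul_le_mul_left
    show fr ((H j ⊔ E j) * Lam d) - fr (H (j + 1) ⊔ E (j + 1)) ≤ _
    rw [hmul j hj.1]
    have := codim_sup ((hH.1.fg hj.2.le).mul Lam_fg) (hEfg (j + 1)) (hH.1.2 j hj.2)
    have h2 := fr_mono ((hH.1.fg hj.2.le).mul Lam_fg) (hH.1.2 j hj.2)
    omega
  · intro j hj x hx hxG s
    have h1 : G l * LK ≤ H j ⊔ E j := by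
      refine le_trans ?_ le_sup_right
      simp only [E]
      rw [if_neg (by omega)]
      intro P hP
      have h1 : (1 : Alg d) ∈ Lam d ^ (j - (l + 1)) := by
        simpa using Submodule.pow_mem_pow (Lam d) (one_mem_Lam (d := d)) (j - (l + 1))
      simpa using Submodule.mul_mem_mul hP h1
    have h2 := zs_anti h1 hx
    rw [mem_zs] at hxG
    push Not at hxG
    obtain ⟨P, hP, hPx⟩ := hxG
    by_contra hcon
    push Not at hcon
    have h3 : eta s (x s) ∈ LK := ⟨eta_mem_Lam _ _, mem_ker_res.mpr fun y hy => by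
      simp [eta, hcon y hy]⟩
    have h4 := mem_zs.mp h2 _ (Submodule.mul_mem_mul hP h3)
    have h5 : P x * lin s = 0 := by simpa [eta] using h4
    rcases mul_eq_zero.mp h5 with h | h
    · exact hPx h
    · exact lin_ne s h

lemma two_term_le (s : Finset ℕ) (f g : ℕ → ℕ) (a b : ℕ) (ha : a ∈ s) (hb : b ∈ s) (hab : a ≠ b)
    (h : ∑ j ∈ s, f j ≤ ∑ j ∈ s, g j) (hr : ∀ j ∈ s, j ≠ a → j ≠ b → g j ≤ f j) :
    f a + f b ≤ g a + g b := by
  have hb' : b ∈ s.erase a := Finset.mem_erase.mpr ⟨hab.symm, hb⟩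
  rw [← Finset.add_sum_erase s f ha, ← Finset.add_sum_erase s g ha,
    ← Finset.add_sum_erase _ f hb', ← Finset.add_sum_erase _ g hb'] at h
  have : ∑ j ∈ (s.erase a).erase b, g j ≤ ∑ j ∈ (s.erase a).erase b, f j := by
    apply Finset.sum_le_sum
    intro j hj
    rw [Finset.mem_erase, Finset.mem_erase] at hj
    exact hr j hj.2.2 hj.2.1 hj.1
  omega

lemma min_of_opt (w : ℕ → ℕ) {R l : ℕ} {G : ℕ → Submodule ℚ (Alg d)} {K : Finset (Cube d)}
    {H : ℕ → Submodule ℚ (Alg d)} (hH : IsExt R l G K H)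
    (hopt : ∀ H', IsExt R l G K H' → cost w R l H ≤ cost w R l H')
    {i κ : ℕ} (hli : l ≤ i) (hi : i + 1 < R) (hκ : w (i + 1) = κ * w (i + 2)) (hw : 0 < w (i + 2))
    (Y : Finset (Cube d)) (hY : Y ⊆ zs (H (i + 2))) :
    ∀ U' ≤ (H (i + 1)).map (res Y),
      fr ((H (i + 1)).map (res Y) * Lam d) + κ * fr U' ≤
        fr (U' * Lam d) + κ * fr ((H (i + 1)).map (res Y)) := by
  intro U' hU'
  set A : Submodule ℚ (Alg d) := H (i + 1) ⊓ U'.comap (res Y) with hA
  let X : ℕ → Submodule ℚ (Alg d) := fun j => if j = i + 1 then A else H j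
  have hch := cut_isCh R X
  have hlow : ∀ j ≤ i, cut X j = H j := fun j hj =>
    cut_agree hH.1 j (by omega) (fun k hk => by simp only [X]; rw [if_neg (by omega)])
  have hAle : A ≤ H (i + 1) := inf_le_left
  have hmid : cut X (i + 1) = A := by
    rw [cut, hlow i le_rfl]
    simp only [X, if_true]
    exact inf_eq_left.mpr (hAle.trans (hH.1.2 i (by omega)))
  have hup : ∀ j, j ≠ i → cut X (j + 1) = H (j + 1) ⊓ (cut X j * Lam d) := by
    intro j hj
    rw [cut]
    simp only [X]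
    rw [if_neg (by omega)]
  have hle : ∀ j, cut X j ≤ H j := by
    intro j
    rcases j with _ | j
    · exact (hlow 0 (by omega)).le
    · by_cases hj : j = i
      · rw [hj, hmid]; exact hAle
      · rw [hup j hj]; exact inf_le_left
  have hext : IsExt R l G K (cut X) :=
    ⟨hch, fun j hj => (hlow j (by omega)).trans (hH.2.1 j hj), hH.2.2.trans (zs_anti (hle R))⟩
  have h2 := two_term_le (Ico l R) _ _ i (i + 1) (Finset.mem_Ico.mpr ⟨hli, by omega⟩)
    (Finset.mem_Ico.mpr ⟨by omega, hi⟩) (by omega) (hopt _ hext) (by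
      intro j hj hji _
      rw [Finset.mem_Ico] at hj
      apply Nat.mul_le_mul_left
      rw [hup j hji]
      have h1 := codim_inf ((hH.1.fg hj.2.le).mul Lam_fg) (hH.1.2 j hj.2)
        (mul_le_mul_left (hle j) (Lam d))
      have h2 := fr_mono ((hH.1.fg hj.2.le).mul Lam_fg) (hH.1.2 j hj.2)
      omega)
  rw [hup (i + 1) (by omega), hmid, hlow i le_rfl] at h2
  have hfg1 : (H (i + 1)).FG := hH.1.fg (by omega)
  have hAfg : A.FG := fg_le hfg1 hAle
  have hAmap : A.map (res Y) = U' := by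
    apply le_antisymm
    · rintro _ ⟨P, hP, rfl⟩; exact hP.2
    · intro Q hQ
      obtain ⟨P, hP, rfl⟩ := hU' hQ
      exact ⟨P, ⟨hP, hQ⟩, rfl⟩
  have h3 : fr (H (i + 1)) + fr U' ≤ fr A + fr ((H (i + 1)).map (res Y)) := by
    have a1 := rank_null (res Y) hfg1
    have a2 := rank_null (res Y) hAfg
    have a3 : fr (H (i + 1) ⊓ LinearMap.ker (res Y)) ≤ fr (A ⊓ LinearMap.ker (res Y)) := by
      apply fr_mono (fg_le hAfg inf_le_left)
      intro P hP
      refine ⟨⟨hP.1, ?_⟩, hP.2⟩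
      have : res Y P = 0 := hP.2
      show res Y P ∈ U'
      rw [this]; exact U'.zero_mem
    rw [hAmap] at a2
    omega
  have h4 := codim_gain (res Y) (hfg1.mul Lam_fg) (hH.1.2 (i + 1) hi)
    (fun P hP => mem_ker_res.mpr fun x hx => mem_zs.mp (hY hx) P hP)
    (mul_le_mul_left hAle (Lam d))
  rw [map_res_mul, map_res_mul, hAmap] at h4
  have h5 := fr_mono ((hH.1.fg (by omega : i ≤ R)).mul Lam_fg) (hH.1.2 i (by omega))
  have h6 := fr_mono (hfg1.mul Lam_fg) (hH.1.2 (i + 1) hi)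
  have h7 := fr_mono hfg1 hAle
  have h8 : fr (H (i + 1 + 1) ⊓ A * Lam d) ≤ fr (A * Lam d) :=
    fr_mono (hAfg.mul Lam_fg) inf_le_right
  rw [hκ] at h2
  obtain ⟨x1, hx1⟩ := Nat.exists_eq_add_of_le h5
  obtain ⟨x2, hx2⟩ := Nat.exists_eq_add_of_le h6
  obtain ⟨x3, hx3⟩ := Nat.exists_eq_add_of_le h7
  obtain ⟨x4, hx4⟩ := Nat.exists_eq_add_of_le h8
  have e1 : fr (H i * Lam d) - fr (H (i + 1)) = x1 := by omega
  have e2 : fr (H (i + 1) * Lam d) - fr (H (i + 1 + 1)) = x2 := by omega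
  have e3 : fr (H i * Lam d) - fr A = x1 + x3 := by omega
  have e4 : fr (A * Lam d) - fr (H (i + 1 + 1) ⊓ A * Lam d) = x4 := by omega
  rw [e1, e2, e3, e4] at h2
  have h9 : w (i + 2) * x2 ≤ w (i + 2) * (κ * x3 + x4) := by
    have : i + 1 + 1 = i + 2 := rfl
    rw [this] at h2
    nlinarith
  have h10 := Nat.le_of_mul_le_mul_left h9 hw
  have h11 : κ * (x3 + fr U') ≤ κ * fr ((H (i + 1)).map (res Y)) :=
    Nat.mul_le_mul_left _ (by omega)
  rw [mul_add] at h11
  omega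

/-- The specification of a core chain. -/
def CoreSpec (R l : ℕ) (Lb : ℕ → ℕ) (G : ℕ → Submodule ℚ (Alg d)) (K : Finset (Cube d))
    (H : ℕ → Submodule ℚ (Alg d)) : Prop :=
  IsExt R l G K H ∧ ∀ j, l ≤ j → j < R →
    (∀ x ∈ zs (H (j + 1)) \ zs (H j), InSpan K x) ∧
      (zs (H (j + 1)) \ zs (H j)).card ≤ 2 ^ Lb (j + 1)

theorem core_exists (w κ Lb : ℕ → ℕ) {R l : ℕ} (hwR : w R = 1) (hwpos : ∀ j, 0 < w j)
    (hκ : ∀ j < R, w j = κ j * w (j + 1)) (hLb : ∀ j < R, κ j ≤ Lb (j + 1))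
    (hstar : ∀ j < R, ∀ U : Submodule ℚ (Alg d), U.FG → fr U ≤ (2 * d + 1) ^ R →
      (∀ U' ≤ U, fr (U * Lam d) + κ j * fr U' ≤ fr (U' * Lam d) + κ j * fr U) →
      (univ \ zs U).card ≤ 2 ^ Lb (j + 1))
    (hl : l < R) {G : ℕ → Submodule ℚ (Alg d)} (hG : IsCh R G) (K : Finset (Cube d))
    (hK : (R + 1) * K.card < w l) : ∃ H, CoreSpec R l Lb G K H := by
  obtain ⟨H₀, hH₀, hc₀⟩ := exists_cheap_ext w hwR hl hG K
  obtain ⟨H₁, hH₁, hmin₁⟩ := (measure (cost w R l)).wf.has_min {H | IsExt R l G K H} ⟨H₀, hH₀⟩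
  obtain ⟨H, hH, hc, hspan⟩ := exists_span_ext w hl K hH₁
  have hopt : ∀ H', IsExt R l G K H' → cost w R l H ≤ cost w R l H' := fun H' hH' =>
    hc.trans (not_lt.mp (hmin₁ H' hH'))
  refine ⟨H, hH, fun j hlj hjR => ⟨?_, ?_⟩⟩
  · intro x hx
    rw [Finset.mem_sdiff] at hx
    apply hspan (j + 1) (by omega) x hx.1
    rw [← hH.2.1 l le_rfl]
    exact fun h => hx.2 (hH.1.zs_mono' j hlj hjR.le h)
  · set Y := zs (H (j + 1)) \ zs (H j) with hY
    have hfg : (H j).FG := hH.1.fg hjR.le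
    rcases hlj.eq_or_lt with rfl | hlj'
    · refine le_trans (card_le_two_pow hfg (κ l) Y (fun x hx => (Finset.mem_sdiff.mp hx).2) ?_)
        (Nat.pow_le_pow_right (by norm_num) (hLb l hl))
      have h1 : w (l + 1) * (fr (H l * Lam d) - fr (H (l + 1))) ≤ cost w R l H :=
        Finset.single_le_sum (f := fun j => w (j + 1) * (fr (H j * Lam d) - fr (H (j + 1))))
          (fun _ _ => Nat.zero_le _) (Finset.mem_Ico.mpr ⟨le_rfl, hl⟩)
      have h2 := hopt H₀ hH₀
      have h3 : w (l + 1) * (fr (H l * Lam d) - fr (H (l + 1))) ≤ w (l + 1) * κ l := by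
        rw [hκ l hl, mul_comm (κ l)] at hK; omega
      have h4 := Nat.le_of_mul_le_mul_left h3 (hwpos _)
      have h5 := codim_map (res Y) (hfg.mul Lam_fg) (hH.1.2 l hl)
      have h6 : (H (l + 1)).map (res Y) = ⊥ := by
        apply (LinearMap.le_ker_iff_map).mp
        intro P hP
        exact mem_ker_res.mpr fun x hx => mem_zs.mp (Finset.mem_sdiff.mp hx).1 P hP
      rw [h6] at h5
      simp only [fr, finrank_bot] at h4 h5 ⊢
      omega
    · obtain ⟨i, rfl⟩ : ∃ i, j = i + 1 := ⟨j - 1, by omega⟩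
      have h1 := min_of_opt w hH hopt (by omega : l ≤ i) hjR (hκ (i + 1) hjR) (hwpos _) Y
        Finset.sdiff_subset
      refine le_trans (Finset.card_le_card ?_) (hstar (i + 1) hjR _ (hfg.map _) ?_ h1)
      · intro x hx
        rw [Finset.mem_sdiff]
        refine ⟨Finset.mem_univ _, fun h => (Finset.mem_sdiff.mp hx).2 ?_⟩
        rw [mem_zs] at h ⊢
        intro P hP
        have := h _ (Submodule.mem_map_of_mem hP)
        rwa [res_apply, if_pos hx] at this
      · have a1 := rank_null (res Y) hfg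
        have a2 := fr_mono (Lam_pow_fg _) (hH.1.le_pow (i + 1) hjR.le)
        have a3 := fr_Lam_pow (d := d) (i + 1)
        have a4 : (2 * d + 1) ^ (i + 1) ≤ (2 * d + 1) ^ R :=
          Nat.pow_le_pow_right (by omega) hjR.le
        omega

/-- The system of nested closed sets attached to stacks of groups. -/
structure ZSys (d R : ℕ) (lev Lb : ℕ → ℕ) where
  Z : List (Finset (Cube d)) → ℕ → Finset (Cube d)
  closed : ∀ c, Closed (R + 1) (Z c R)
  nil : ∀ j, Z [] j = ∅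
  zero : ∀ c, Z c 0 = ∅
  mono : ∀ c i j, i ≤ j → j ≤ R → Z c i ⊆ Z c j
  agree : ∀ K c j, j < lev K.card → Z (K :: c) j = Z c j
  cover : ∀ K c, K.Nonempty → 1 ≤ lev K.card → K ⊆ Z (K :: c) R
  span : ∀ K c j, K.Nonempty → 1 ≤ lev K.card → lev K.card ≤ j → j ≤ R →
    ∀ x ∈ Z (K :: c) j \ Z (K :: c) (j - 1), InSpan K x
  light : ∀ K c j, K.Nonempty → 1 ≤ lev K.card → lev K.card ≤ j → j ≤ R →
    (Z (K :: c) j \ Z (K :: c) (j - 1)).card ≤ 2 ^ Lb j

/-- The chain attached to a stack. -/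
noncomputable def chain (R : ℕ) (lev Lb : ℕ → ℕ) :
    List (Finset (Cube d)) → ℕ → Submodule ℚ (Alg d)
  | [] => fun j => Lam d ^ j
  | K :: c =>
    if h : ∃ H, CoreSpec R (lev K.card - 1) Lb (chain R lev Lb c) K H then choose h
    else chain R lev Lb c

lemma chain_isCh (R : ℕ) (lev Lb : ℕ → ℕ) (c : List (Finset (Cube d))) :
    IsCh R (chain R lev Lb c) := by
  induction c with
  | nil => exact ⟨pow_zero _, fun j _ => (pow_succ _ _).le⟩
  | cons K c ih =>
    rw [chain]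
    split_ifs with h
    · exact (choose_spec h).1.1
    · exact ih

theorem zsys_exists (w κ Lb lev : ℕ → ℕ) {R : ℕ} (hwR : w R = 1) (hwpos : ∀ j, 0 < w j)
    (hκ : ∀ j < R, w j = κ j * w (j + 1)) (hLb : ∀ j < R, κ j ≤ Lb (j + 1))
    (hstar : ∀ j < R, ∀ U : Submodule ℚ (Alg d), U.FG → fr U ≤ (2 * d + 1) ^ R →
      (∀ U' ≤ U, fr (U * Lam d) + κ j * fr U' ≤ fr (U' * Lam d) + κ j * fr U) →
      (univ \ zs U).card ≤ 2 ^ Lb (j + 1))
    (hlev : ∀ k j, 1 ≤ k → (lev k ≤ j ↔ w j ≤ (R + 1) * k)) :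
    Nonempty (ZSys d R lev Lb) := by
  have hspec : ∀ (K : Finset (Cube d)) c, K.Nonempty → 1 ≤ lev K.card →
      CoreSpec R (lev K.card - 1) Lb (chain R lev Lb c) K (chain R lev Lb (K :: c)) := by
    intro K c hK h1
    have hk : 1 ≤ K.card := hK.card_pos
    have h2 : lev K.card ≤ R := (hlev _ _ hk).mpr (by rw [hwR]; nlinarith)
    have h3 : (R + 1) * K.card < w (lev K.card - 1) := by
      by_contra h
      have := (hlev _ (lev K.card - 1) hk).mpr (by omega)
      omega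
    have hex := core_exists w κ Lb hwR hwpos hκ hLb hstar (by omega : lev K.card - 1 < R)
      (chain_isCh R lev Lb c) K h3
    rw [chain, dif_pos hex]
    exact choose_spec hex
  refine ⟨⟨fun c j => zs (chain R lev Lb c j), ?_, ?_, ?_, ?_, ?_, ?_, ?_, ?_⟩⟩
  · intro c
    exact zs_closed ((chain_isCh R lev Lb c).le_pow R le_rfl)
  · intro j
    exact zs_pow j
  · intro c
    rw [(chain_isCh R lev Lb c).1]
    simpa using zs_pow (d := d) 0
  · intro c i j hij hj
    exact (chain_isCh R lev Lb c).zs_mono' j hij hj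
  · intro K c j hj
    rw [chain]
    split_ifs with h
    · rw [(choose_spec h).1.2.1 j (by omega)]
    · rfl
  · intro K c hK h1
    exact (hspec K c hK h1).1.2.2
  · intro K c j hK h1 h2 h3
    obtain ⟨i, rfl⟩ : ∃ i, j = i + 1 := ⟨j - 1, by omega⟩
    exact ((hspec K c hK h1).2 i (by omega) (by omega)).1
  · intro K c j hK h1 h2 h3
    obtain ⟨i, rfl⟩ : ∃ i, j = i + 1 := ⟨j - 1, by omega⟩
    exact ((hspec K c hK h1).2 i (by omega) (by omega)).2

end Pool.Agent.BBM
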