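import Pool.Agent.P.MP_3a7cda_pr.H21.Lower

set_option autoImplicit false
open Classical Finset

namespace Pool.Agent.BBM

lemma le_root {a d m : ℕ} (hm : m ≠ 0) (h : a ^ m ≤ d) : (a : ℝ) ≤ (d : ℝ) ^ ((1 : ℝ) / m) := by
  have h1 : ((a : ℝ) ^ m) ^ ((1 : ℝ) / m) ≤ (d : ℝ) ^ ((1 : ℝ) / m) :=
    Real.rpow_le_rpow (by positivity) (by exact_mod_cast h) (by positivity)
  rwa [one_div, Real.pow_rpow_inv_natCast (Nat.cast_nonneg _) hm, ← one_div] at h1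

lemma root_le {a d m : ℕ} (hm : m ≠ 0) (h : d ≤ a ^ m) : (d : ℝ) ^ ((1 : ℝ) / m) ≤ a := by
  have h1 : (d : ℝ) ^ ((1 : ℝ) / m) ≤ ((a : ℝ) ^ m) ^ ((1 : ℝ) / m) :=
    Real.rpow_le_rpow (by positivity) (by exact_mod_cast h) (by positivity)
  rwa [one_div, Real.pow_rpow_inv_natCast (Nat.cast_nonneg _) hm, ← one_div] at h1

lemma upper_final (R d : ℕ) (hd : 140 ^ 2 ^ R ≤ d) {p : ℝ} (h0 : 0 ≤ p) (h1 : p ≤ 1)
    (h : fP p (R + 1) d = 1 / 2) :
    p ≤ Real.exp (-(1 / 560 * (d : ℝ) ^ ((1 : ℝ) / (2 ^ R : ℕ)))) := by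
  by_contra hcon
  push Not at hcon
  have hm : 2 ^ R ≠ 0 := by positivity
  have hex : ∃ L : ℕ, d < (140 * (L + 1)) ^ 2 ^ R :=
    ⟨d, lt_of_lt_of_le (by omega) (Nat.le_self_pow hm _)⟩
  have hL := Nat.find_spec hex
  set L := Nat.find hex with hLdef
  have hL1 : 1 ≤ L := by
    by_contra h'
    have : L = 0 := by omega
    rw [this] at hL
    simp at hL
    omega
  have hL2 : (140 * L) ^ 2 ^ R ≤ d := by
    have := Nat.find_min hex (by omega : L - 1 < L)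
    rw [Nat.sub_add_cancel hL1] at this
    omega
  have h2 := root_le hm hL.le
  have h3 : (1 / 2 : ℝ) ^ L ≤ p := by
    refine le_trans ?_ hcon.le
    have a1 : (1 / 2 : ℝ) ≤ Real.exp (-(1 / 2)) := by
      have := Real.add_one_le_exp (-(1 / 2) : ℝ)
      linarith
    refine (pow_le_pow_left₀ (by norm_num) a1 L).trans ?_
    rw [← Real.exp_nat_mul]
    apply Real.exp_le_exp.mpr
    have a2 : (1 : ℝ) ≤ L := by exact_mod_cast hL1
    push_cast at h2 ⊢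
    linarith
  have := upper_bound h0 h1 L hL1 h3 R d hL2
  linarith

lemma pow_le_two_pow (E : ℕ) : ∃ q₀ : ℕ, ∀ q, q₀ ≤ q → q ^ E ≤ 2 ^ q := by
  have h := tendsto_pow_const_div_const_pow_of_one_lt E (r := 2) (by norm_num)
  have h2 := h.eventually (gt_mem_nhds (by norm_num : (0 : ℝ) < 1))
  obtain ⟨q₀, hq⟩ := Filter.eventually_atTop.mp h2
  refine ⟨q₀, fun q hq' => ?_⟩
  have := hq q hq'
  rw [div_lt_one (by positivity)] at this
  exact_mod_cast this.le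

lemma exp_le_half (x : ℝ) (n : ℕ) (h : (n : ℝ) ≤ x) : Real.exp (-x) ≤ (1 / 2) ^ n := by
  have a1 : Real.exp (-1) ≤ 1 / 2 := by
    rw [Real.exp_neg, one_div]
    apply inv_anti₀ (by norm_num)
    have := Real.add_one_le_exp (1 : ℝ)
    linarith
  refine le_trans ?_ (pow_le_pow_left₀ (Real.exp_pos _).le a1 n)
  rw [← Real.exp_nat_mul]
  apply Real.exp_le_exp.mpr
  linarith

lemma lower_final (R : ℕ) : ∃ C : ℝ, 0 < C ∧ ∃ d₀ : ℕ, ∀ d, d₀ ≤ d → ∀ p : ℝ, 0 ≤ p → p ≤ 1 →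
    fP p (R + 1) d = 1 / 2 → Real.exp (-(C * (d : ℝ) ^ ((1 : ℝ) / (2 ^ R : ℕ)))) ≤ p := by
  rcases Nat.eq_zero_or_pos R with rfl | hR
  · refine ⟨2, by norm_num, 1, fun d hd p h0 h1 h => ?_⟩
    have h2 := lower_one h0 h1 d
    rw [zero_add] at h
    have h3 := exp_le_half (2 * (d : ℝ) ^ ((1 : ℝ) / (2 ^ 0 : ℕ))) (d + 1) (by
      have : (1 : ℝ) ≤ d := by exact_mod_cast hd
      simp
      linarith)
    refine h3.trans ?_
    have h4 : (1 / 2 : ℝ) ^ d * 2 ^ d = 1 := by rw [← mul_pow]; norm_num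
    have h5 : (0 : ℝ) < (1 / 2 : ℝ) ^ d := by positivity
    rw [pow_succ]
    nlinarith
  · obtain ⟨C, hC⟩ := lower_core R hR
    obtain ⟨q₀, hq₀⟩ := pow_le_two_pow ((3 * 2 ^ R + 2) * (R + 1))
    refine ⟨8 * C + 1, by positivity, (q₀ + (5 * R + 12)) ^ (3 * 2 ^ R) + 1,
      fun d hd p h0 h1 h => ?_⟩
    by_contra hcon
    push Not at hcon
    have hm : 3 * 2 ^ R ≠ 0 := by positivity
    have hex : ∃ q : ℕ, d ≤ q ^ (3 * 2 ^ R) := ⟨d, Nat.le_self_pow hm _⟩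
    have hq := Nat.find_spec hex
    set q := Nat.find hex with hqdef
    have hq1 : q₀ + (5 * R + 12) < q := by
      by_contra h'
      have := Nat.pow_le_pow_left (not_lt.mp h') (3 * 2 ^ R)
      omega
    have hq2 : ((q - 1) ^ 3) ^ 2 ^ R ≤ d := by
      have := Nat.find_min hex (by omega : q - 1 < q)
      rw [← pow_mul]
      omega
    have h2 := le_root (by positivity) hq2
    have h3 : q ^ 3 ≤ 8 * (q - 1) ^ 3 := by
      have : q ^ 3 ≤ (2 * (q - 1)) ^ 3 := Nat.pow_le_pow_left (by omega) 3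
      rw [mul_pow] at this
      exact this
    have h4 : ((q ^ 3 : ℕ) : ℝ) ≤ 8 * ((q - 1) ^ 3 : ℕ) := by exact_mod_cast h3
    have h5 := exp_le_half ((8 * C + 1) * (d : ℝ) ^ ((1 : ℝ) / (2 ^ R : ℕ))) (C * q ^ 3) (by
      have a1 : (0 : ℝ) ≤ C := Nat.cast_nonneg _
      have a2 : (0 : ℝ) ≤ ((q - 1) ^ 3 : ℕ) := Nat.cast_nonneg _
      rw [Nat.cast_mul]
      nlinarith)
    have h6 := hC q d (by omega) (hq₀ q (by omega)) (by omega) hq p h0 (hcon.le.trans h5)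
    linarith

end Pool.Agent.BBM
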