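import Pool.Agent.P.MP_3a7cda_pr.H21.Basic

set_option autoImplicit false
open Classical Finset

namespace Pool.Agent.BBM

variable {V : Type} [Fintype V]

/-- Admissible families of nodes. -/
structure Adm (P : Finset V → List (Finset V) → Prop) (F : Finset (List (Finset V))) : Prop where
  ne_nil : [] ∉ F
  valid : ∀ K c, K :: c ∈ F → P K c
  disj : ∀ K c K' c', K :: c ∈ F → K' :: c' ∈ F → K :: c ≠ K' :: c' → Disjoint K K'
  par : ∀ K c, K :: c ∈ F → c = [] ∨ c ∈ F

/-- Rank of a node. -/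
def rk (R : ℕ) (U : List (Finset V)) : ℕ := (R + 1) * (U.headD ∅).card + U.tail.length

lemma Adm.card_le {P : Finset V → List (Finset V) → Prop} (hne : ∀ K c, P K c → K.Nonempty)
    {F : Finset (List (Finset V))} (h : Adm P F) : F.card ≤ Fintype.card V := by
  have h1 : ∀ U ∈ F, ∃ x, x ∈ U.headD ∅ := by
    intro U hU
    rcases U with _ | ⟨K, c⟩
    · exact absurd hU h.ne_nil
    · exact hne K c (h.valid K c hU)
  choose f hf using h1
  rw [← Finset.card_attach, ← Finset.card_univ]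
  apply Finset.card_le_card_of_injOn (fun U => f U.1 U.2) (fun _ _ => Finset.mem_univ _)
  rintro ⟨U, hU⟩ _ ⟨U', hU'⟩ _ he
  apply Subtype.ext
  by_contra hne'
  have h2 := hf U hU
  have h3 := hf U' hU'
  simp only at he
  rw [← he] at h3
  rcases U with _ | ⟨K, c⟩
  · exact absurd hU h.ne_nil
  rcases U' with _ | ⟨K', c'⟩
  · exact absurd hU' h.ne_nil
  exact Finset.disjoint_left.mp (h.disj K c K' c' hU hU' hne') h2 h3

theorem exists_stable (R : ℕ) (P : Finset V → List (Finset V) → Prop)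
    (hne : ∀ K c, P K c → K.Nonempty) (hlen : ∀ K c, P K c → c.length ≤ R)
    (hpar : ∀ K K' c', P K (K' :: c') → P K' c' → K.card < K'.card) :
    ∃ F, Adm P F ∧ ∀ K c, P K c → (c = [] ∨ c ∈ F) →
      ∃ K' c', K' :: c' ∈ F ∧ ¬ Disjoint K K' ∧
        (R + 1) * K.card + c.length ≤ (R + 1) * K'.card + c'.length := by
  set B := Fintype.card V + 1 with hB
  let Φ : Finset (List (Finset V)) → ℕ := fun F => ∑ U ∈ F, B ^ rk R U
  have hbdd : BddAbove (Φ '' {F | Adm P F}) := by
    refine ⟨Fintype.card V * B ^ ((R + 1) * Fintype.card V + R), ?_⟩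
    rintro _ ⟨F, hF, rfl⟩
    calc Φ F ≤ F.card • B ^ ((R + 1) * Fintype.card V + R) := by
          apply Finset.sum_le_card_nsmul
          intro U hU
          apply Nat.pow_le_pow_right (by omega)
          rcases U with _ | ⟨K, c⟩
          · exact absurd hU hF.ne_nil
          · have h1 := hlen K c (hF.valid K c hU)
            have h2 := Nat.mul_le_mul_left (R + 1) (Finset.card_le_univ K)
            simp only [rk, List.headD_cons, List.tail_cons]
            omega
      _ ≤ _ := Nat.mul_le_mul_right _ (hF.card_le hne)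
  have hemp : Adm P ∅ := ⟨by simp, by simp, by simp, by simp⟩
  have hnon : (Φ '' {F | Adm P F}).Nonempty := ⟨_, ⟨∅, hemp, rfl⟩⟩
  obtain ⟨F, hF, hmax⟩ := Nat.sSup_mem hnon hbdd
  replace hF : Adm P F := hF
  refine ⟨F, hF, ?_⟩
  intro K c hP hc
  by_contra hcon
  push Not at hcon
  have hNF : K :: c ∉ F := by
    intro h
    have := hcon K c h (by
      rw [disjoint_self, Finset.bot_eq_empty]; exact (hne K c hP).ne_empty)
    omega
  set ρ := rk R (K :: c) with hρ
  have hρ' : ρ = (R + 1) * K.card + c.length := rfl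
  set F' := insert (K :: c) (F.filter (fun U => ρ ≤ rk R U)) with hF'
  have hmem : ∀ U, U ∈ F' ↔ U = K :: c ∨ (U ∈ F ∧ ρ ≤ rk R U) := by
    intro U; simp [hF']
  have hdis : ∀ K' c', K' :: c' ∈ F → ρ ≤ rk R (K' :: c') → Disjoint K K' := by
    intro K' c' h1 h2
    by_contra h3
    have := hcon K' c' h1 h3
    simp only [rk, List.headD_cons, List.tail_cons] at h2
    omega
  have hup : ∀ K₁ c₁, P K₁ c₁ → c₁ ∈ F → rk R (K₁ :: c₁) ≤ rk R c₁ := by
    intro K₁ c₁ h1 h2
    rcases c₁ with _ | ⟨K₂, c₂⟩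
    · exact absurd h2 hF.ne_nil
    · have h3 := hpar K₁ K₂ c₂ h1 (hF.valid _ _ h2)
      have h4 := hlen _ _ h1
      have h5 := Nat.mul_le_mul_left (R + 1) (Nat.succ_le_of_lt h3)
      simp only [rk, List.headD_cons, List.tail_cons]
      rw [Nat.succ_eq_add_one, mul_add] at h5
      omega
  have hadm : Adm P F' := by
    refine ⟨?_, ?_, ?_, ?_⟩
    · rw [hmem]
      rintro (h | h)
      · simp at h
      · exact hF.ne_nil h.1
    · intro K' c' h
      rcases (hmem _).mp h with h | h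
      · obtain ⟨rfl, rfl⟩ := List.cons.inj h
        exact hP
      · exact hF.valid _ _ h.1
    · intro K₁ c₁ K₂ c₂ h1 h2 hne'
      rcases (hmem _).mp h1 with h1 | h1 <;> rcases (hmem _).mp h2 with h2 | h2
      · exact absurd (h1.trans h2.symm) hne'
      · obtain ⟨rfl, rfl⟩ := List.cons.inj h1
        exact hdis _ _ h2.1 h2.2
      · obtain ⟨rfl, rfl⟩ := List.cons.inj h2
        exact (hdis _ _ h1.1 h1.2).symm
      · exact hF.disj _ _ _ _ h1.1 h2.1 hne'
    · intro K₁ c₁ h
      rcases (hmem _).mp h with h | h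
      · obtain ⟨rfl, rfl⟩ := List.cons.inj h
        rcases hc with hc | hc
        · exact Or.inl hc
        · exact Or.inr ((hmem _).mpr (Or.inr ⟨hc, hup _ _ hP hc⟩))
      · rcases hF.par _ _ h.1 with hc | hc
        · exact Or.inl hc
        · exact Or.inr ((hmem _).mpr (Or.inr ⟨hc, h.2.trans (hup _ _ (hF.valid _ _ h.1) hc)⟩))
  have hle : Φ F' ≤ Φ F := by
    rw [hmax]; exact le_csSup hbdd ⟨F', hadm, rfl⟩
  have h1 : Φ F' = B ^ ρ + ∑ U ∈ F.filter (fun U => ρ ≤ rk R U), B ^ rk R U := by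
    simp only [Φ, hF']
    rw [Finset.sum_insert (fun h => hNF (Finset.mem_filter.mp h).1)]
  have h2 : Φ F = ∑ U ∈ F.filter (fun U => ρ ≤ rk R U), B ^ rk R U +
      ∑ U ∈ F.filter (fun U => ¬ ρ ≤ rk R U), B ^ rk R U :=
    (Finset.sum_filter_add_sum_filter_not _ _ _).symm
  have hρpos : 1 ≤ ρ := by
    have := (hne K c hP).card_pos
    rw [hρ']; nlinarith
  have h3 : ∑ U ∈ F.filter (fun U => ¬ ρ ≤ rk R U), B ^ rk R U ≤
      Fintype.card V * B ^ (ρ - 1) := by
    calc _ ≤ (F.filter (fun U => ¬ ρ ≤ rk R U)).card • B ^ (ρ - 1) := by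
          apply Finset.sum_le_card_nsmul
          intro U hU
          have := (Finset.mem_filter.mp hU).2
          exact Nat.pow_le_pow_right (by omega) (by omega)
      _ ≤ _ := Nat.mul_le_mul_right _ ((Finset.card_filter_le _ _).trans (hF.card_le hne))
  have h4 : B ^ ρ = B * B ^ (ρ - 1) := by
    rw [← pow_succ']; congr 1; omega
  have h5 : 0 < B ^ (ρ - 1) := by positivity
  rw [h4, hB, add_mul] at h1
  rw [← hB] at h1
  omega

end Pool.Agent.BBM
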