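import Pool.Agent.P.MP_3a7cda_pr.H21.Absorb
import Pool.Agent.P.MP_3a7cda_pr.H21.Stable

set_option autoImplicit false
open Classical Finset

namespace Pool.Agent.BBM

/-- The numerical requirements on budgets. -/
structure Nums (R q : ℕ) (lev Lb β D : ℕ → ℕ) : Prop where
  lev_anti : ∀ k k', 1 ≤ k → k ≤ k' → lev k' ≤ lev k
  lev_le : ∀ k, 1 ≤ k → lev k ≤ R
  lev_one : 1 ≤ lev 1
  beta_one : 2 ≤ β 1
  D_anti : ∀ i j, i ≤ j → D j ≤ D i
  paid : ∀ k₁ k₂ j i, 1 ≤ k₁ → 1 ≤ lev k₁ → 1 ≤ k₂ → k₂ ≤ 2 * (R + 1) * k₁ →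
    lev k₁ ≤ j → lev k₂ ≤ j → j ≤ R → lev k₁ ≤ i → lev k₂ ≤ i → i ≤ R →
    β k₁ + β k₂ + (R + 1) * D j + Lb i + 2 * q * k₂ + (5 * R + 12) ≤ β (k₁ + k₂)
  unpaid : ∀ k₁ k₂ j i, 1 ≤ k₁ → 1 ≤ lev k₁ → 1 ≤ k₂ → k₂ ≤ 2 * (R + 1) * k₁ →
    lev k₁ ≤ j → lev k₂ ≤ j → j ≤ R → lev k₁ ≤ i → i ≤ R →
    β k₁ + β k₂ + (R + 1) * D j + Lb i + 2 * q * k₂ + (5 * R + 12) ≤ β (k₁ + k₂) + D (lev k₁)

variable {d R q : ℕ} {lev Lb : ℕ → ℕ} (ZS : ZSys d R lev Lb) (hd : d ≤ 2 ^ q) (β D : ℕ → ℕ)
  (A : Finset (Cube d))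

/-- Valid nodes. -/
structure VNode (K : Finset (Cube d)) (c : Stk d) : Prop where
  ne : K.Nonempty
  sub : K ⊆ A
  lev1 : 1 ≤ lev K.card
  tight : Tight K
  len : c.length < lev K.card
  ch : Ch ZS hd c c K (β K.card + c.length * D (lev K.card))
  att : ∀ K' c', c = K' :: c' → ∃ i, lev K'.card ≤ i ∧ i < lev K.card ∧ Att ZS c i K

/-- A large cheap group. -/
def Bad1 : Prop := ∃ v K, K ⊆ A ∧ K.Nonempty ∧ lev K.card = 0 ∧
  (ZS.scheme q hd).Cheap ([], []) v K (β K.card)

/-- A cheap group near the point `x₀`. -/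
def Bad2 (x₀ : Cube d) : Prop := ∃ v K, K ⊆ A ∧ K.Nonempty ∧ hammingDist x₀ v ≤ 2 * K.card ∧
  (ZS.scheme q hd).Cheap ([], []) v K (β K.card + D (lev K.card))

/-- Stable forests. -/
structure Forest (F : Finset (Stk d)) : Prop extends Adm (VNode ZS hd β D A) F where
  stable : ∀ K c, VNode ZS hd β D A K c → (c = [] ∨ c ∈ F) →
    ∃ K' c', K' :: c' ∈ F ∧ ¬ Disjoint K K' ∧
      (R + 1) * K.card + c.length ≤ (R + 1) * K'.card + c'.length

variable {ZS hd β D A}

lemma Nums.lt_of_lev (N : Nums R q lev Lb β D) {k k' : ℕ} (hk : 1 ≤ k) (h : lev k < lev k') :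
    k' < k ∨ k' = 0 := by
  by_contra hc
  push Not at hc
  have := N.lev_anti k k' hk hc.1
  omega

lemma exists_forest (N : Nums R q lev Lb β D) : ∃ F, Forest ZS hd β D A F := by
  obtain ⟨F, hF, hs⟩ := exists_stable R (VNode ZS hd β D A) (fun K c h => h.ne)
    (fun K c h => by
      have := h.len
      have := N.lev_le _ h.ne.card_pos
      omega)
    (fun K K' c' h h' => by
      obtain ⟨i, h1, h2, _⟩ := h.att K' c' rfl
      have := h.ne.card_pos
      rcases N.lt_of_lev h'.ne.card_pos (h1.trans_lt h2) with h | h <;> omega)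
  exact ⟨F, hF, hs⟩

/-- `E` is a union of groups of the forest. -/
def Sat (F : Finset (Stk d)) (E : Finset (Cube d)) : Prop :=
  ∀ K c, K :: c ∈ F → ¬ Disjoint K E → K ⊆ E

/-- `E` avoids the groups of the stack. -/
def Free (c : Stk d) (E : Finset (Cube d)) : Prop := ∀ K' c', K' :: c' <:+ c → Disjoint K' E

namespace Forest
variable {F : Finset (Stk d)} (hF : Forest ZS hd β D A F) (N : Nums R q lev Lb β D)
include hF

lemma suffix_mem : ∀ U : Stk d, (U = [] ∨ U ∈ F) → ∀ K c, K :: c <:+ U → K :: c ∈ F := by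
  intro U
  induction U with
  | nil => intro _ K c h; simp at h
  | cons K₀ c₀ ih =>
    intro hU K c h
    have hU' : K₀ :: c₀ ∈ F := hU.resolve_left (by simp)
    rcases List.suffix_cons_iff.mp h with h | h
    · rw [h]; exact hU'
    · exact ih (hF.par _ _ hU') K c h

lemma lev_lt : ∀ (c : Stk d) (K : Finset (Cube d)), K :: c ∈ F → ∀ K' c', K' :: c' <:+ c →
    lev K'.card < lev K.card := by
  intro c
  induction c with
  | nil => intro K _ K' c' h; simp at h
  | cons K₀ c₀ ih =>
    intro K hK K' c' h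
    obtain ⟨i, h1, h2, _⟩ := (hF.valid _ _ hK).att K₀ c₀ rfl
    rcases List.suffix_cons_iff.mp h with h | h
    · rw [(List.cons.inj h).1]; omega
    · have := ih K₀ ((hF.par _ _ hK).resolve_left (by simp)) K' c' h
      omega

include N

lemma len_le {K : Finset (Cube d)} {c : Stk d} (h : K :: c ∈ F) : c.length + 1 ≤ R := by
  have h1 := (hF.valid _ _ h).len
  have h2 := N.lev_le _ (hF.valid _ _ h).ne.card_pos
  omega

lemma len_le' {c : Stk d} (h : c = [] ∨ c ∈ F) : c.length ≤ R := by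
  rcases c with _ | ⟨K, c⟩
  · simp
  · exact hF.len_le N (h.resolve_left (by simp))

lemma card_lt {K K' : Finset (Cube d)} {c c' : Stk d} (h : K :: c ∈ F) (h' : K' :: c' <:+ c) :
    K.card < K'.card := by
  have h1 := hF.lev_lt c K h K' c' h'
  have h2 := hF.suffix_mem c (hF.par _ _ h) K' c' h'
  have := (hF.valid _ _ h).ne.card_pos
  rcases N.lt_of_lev (hF.valid _ _ h2).ne.card_pos h1 with h | h <;> omega

lemma no_cand {E : Finset (Cube d)} {c : Stk d} (hv : VNode ZS hd β D A E c)
    (hc : c = [] ∨ c ∈ F) (hs : Sat F E) (hl : ∀ c', E :: c' ∈ F → c'.length < c.length) :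
    False := by
  obtain ⟨K', c', h1, h2, h3⟩ := hF.stable E c hv hc
  have h4 := hs K' c' h1 (fun h => h2 h.symm)
  have h5 := hF.len_le N h1
  rcases h4.eq_or_ssubset with h | h
  · subst h
    have := hl c' h1
    omega
  · have h6 := Nat.mul_le_mul_left (R + 1) (Nat.succ_le_of_lt (Finset.card_lt_card h))
    rw [Nat.succ_eq_add_one, mul_add] at h6
    omega

omit N in
lemma sat_union {K E : Finset (Cube d)} {c : Stk d} (h : K :: c ∈ F) (hs : Sat F E) :
    Sat F (K ∪ E) := by
  intro K' c' h' hnd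
  rw [Finset.disjoint_union_right, not_and_or] at hnd
  rcases hnd with hnd | hnd
  · have : K' :: c' = K :: c := by
      by_contra hne
      exact hnd (hF.disj _ _ _ _ h' h hne)
    rw [(List.cons.inj this).1]
    exact Finset.subset_union_left
  · exact (hs K' c' h' hnd).trans Finset.subset_union_right

omit N in
lemma free_union {K E : Finset (Cube d)} {c o : Stk d} (h : K :: c ∈ F) (ho : o = [] ∨ o ∈ F)
    (hno : ¬ K :: c <:+ o) (hf : Free o E) : Free o (K ∪ E) := by
  intro K' c' h'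
  rw [Finset.disjoint_union_right]
  refine ⟨hF.disj _ _ _ _ (hF.suffix_mem o ho _ _ h') h ?_, hf _ _ h'⟩
  intro he
  rw [he] at h'
  exact hno h'

omit N in
lemma free_tail {K E : Finset (Cube d)} {c : Stk d} (h : K :: c ∈ F) (hf : Free (K :: c) E) :
    Free c (K ∪ E) :=
  hF.free_union h (hF.par _ _ h) (fun hs => by have := hs.length_le; simp at this)
    (fun K' c' h' => hf K' c' (h'.trans (List.suffix_cons _ _)))

lemma cascade : ∀ (c : Stk d) (K E : Finset (Cube d)) (i j : ℕ), K :: c ∈ F → E.Nonempty →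
    E ⊆ A → Tight E → Sat F E → Free (K :: c) E → lev K.card ≤ i → i ≤ R → lev E.card ≤ i →
    Att ZS (K :: c) i E → lev K.card ≤ j → lev E.card ≤ j → j ≤ R →
    Ch ZS hd (K :: c) (K :: c) E (β E.card + (R + 1) * D j) →
    E.card + (c.length + 1) * K.card ≤ 2 * (R + 1) * K.card → Bad1 ZS hd β A := by
  intro c
  induction c with
  | nil =>
    intro K E i j hK hE hEA tE sE fE h1 h2 h3 hA h4 h5 h6 hc hsz
    have v := hF.valid _ _ hK
    have hdis := fE K [] List.suffix_rfl
    obtain ⟨g1, g2⟩ := absorb v.ne v.lev1 h1 h2 (hF.len_le N hK) (hF.len_le' N (Or.inl rfl)) v.ch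
      (hc.mono (Or.inl List.suffix_rfl) (Or.inl List.suffix_rfl) le_rfl) hA v.tight tE hdis
    have hp := N.paid K.card E.card j i v.ne.card_pos v.lev1 hE.card_pos (by omega) h4 h5 h6 h1 h3 h2
    rw [← Finset.card_union_of_disjoint hdis] at hp
    have g3 : Ch ZS hd [] [] (K ∪ E) (β (K ∪ E).card) :=
      g1.mono (Or.inl List.suffix_rfl) (Or.inl List.suffix_rfl) (by simp only [List.length_nil]; omega)
    have hne : (K ∪ E).Nonempty := v.ne.mono Finset.subset_union_left
    by_cases h0 : lev (K ∪ E).card = 0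
    · obtain ⟨w, _, hw⟩ := g3.nil
      exact ⟨w, K ∪ E, Finset.union_subset v.sub hEA, hne, h0, hw⟩
    · exfalso
      refine hF.no_cand N (E := K ∪ E) (c := []) ⟨hne, Finset.union_subset v.sub hEA, by omega, g2,
        by simp only [List.length_nil]; omega, by simpa using g3, by simp⟩ (Or.inl rfl)
        (hF.sat_union hK sE) ?_
      intro c' hc'
      exfalso
      have : (K ∪ E) :: c' = [K] := by
        by_contra hne'
        exact v.ne.ne_empty (Finset.disjoint_self_iff_empty _ |>.mp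
          ((hF.disj _ _ _ _ hc' hK hne').mono_left Finset.subset_union_left))
      have h7 := congrArg Finset.card (List.cons.inj this).1
      rw [Finset.card_union_of_disjoint hdis] at h7
      have := hE.card_pos
      omega
  | cons K₁ c₂ ih =>
    intro K E i j hK hE hEA tE sE fE h1 h2 h3 hA h4 h5 h6 hc hsz
    have v := hF.valid _ _ hK
    have hdis := fE K _ List.suffix_rfl
    have hK₁ : K₁ :: c₂ ∈ F := (hF.par _ _ hK).resolve_left (by simp)
    obtain ⟨g1, g2⟩ := absorb v.ne v.lev1 h1 h2 (hF.len_le N hK) (hF.len_le' N (Or.inr hK₁)) v.ch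
      (hc.mono (Or.inl List.suffix_rfl) (Or.inl List.suffix_rfl) le_rfl) hA v.tight tE hdis
    have hp := N.paid K.card E.card j i v.ne.card_pos v.lev1 hE.card_pos (by omega) h4 h5 h6 h1 h3 h2
    have hcard := Finset.card_union_of_disjoint hdis
    rw [← hcard] at hp
    have g3 : Ch ZS hd (K₁ :: c₂) (K₁ :: c₂) (K ∪ E)
        (β (K ∪ E).card + (K₁ :: c₂).length * D (lev K.card)) :=
      g1.mono (Or.inl List.suffix_rfl) (Or.inl List.suffix_rfl) (by omega)
    have hne : (K ∪ E).Nonempty := v.ne.mono Finset.subset_union_left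
    obtain ⟨i₁, a1, a2, a3⟩ := v.att K₁ c₂ rfl
    have hlR := N.lev_le _ v.ne.card_pos
    have hl2 : lev (K ∪ E).card ≤ lev K.card :=
      N.lev_anti _ _ v.ne.card_pos (Finset.card_le_card Finset.subset_union_left)
    have hlen := hF.len_le N hK
    by_cases h0 : lev (K ∪ E).card ≤ i₁
    · refine ih K₁ (K ∪ E) i₁ (lev K.card) hK₁ hne (Finset.union_subset v.sub hEA) g2
        (hF.sat_union hK sE) (hF.free_tail hK fE) a1 (by omega) h0
        (a3.mono Finset.subset_union_left) (by omega) hl2 hlR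
        (g3.mono (Or.inl List.suffix_rfl) (Or.inl List.suffix_rfl) ?_) ?_
      · exact Nat.add_le_add_left (Nat.mul_le_mul_right _ (by omega)) _
      · have hlt := hF.card_lt N hK List.suffix_rfl
        rw [hcard]
        simp only [List.length_cons] at hsz hlen
        obtain ⟨t, ht⟩ : ∃ t, 2 * (R + 1) = t + (c₂.length + 1) :=
          ⟨2 * (R + 1) - (c₂.length + 1), by omega⟩
        rw [ht] at hsz ⊢
        nlinarith
    · exfalso
      have v₁ := hF.valid _ _ hK₁
      refine hF.no_cand N (E := K ∪ E) (c := K₁ :: c₂) ⟨hne, Finset.union_subset v.sub hEA,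
        by omega, g2, ?_, ?_, ?_⟩ (Or.inr hK₁) (hF.sat_union hK sE) ?_
      · have := v₁.len
        simp only [List.length_cons]; omega
      · refine g3.mono (Or.inl List.suffix_rfl) (Or.inl List.suffix_rfl) ?_
        exact Nat.add_le_add_left (Nat.mul_le_mul_left _ (N.D_anti _ _ hl2)) _
      · intro K' c' he
        obtain ⟨rfl, rfl⟩ := List.cons.inj he
        exact ⟨i₁, a1, by omega, a3.mono Finset.subset_union_left⟩
      · intro c' hc'
        exfalso
        have : (K ∪ E) :: c' = K :: K₁ :: c₂ := by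
          by_contra hne'
          exact v.ne.ne_empty (Finset.disjoint_self_iff_empty _ |>.mp
            ((hF.disj _ _ _ _ hc' hK hne').mono_left Finset.subset_union_left))
        have h7 := congrArg Finset.card (List.cons.inj this).1
        have := hE.card_pos
        omega

lemma pop {P E : Finset (Cube d)} {p o : Stk d} {i j m : ℕ} (hP : P :: p ∈ F)
    (ho : o = [] ∨ o ∈ F) (hE : E.Nonempty) (tE : Tight E) (fE : Free (P :: p) E)
    (h1 : lev P.card ≤ i) (h2 : i ≤ R) (hA : Att ZS (P :: p) i E) (h4 : lev P.card ≤ j)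
    (h5 : lev E.card ≤ j) (h6 : j ≤ R) (hc : Ch ZS hd (P :: p) o E (β E.card + (R + 1) * D j))
    (hm : m ≤ P.card) (hsz : E.card + (p.length + 1 + o.length) * m ≤ 2 * (R + 1) * m) :
    Tight (P ∪ E) ∧
      Ch ZS hd p o (P ∪ E) (β (P ∪ E).card + (p.length + 1) * D (lev P.card)) ∧
      (P ∪ E).card + (p.length + o.length) * P.card ≤ 2 * (R + 1) * P.card := by
  have v := hF.valid _ _ hP
  have hdis := fE P _ List.suffix_rfl
  have hl1 := hF.len_le N hP
  have hl2 := hF.len_le' N ho
  obtain ⟨g1, g2⟩ := absorb v.ne v.lev1 h1 h2 hl1 hl2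
    (v.ch.mono (Or.inl List.suffix_rfl) (Or.inl List.suffix_rfl) le_rfl) hc hA v.tight tE hdis
  have hcard := Finset.card_union_of_disjoint hdis
  obtain ⟨t, ht⟩ : ∃ t, 2 * (R + 1) = t + (p.length + 1 + o.length) :=
    ⟨2 * (R + 1) - (p.length + 1 + o.length), by omega⟩
  have hEt : E.card ≤ t * P.card := by
    rw [ht, add_mul t] at hsz
    have := Nat.mul_le_mul_left t hm
    omega
  have hp := N.unpaid P.card E.card j i v.ne.card_pos v.lev1 hE.card_pos
    (by rw [ht]; nlinarith) h4 h5 h6 h1 h2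
  rw [← hcard] at hp
  refine ⟨g2, g1.mono (Or.inl List.suffix_rfl) (Or.inr List.suffix_rfl) ?_, ?_⟩
  · rw [add_mul p.length]; omega
  · rw [hcard, ht]; nlinarith

lemma conflict (n : ℕ) : ∀ (K K' E : Finset (Cube d)) (c c' : Stk d) (i : ℕ),
    c.length + c'.length ≤ n → K :: c ∈ F → K' :: c' ∈ F → K'.card ≤ K.card →
    (∀ T, T :: K :: c <:+ K' :: c' → lev T.card ≤ i) → K' ⊆ E → E ⊆ A → Tight E → Sat F E →
    Free (K :: c) E → Free c' E → lev K.card ≤ i → i ≤ R → Att ZS (K :: c) i E →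
    Ch ZS hd c' (K :: c) E (β E.card + (c'.length + 1) * D (lev K'.card)) →
    E.card + (c'.length + (c.length + 1)) * K'.card ≤ 2 * (R + 1) * K'.card →
    Bad1 ZS hd β A := by
  induction n using Nat.strong_induction_on with
  | _ n ih =>
  intro K K' E c c' i hn hK hK' hle hab hKE hEA tE sE fE fE' h1 h2 hA hc hsz
  have v := hF.valid _ _ hK
  have v' := hF.valid _ _ hK'
  have hE : E.Nonempty := v'.ne.mono hKE
  have hlE : lev E.card ≤ lev K'.card :=
    N.lev_anti _ _ v'.ne.card_pos (Finset.card_le_card hKE)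
  have hlK : lev K.card ≤ lev K'.card := N.lev_anti _ _ v'.ne.card_pos hle
  have hlR := N.lev_le _ v'.ne.card_pos
  have hl1 := hF.len_le N hK
  have hl2 := hF.len_le N hK'
  have hD : β E.card + (c'.length + 1) * D (lev K'.card) ≤
      β E.card + (R + 1) * D (lev K'.card) :=
    Nat.add_le_add_left (Nat.mul_le_mul_right _ (by omega)) _
  by_cases hstop : c' <:+ K :: c
  · by_cases hEi : lev E.card ≤ i
    · refine hF.cascade N c K E i (lev K'.card) hK hE hEA tE sE fE h1 h2 hEi hA hlK hlE hlR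
        (hc.mono (Or.inl hstop) (Or.inl List.suffix_rfl) hD) ?_
      obtain ⟨t, ht⟩ : ∃ t, 2 * (R + 1) = t + (c.length + 1) :=
        ⟨2 * (R + 1) - (c.length + 1), by omega⟩
      rw [ht] at hsz ⊢
      nlinarith
    · exfalso
      have hne : c' ≠ K :: c := by
        intro he
        have := hab K' (by rw [he])
        omega
      have hlt : c'.length < (K :: c).length := by
        by_contra hcon
        exact hne (hstop.eq_of_length_le (by omega))
      refine hF.no_cand N (E := E) (c := K :: c) ⟨hE, hEA, by have := v.lev1; omega, tE, ?_, ?_, ?_⟩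
        (Or.inr hK) sE ?_
      · have := v.len
        simp only [List.length_cons]; omega
      · refine hc.mono (Or.inl hstop) (Or.inl List.suffix_rfl) ?_
        exact Nat.add_le_add_left (Nat.mul_le_mul hlt (N.D_anti _ _ hlE)) _
      · intro K₁ c₁ he
        obtain ⟨rfl, rfl⟩ := List.cons.inj he
        exact ⟨i, h1, by omega, hA⟩
      · intro c'' hc''
        have : E :: c'' = K' :: c' := by
          by_contra hne'
          exact v'.ne.ne_empty (Finset.disjoint_self_iff_empty _ |>.mp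
            ((hF.disj _ _ _ _ hc'' hK' hne').mono_left hKE))
        rw [(List.cons.inj this).2]
        exact hlt
  · rcases c' with _ | ⟨K'', c''⟩
    · exact absurd List.nil_suffix hstop
    have hK'' : K'' :: c'' ∈ F := (hF.par _ _ hK').resolve_left (by simp)
    have v'' := hF.valid _ _ hK''
    obtain ⟨i', a1, a2, a3⟩ := v'.att K'' c'' rfl
    have hlt := hF.card_lt N hK' List.suffix_rfl
    simp only [List.length_cons] at hn
    by_cases hcmp : K''.card ≤ K.card
    · obtain ⟨g1, g2, g3⟩ := hF.pop N hK'' (Or.inr hK) hE tE fE' a1 (by omega) (a3.mono hKE)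
        (by omega) hlE hlR (hc.mono (Or.inl List.suffix_rfl) (Or.inr List.suffix_rfl) hD) hlt.le
        hsz
      exact ih (n - 1) (by omega) K K'' (K'' ∪ E) c c'' i (by omega) hK hK'' hcmp
        (fun T hT => hab T (hT.trans (List.suffix_cons _ _))) Finset.subset_union_left
        (Finset.union_subset v''.sub hEA) g1 (hF.sat_union hK'' sE)
        (hF.free_union hK'' (Or.inr hK) hstop fE) (hF.free_tail hK'' fE') h1 h2
        (hA.mono Finset.subset_union_right) g2 g3
    · have hns : ¬ K :: c <:+ K'' :: c'' := by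
        intro hs
        rcases List.suffix_cons_iff.mp hs with h | h
        · exact hstop (h ▸ List.suffix_rfl)
        · have := hF.card_lt N hK'' h
          omega
      obtain ⟨g1, g2, g3⟩ := hF.pop N hK (Or.inr hK'') hE tE fE h1 h2 hA hlK hlE hlR
        (hc.mono (Or.inr List.suffix_rfl) (Or.inl List.suffix_rfl) hD) hle
        (by rw [add_comm (c.length + 1)]; exact hsz)
      exact ih (n - 1) (by omega) K'' K (K ∪ E) c'' c i' (by omega) hK'' hK (by omega)
        (fun T hT => absurd ((List.suffix_cons _ _).trans hT) hstop) Finset.subset_union_left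
        (Finset.union_subset v.sub hEA) g1 (hF.sat_union hK sE)
        (hF.free_union hK (Or.inr hK'') hns fE') (hF.free_tail hK fE) a1 (by omega)
        ((a3.mono hKE).mono Finset.subset_union_right) g2 g3

omit N in
lemma sat_self {K : Finset (Cube d)} {c : Stk d} (h : K :: c ∈ F) : Sat F K := by
  have := hF.sat_union (E := ∅) h (fun _ _ _ h => absurd (Finset.disjoint_empty_right _) h)
  simpa using this

omit N in
lemma free_self {K : Finset (Cube d)} {c o : Stk d} (h : K :: c ∈ F) (ho : o = [] ∨ o ∈ F)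
    (hno : ¬ K :: c <:+ o) : Free o K := by
  have := hF.free_union (E := ∅) h ho hno (fun _ _ _ => Finset.disjoint_empty_right _)
  simpa using this

lemma above_of_near (hb : ¬ Bad1 ZS hd β A) {K K' : Finset (Cube d)} {c c' : Stk d} {i i' : ℕ}
    (hK : K :: c ∈ F) (hK' : K' :: c' ∈ F) (hle : K'.card ≤ K.card) (h1 : lev K.card ≤ i)
    (h2 : i ≤ R) (h1' : lev K'.card ≤ i') (h2' : i' ≤ R) {a a' : Cube d}
    (ha : a ∈ ZS.Y (K :: c) i) (ha' : a' ∈ ZS.Y (K' :: c') i') (haa : hammingDist a a' ≤ 2) :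
    K :: c = K' :: c' ∨ ∃ T, T :: K :: c <:+ K' :: c' ∧ i < lev T.card := by
  by_contra hcon
  push Not at hcon
  have v' := hF.valid _ _ hK'
  have hl1 := hF.len_le N hK
  have hl2 := hF.len_le N hK'
  apply hb
  refine hF.conflict N _ K K' K' c c' i le_rfl hK hK' hle hcon.2 le_rfl v'.sub v'.tight
    (hF.sat_self hK') (hF.free_self hK' (Or.inr hK) ?_) (hF.free_self hK' (hF.par _ _ hK') ?_)
    h1 h2 ⟨a, ha, a', ZS.span K' c' i' v'.ne v'.lev1 h1' h2' a' ha', haa⟩
    (v'.ch.mono (Or.inl List.suffix_rfl) (Or.inl List.suffix_rfl) ?_) ?_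
  · intro hs
    rcases List.suffix_cons_iff.mp hs with h | h
    · exact hcon.1 h.symm
    · have := hF.card_lt N hK h
      omega
  · intro hs
    have := hs.length_le
    simp at this
  · rw [add_mul]; omega
  · have : 1 + (c'.length + (c.length + 1)) ≤ 2 * (R + 1) := by omega
    nlinarith

omit N in
lemma above_Z {T : Finset (Cube d)} {c : Stk d} {i : ℕ} (hi : i < lev T.card) :
    ∀ c' : Stk d, c' ∈ F → T :: c <:+ c' → ZS.Z c' i = ZS.Z c i := by
  intro c'
  induction c' with
  | nil => intro _ h; simp at h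
  | cons K' c'' ih =>
    intro hc' h
    rcases List.suffix_cons_iff.mp h with h | h
    · obtain ⟨rfl, rfl⟩ := List.cons.inj h
      exact ZS.agree _ _ _ hi
    · have h1 := hF.lev_lt c'' K' hc' T c h
      rw [ZS.agree _ _ _ (by omega)]
      refine ih ((hF.par _ _ hc').resolve_left ?_) h
      rintro rfl
      simp at h

lemma up (x₀ : Cube d) : ∀ (c : Stk d) (K E : Finset (Cube d)), K :: c ∈ F → K ⊆ E → E ⊆ A →
    Tight E → Free c E → Ch ZS hd c [] E (β E.card + (c.length + 1) * D (lev K.card)) →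
    E.card + c.length * K.card ≤ 2 * (R + 1) * K.card → InSpan E x₀ → Bad2 ZS hd β D A x₀ := by
  intro c
  induction c with
  | nil =>
    intro K E hK hKE hEA tE _ hc _ hx
    have v := hF.valid _ _ hK
    obtain ⟨w, hw, hc'⟩ := hc.nil
    refine ⟨w, E, hEA, v.ne.mono hKE, ?_, hc'.mono ?_⟩
    · have := hx.dist (inSpan_of_mem hw)
      unfold Tight at tE
      omega
    · have := N.D_anti _ _ (N.lev_anti _ _ v.ne.card_pos (Finset.card_le_card hKE))
      simp only [List.length_nil]; omega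
  | cons K₁ c₁ ih =>
    intro K E hK hKE hEA tE fE hc hsz hx
    have v := hF.valid _ _ hK
    have hK₁ : K₁ :: c₁ ∈ F := (hF.par _ _ hK).resolve_left (by simp)
    obtain ⟨i, a1, a2, a3⟩ := v.att K₁ c₁ rfl
    have hlR := N.lev_le _ v.ne.card_pos
    have hl1 := hF.len_le N hK
    obtain ⟨g1, g2, g3⟩ := hF.pop N hK₁ (Or.inl rfl) (v.ne.mono hKE) tE fE a1 (by omega)
      (a3.mono hKE) (by omega) (N.lev_anti _ _ v.ne.card_pos (Finset.card_le_card hKE)) hlR
      (hc.mono (Or.inl List.suffix_rfl) (Or.inr List.suffix_rfl)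
        (Nat.add_le_add_left (Nat.mul_le_mul_right _ (by omega)) _))
      (hF.card_lt N hK List.suffix_rfl).le hsz
    exact ih K₁ (K₁ ∪ E) hK₁ Finset.subset_union_left
      (Finset.union_subset (hF.valid _ _ hK₁).sub hEA) g1 (hF.free_tail hK₁ fE) g2 g3
      (hx.mono Finset.subset_union_right)

end Forest

theorem perc_bad (N : Nums R q lev Lb β D) (x₀ : Cube d) (hA : Perc (R + 1) A) :
    Bad1 ZS hd β A ∨ Bad2 ZS hd β D A x₀ := by
  by_contra hcon
  push Not at hcon
  obtain ⟨F, hF⟩ := exists_forest (ZS := ZS) (hd := hd) (A := A) N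
  set S : Finset (Cube d) := univ.filter (fun x => ∃ K c j, K :: c ∈ F ∧ lev K.card ≤ j ∧
    j ≤ R ∧ x ∈ ZS.Y (K :: c) j) with hS
  have hmem : ∀ x, x ∈ S ↔ ∃ K c j, K :: c ∈ F ∧ lev K.card ≤ j ∧
      j ≤ R ∧ x ∈ ZS.Y (K :: c) j := by intro x; simp [hS]
  have hZ : ∀ U : Stk d, (U = [] ∨ U ∈ F) → ∀ j ≤ R, ZS.Z U j ⊆ S := by
    intro U
    induction U with
    | nil => intro _ j _; rw [ZS.nil]; exact Finset.empty_subset _
    | cons K c ih =>
      intro hU j
      have hU' : K :: c ∈ F := hU.resolve_left (by simp)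
      induction j with
      | zero => intro _; rw [ZS.zero]; exact Finset.empty_subset _
      | succ j ihj =>
        intro hj x hx
        by_cases h1 : x ∈ ZS.Z (K :: c) j
        · exact ihj (by omega) h1
        · by_cases h2 : lev K.card ≤ j + 1
          · exact (hmem x).mpr ⟨K, c, j + 1, hU', h2, hj, Finset.mem_sdiff.mpr ⟨hx, h1⟩⟩
          · rw [ZS.agree _ _ _ (by omega)] at hx
            exact ih (hF.par _ _ hU') _ hj hx
  have hAS : A ⊆ S := by
    intro a ha
    have hv : VNode ZS hd β D A {a} [] := by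
      refine ⟨by simp, by simpa using ha, by simpa using N.lev_one, tight_single a,
        N.lev_one, ⟨([], []), by simp, by simp, a, by simp, ?_⟩, by simp⟩
      exact (Scheme.cheap_single _ _).mono (by simpa using N.beta_one)
    obtain ⟨K', c', h1, h2, _⟩ := hF.stable _ _ hv (Or.inl rfl)
    have v := hF.valid _ _ h1
    exact hZ _ (Or.inr h1) R le_rfl (ZS.cover _ _ v.ne v.lev1 (by simpa using h2))
  have hcl : Closed (R + 1) S := by
    intro v hv
    set B := S.filter (fun u => hammingDist u v = 1) with hB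
    have hBne : B.Nonempty := Finset.card_pos.mp (by omega)
    have hch : ∀ u ∈ B, ∃ K c j, K :: c ∈ F ∧ lev K.card ≤ j ∧ j ≤ R ∧ u ∈ ZS.Y (K :: c) j :=
      fun u hu => (hmem u).mp (Finset.mem_filter.mp hu).1
    choose! K c j h1 h2 h3 h4 using hch
    obtain ⟨u₀, hu₀, hmin⟩ := Finset.exists_min_image B (fun u => (K u).card) hBne
    apply hZ _ (Or.inr (h1 u₀ hu₀)) R le_rfl
    apply ZS.closed
    refine hv.trans (Finset.card_le_card ?_)
    intro u hu
    have hu' := (Finset.mem_filter.mp hu).2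
    refine Finset.mem_filter.mpr ⟨?_, hu'⟩
    have hdist : hammingDist u u₀ ≤ 2 := by
      have a1 := hammingDist_triangle u v u₀
      have a2 := (Finset.mem_filter.mp hu₀).2
      rw [hammingDist_comm v u₀] at a1
      omega
    have hz : u ∈ ZS.Z (K u :: c u) (j u) := (Finset.mem_sdiff.mp (h4 u hu)).1
    rcases hF.above_of_near N hcon.1 (h1 u hu) (h1 u₀ hu₀) (hmin u hu) (h2 u hu) (h3 u hu)
      (h2 u₀ hu₀) (h3 u₀ hu₀) (h4 u hu) (h4 u₀ hu₀) hdist with h | ⟨T, hT, hi⟩
    · rw [← h]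
      exact ZS.mono _ _ _ (h3 u hu) le_rfl hz
    · rw [← hF.above_Z hi _ (h1 u₀ hu₀) hT] at hz
      exact ZS.mono _ _ _ (h3 u hu) le_rfl hz
  have hx : x₀ ∈ S := by rw [hA S hAS hcl]; exact Finset.mem_univ _
  obtain ⟨K, c, j, h1, h2, h3, h4⟩ := (hmem x₀).mp hx
  have v := hF.valid _ _ h1
  have hl := hF.len_le N h1
  apply hcon.2
  refine hF.up N x₀ c K K h1 le_rfl v.sub v.tight (hF.free_self h1 (hF.par _ _ h1) ?_)
    (v.ch.mono (Or.inl List.suffix_rfl) (Or.inl List.suffix_rfl) ?_) ?_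
    (ZS.span K c j v.ne v.lev1 h2 h3 x₀ h4)
  · intro hs
    have := hs.length_le
    simp at this
  · rw [add_mul]; omega
  · have : 1 + c.length ≤ 2 * (R + 1) := by omega
    nlinarith

end Pool.Agent.BBM
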