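import Pool.Agent.P.MP_3a7cda_pr.H21.Basic

set_option autoImplicit false
open Classical Finset

namespace Pool.Agent.BBM

/-- One half of a subset of the `(l+1)`-cube. -/
noncomputable def half {l : ℕ} (b : Bool) (A : Finset (Cube (l + 1))) : Finset (Cube l) :=
  univ.filter (fun x => (Fin.cons b x : Cube (l + 1)) ∈ A)

lemma mem_half {l : ℕ} {b : Bool} {A : Finset (Cube (l + 1))} {x : Cube l} :
    x ∈ half b A ↔ (Fin.cons b x : Cube (l + 1)) ∈ A := by simp [half]

lemma ham_cons {l : ℕ} (b c : Bool) (x y : Cube l) :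
    hammingDist (Fin.cons b x : Cube (l + 1)) (Fin.cons c y) =
      (if b = c then 0 else 1) + hammingDist x y := by
  unfold hammingDist
  rw [Finset.card_filter, Finset.card_filter, Fin.sum_univ_succ]
  simp only [Fin.cons_zero, Fin.cons_succ]
  by_cases h : b = c <;> simp [h]

lemma card_half_le {l : ℕ} (b : Bool) (S : Finset (Cube (l + 1))) (x : Cube l) :
    ((half b S).filter (fun u => hammingDist u x = 1)).card ≤
      ((S.filter (fun u => hammingDist u (Fin.cons b x : Cube (l + 1)) = 1)).erase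
        (Fin.cons (!b) x)).card := by
  apply Finset.card_le_card_of_injOn (fun u => (Fin.cons b u : Cube (l + 1)))
  · intro u hu
    simp only [Finset.coe_filter, Set.mem_ofPred_eq, mem_half] at hu
    simp only [Finset.coe_erase, Finset.coe_filter, Set.mem_sdiff, Set.mem_ofPred_eq,
      Set.mem_singleton_iff]
    refine ⟨⟨hu.1, ?_⟩, ?_⟩
    · rw [ham_cons]; simp [hu.2]
    · intro h
      have := congrFun h 0
      simp at this
  · intro u _ v _ h
    exact Fin.cons_right_injective (α := fun _ => Bool) b h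

lemma perc_of_halves {l s : ℕ} (b : Bool) (A : Finset (Cube (l + 1)))
    (h1 : Perc (s + 1) (half b A)) (h2 : Perc s (half (!b) A)) : Perc (s + 1) A := by
  intro S hAS hS
  have hb : half b S = univ := by
    apply h1
    · intro x hx; rw [mem_half] at *; exact hAS hx
    · intro x hx
      rw [mem_half]
      apply hS
      exact hx.trans ((card_half_le b S x).trans (Finset.card_erase_le))
  have hb' : half (!b) S = univ := by
    apply h2
    · intro x hx; rw [mem_half] at *; exact hAS hx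
    · intro x hx
      rw [mem_half]
      apply hS
      have h3 := card_half_le (!b) S x
      have hm : (Fin.cons (!!b) x : Cube (l + 1)) ∈
          S.filter (fun u => hammingDist u (Fin.cons (!b) x : Cube (l + 1)) = 1) := by
        rw [Finset.mem_filter]
        constructor
        · rw [Bool.not_not, ← mem_half, hb]; exact Finset.mem_univ _
        · rw [ham_cons]; cases b <;> simp
      have h4 := Finset.card_erase_add_one hm
      omega
  rw [Finset.eq_univ_iff_forall]
  intro y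
  have hy : y = Fin.cons (y 0) (Fin.tail y) := (Fin.cons_self_tail y).symm
  rw [hy, ← mem_half]
  by_cases hyb : y 0 = b
  · rw [hyb, hb]; exact Finset.mem_univ _
  · have : y 0 = !b := Bool.eq_not_iff.mpr hyb
    rw [this, hb']; exact Finset.mem_univ _

/-- Splitting a subset of the `(l+1)`-cube into its two halves. -/
noncomputable def halfEquiv (l : ℕ) : Finset (Cube (l + 1)) ≃ Finset (Cube l) × Finset (Cube l) where
  toFun A := (half false A, half true A)
  invFun B := univ.filter (fun y => if y 0 = true then Fin.tail y ∈ B.2 else Fin.tail y ∈ B.1)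
  left_inv A := by
    ext y
    have hy : y = Fin.cons (y 0) (Fin.tail y) := (Fin.cons_self_tail y).symm
    simp only [Finset.mem_filter, Finset.mem_univ, true_and, mem_half]
    cases h : y 0
    · rw [h] at hy; simp [← hy]
    · rw [h] at hy; simp [← hy]
  right_inv B := by
    ext x <;> simp [mem_half]

lemma wt_half {l : ℕ} (p : ℝ) (A : Finset (Cube (l + 1))) :
    wt p A = wt p (half false A) * wt p (half true A) := by
  unfold wt
  rw [← (Fin.consEquiv (fun _ : Fin (l + 1) => Bool)).prod_comp, Fintype.prod_prod_type,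
    Fintype.prod_bool, mul_comm]
  congr 1 <;> apply Finset.prod_congr rfl <;> intro x _ <;> simp [mem_half, Fin.consEquiv]

lemma Ex_half {l : ℕ} (p : ℝ) (f g : Finset (Cube l) → ℝ) :
    Ex p (fun A : Finset (Cube (l + 1)) => f (half false A) * g (half true A)) =
      Ex p f * Ex p g := by
  unfold Ex
  rw [Finset.sum_mul_sum, ← Fintype.sum_prod_type',
    ← (halfEquiv l).sum_comp]
  apply Finset.sum_congr rfl
  intro A _
  rw [wt_half]
  simp only [halfEquiv, Equiv.coe_fn_mk]
  ring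

lemma Ex_add {ι : Type} [Fintype ι] (p : ℝ) (f g : Finset ι → ℝ) :
    Ex p (fun A => f A + g A) = Ex p f + Ex p g := by
  unfold Ex; simp_rw [mul_add]; exact Finset.sum_add_distrib

lemma Ex_sub' {ι : Type} [Fintype ι] (p : ℝ) (f g : Finset ι → ℝ) :
    Ex p (fun A => f A - g A) = Ex p f - Ex p g := by
  unfold Ex; simp_rw [mul_sub]; exact Finset.sum_sub_distrib _ _

variable {p : ℝ}

lemma fP_nonneg (h0 : 0 ≤ p) (h1 : p ≤ 1) (r d : ℕ) : 0 ≤ fP p r d := by
  unfold fP Ex
  exact Finset.sum_nonneg fun A _ => mul_nonneg (wt_nonneg h0 h1 A) (ind_nonneg _)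

lemma fP_le_one (h0 : 0 ≤ p) (h1 : p ≤ 1) (r d : ℕ) : fP p r d ≤ 1 := by
  rw [← Ex_one (ι := Cube d) p]
  exact Ex_mono h0 h1 fun A => ind_le_one _

lemma fP_zero (d : ℕ) : fP p 0 d = 1 := by
  rw [← Ex_one (ι := Cube d) p]
  unfold fP
  congr 1
  funext A
  apply ind_pos
  intro S _ hS
  rw [Finset.eq_univ_iff_forall]
  intro v
  exact hS v (Nat.zero_le _)

lemma fP_dim_zero (h0 : 0 ≤ p) (h1 : p ≤ 1) (r : ℕ) : p ≤ fP p r 0 := by
  have h := Ex_sub (univ : Finset (Cube 0)) p
  have hc : (univ : Finset (Cube 0)).card = 1 := by simp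
  rw [hc, pow_one] at h
  refine h.symm.le.trans ?_
  apply Ex_mono h0 h1
  intro A
  by_cases hA : univ ⊆ A
  · rw [ind_pos hA, ind_pos]
    intro S hAS _
    exact Finset.eq_univ_iff_forall.mpr fun v => hAS (hA (Finset.mem_univ v))
  · rw [ind_neg hA]; exact ind_nonneg _

lemma fP_succ1 (h0 : 0 ≤ p) (h1 : p ≤ 1) (s l : ℕ) :
    fP p (s + 1) l * fP p s l ≤ fP p (s + 1) (l + 1) := by
  unfold fP
  rw [← Ex_half]
  apply Ex_mono h0 h1
  intro A
  by_cases ha : Perc (s + 1) (half false A)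
  · by_cases hb : Perc s (half true A)
    · rw [ind_pos ha, ind_pos hb, ind_pos (perc_of_halves false A ha hb)]; norm_num
    · rw [ind_neg hb, mul_zero]; exact ind_nonneg _
  · rw [ind_neg ha, zero_mul]; exact ind_nonneg _

lemma fP_succ2 (h0 : 0 ≤ p) (h1 : p ≤ 1) (s l : ℕ) :
    fP p (s + 1) l * fP p s l + fP p s l * fP p (s + 1) l - fP p (s + 1) l * fP p (s + 1) l ≤
      fP p (s + 1) (l + 1) := by
  unfold fP
  rw [← Ex_half, ← Ex_half, ← Ex_half, ← Ex_add, ← Ex_sub']
  apply Ex_mono h0 h1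
  intro A
  have i1 := ind_nonneg (Perc (s + 1) A)
  by_cases ha : Perc (s + 1) (half false A) <;> by_cases hb : Perc s (half true A) <;>
    by_cases hc : Perc (s + 1) (half true A) <;> by_cases hd : Perc s (half false A) <;>
    first
    | (rw [ind_pos (perc_of_halves false A ha hb)]; simp [ind, ha, hb, hc, hd])
    | (rw [ind_pos (perc_of_halves true A hc hd)]; simp [ind, ha, hb, hc, hd])
    | (simp only [ind, ha, hb, hc, hd, if_true, if_false] at i1 ⊢; linarith)

/-- The scalar recursion step. -/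
lemma scalar_step (f g : ℕ → ℝ) (L M : ℕ) (hf0 : ∀ l, 0 ≤ f l) (hf1 : ∀ l, f l ≤ 1)
    (hstart : (1 / 2 : ℝ) ^ L ≤ f 0)
    (hr1 : ∀ l, f l * g l ≤ f (l + 1))
    (hr2 : ∀ l, f l * g l + g l * f l - f l * f l ≤ f (l + 1))
    (hg1 : ∀ l, (1 / 2 : ℝ) ^ M ≤ g l)
    (hg2 : ∀ k, 1 - g (M + k) ≤ (1 / 2) ^ k / 16) :
    (∀ l, (1 / 2 : ℝ) ^ (M + 3 * (L + M ^ 2) + 7) ≤ f l) ∧
      ∀ k, 1 - f (M + 3 * (L + M ^ 2) + 7 + k) ≤ (1 / 2) ^ k / 16 := by
  have hA : ∀ l, (1 / 2 : ℝ) ^ (L + M * l) ≤ f l := by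
    intro l
    induction l with
    | zero => simpa using hstart
    | succ l ih =>
      calc (1 / 2 : ℝ) ^ (L + M * (l + 1)) = (1 / 2) ^ (L + M * l) * (1 / 2) ^ M := by
            rw [← pow_add]; congr 1; ring
        _ ≤ f l * g l := mul_le_mul ih (hg1 l) (by positivity) (hf0 l)
        _ ≤ f (l + 1) := hr1 l
  have hgk : ∀ k, 15 / 16 ≤ g (M + k) := by
    intro k
    have h1 := hg2 k
    have h2 : (1 / 2 : ℝ) ^ k ≤ 1 := pow_le_one₀ (by norm_num) (by norm_num)
    linarith
  set a : ℝ := (1 / 2 : ℝ) ^ (L + M ^ 2) with ha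
  have ha0 : 0 < a := by positivity
  have hB : ∀ k, min (1 / 2) ((11 / 8 : ℝ) ^ k * a) ≤ f (M + k) := by
    intro k
    induction k with
    | zero =>
      have := hA M
      rw [← sq] at this
      simp only [pow_zero, one_mul, add_zero]
      exact (min_le_right _ _).trans this
    | succ k ih =>
      have h2 := hr2 (M + k)
      have h3 := hgk k
      have h4 := hf0 (M + k)
      have h5 := hf1 (M + k)
      rw [← add_assoc]
      by_cases hc : 1 / 2 ≤ f (M + k)
      · apply (min_le_left _ _).trans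
        nlinarith
      · push Not at hc
        apply (min_le_right _ _).trans
        have h6 : (11 / 8 : ℝ) ^ k * a ≤ f (M + k) := by
          rcases min_le_iff.mp ih with h | h
          · linarith
          · exact h
        rw [pow_succ]
        nlinarith
  have hC : ∀ k, 1 / 2 ≤ f (M + (3 * (L + M ^ 2) + k)) := by
    intro k
    refine le_trans (le_min le_rfl ?_) (hB _)
    have h1 : (2 : ℝ) ^ (L + M ^ 2) ≤ (11 / 8 : ℝ) ^ (3 * (L + M ^ 2) + k) := by
      rw [pow_add (11 / 8 : ℝ), pow_mul]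
      have h2 : (2 : ℝ) ^ (L + M ^ 2) ≤ ((11 / 8 : ℝ) ^ 3) ^ (L + M ^ 2) :=
        pow_le_pow_left₀ (by norm_num) (by norm_num) _
      have h3 : (1 : ℝ) ≤ (11 / 8 : ℝ) ^ k := one_le_pow₀ (by norm_num)
      have h4 : (0 : ℝ) ≤ ((11 / 8 : ℝ) ^ 3) ^ (L + M ^ 2) := by positivity
      nlinarith
    have h2 : (2 : ℝ) ^ (L + M ^ 2) * a = 1 := by
      rw [ha, ← mul_pow]; norm_num
    nlinarith
  have hstep : ∀ l, 1 - f (l + 1) ≤ (1 - f l) ^ 2 + 2 * max (1 - g l) 0 := by
    intro l
    have h2 := hr2 l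
    have h4 := hf0 l
    have h5 := hf1 l
    have h6 : 1 - g l ≤ max (1 - g l) 0 := le_max_left _ _
    have h7 : 0 ≤ max (1 - g l) 0 := le_max_right _ _
    nlinarith
  have hgm : ∀ k, max (1 - g (M + k)) 0 ≤ (1 / 2) ^ k / 16 := fun k =>
    max_le (hg2 k) (by positivity)
  set N := 3 * (L + M ^ 2) with hN
  have hpow : ∀ k j, (1 / 2 : ℝ) ^ (N + j + k) ≤ (1 / 2) ^ (j + k) := fun k j =>
    pow_le_pow_of_le_one (by norm_num) (by norm_num) (by omega)
  have u4 : 1 - f (M + (N + 4)) ≤ 1 / 2 := by have := hC 4; linarith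
  have u5 : 1 - f (M + (N + 5)) ≤ 1 / 4 + 1 / 128 := by
    have h1 := hstep (M + (N + 4))
    have h2 := hgm (N + 4)
    have h3 := hpow 0 4
    have h4 := hf1 (M + (N + 4))
    norm_num at h3
    have e : M + (N + 4) + 1 = M + (N + 5) := by ring
    rw [e] at h1
    nlinarith
  have u6 : 1 - f (M + (N + 6)) ≤ 1 / 12 := by
    have h1 := hstep (M + (N + 5))
    have h2 := hgm (N + 5)
    have h3 := hpow 0 5
    have h4 := hf1 (M + (N + 5))
    norm_num at h3
    have e : M + (N + 5) + 1 = M + (N + 6) := by ring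
    rw [e] at h1
    nlinarith
  have u7 : 1 - f (M + (N + 7)) ≤ 1 / 16 := by
    have h1 := hstep (M + (N + 6))
    have h2 := hgm (N + 6)
    have h3 := hpow 0 6
    have h4 := hf1 (M + (N + 6))
    norm_num at h3
    have e : M + (N + 6) + 1 = M + (N + 7) := by ring
    rw [e] at h1
    nlinarith
  constructor
  · intro l
    have hle : (1 / 2 : ℝ) ^ (M + N + 7) ≤ a :=
      pow_le_pow_of_le_one (by norm_num) (by norm_num) (by omega)
    rcases le_or_gt l M with hl | hl
    · refine hle.trans (le_trans ?_ (hA l))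
      apply pow_le_pow_of_le_one (by norm_num) (by norm_num)
      have : M * l ≤ M ^ 2 := by rw [sq]; exact Nat.mul_le_mul_left _ hl
      omega
    · obtain ⟨k, rfl⟩ : ∃ k, l = M + k := ⟨l - M, by omega⟩
      refine le_trans (le_min ?_ ?_) (hB k)
      · calc (1 / 2 : ℝ) ^ (M + N + 7) ≤ (1 / 2) ^ 1 :=
            pow_le_pow_of_le_one (by norm_num) (by norm_num) (by omega)
          _ = 1 / 2 := by norm_num
      · have h3 : (1 : ℝ) ≤ (11 / 8 : ℝ) ^ k := one_le_pow₀ (by norm_num)
        nlinarith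
  · intro k
    induction k with
    | zero =>
      have e : M + N + 7 + 0 = M + (N + 7) := by ring
      rw [e]; simpa using u7
    | succ k ih =>
      have h1 := hstep (M + N + 7 + k)
      have h2 := hgm (N + 7 + k)
      have h3 := hpow k 7
      have h4 := hf1 (M + N + 7 + k)
      have e : M + (N + 7 + k) = M + N + 7 + k := by ring
      rw [e] at h2
      have h5 : (1 / 2 : ℝ) ^ k ≤ 1 := pow_le_one₀ (by norm_num) (by norm_num)
      have h6 : (0 : ℝ) < (1 / 2 : ℝ) ^ k := by positivity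
      rw [pow_add (1 / 2 : ℝ) 7 k] at h3
      rw [← add_assoc, pow_succ]
      have h7 : (1 / 2 : ℝ) ^ 7 = 1 / 128 := by norm_num
      rw [h7] at h3
      have h8 : (1 - f (M + N + 7 + k)) ^ 2 ≤ (1 - f (M + N + 7 + k)) * (1 / 16) := by
        rw [sq]; apply mul_le_mul_of_nonneg_left <;> linarith
      linarith

/-- Threshold dimensions. -/
def Mseq (L : ℕ) : ℕ → ℕ
  | 0 => 0
  | r + 1 => Mseq L r + 3 * (L + (Mseq L r) ^ 2) + 7

lemma upper_main (h0 : 0 ≤ p) (h1 : p ≤ 1) (L : ℕ) (hL : (1 / 2 : ℝ) ^ L ≤ p) (r : ℕ) :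
    (∀ l, (1 / 2 : ℝ) ^ (Mseq L r) ≤ fP p r l) ∧
      ∀ k, 1 - fP p r (Mseq L r + k) ≤ (1 / 2) ^ k / 16 := by
  induction r with
  | zero =>
    constructor
    · intro l; simp [Mseq, fP_zero]
    · intro k; rw [fP_zero, sub_self]; positivity
  | succ r ih =>
    exact scalar_step (fP p (r + 1)) (fP p r) L (Mseq L r) (fP_nonneg h0 h1 _) (fP_le_one h0 h1 _)
      (hL.trans (fP_dim_zero h0 h1 _)) (fP_succ1 h0 h1 r) (fP_succ2 h0 h1 r) ih.1 ih.2

lemma Mseq_bound (L : ℕ) (hL : 1 ≤ L) (r : ℕ) :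
    L ≤ Mseq L (r + 1) ∧ 14 * Mseq L (r + 1) ≤ (140 * L) ^ (2 ^ r) := by
  induction r with
  | zero => simp [Mseq]; omega
  | succ r ih =>
    obtain ⟨h1, h2⟩ := ih
    rw [Mseq]
    set M := Mseq L (r + 1)
    constructor
    · omega
    · rw [pow_succ 2 r, pow_mul]
      have h3 : (14 * M) ^ 2 ≤ ((140 * L) ^ 2 ^ r) ^ 2 := Nat.pow_le_pow_left h2 2
      nlinarith

/-- The upper bound: above `2^{-L}` the cube of dimension at least `(140 L)^{2^r}` percolates
in the `(r+1)`-neighbour process with probability above one half. -/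
theorem upper_bound (h0 : 0 ≤ p) (h1 : p ≤ 1) (L : ℕ) (hL1 : 1 ≤ L) (hL : (1 / 2 : ℝ) ^ L ≤ p)
    (r d : ℕ) (hd : (140 * L) ^ (2 ^ r) ≤ d) : 1 / 2 < fP p (r + 1) d := by
  have h2 := (Mseq_bound L hL1 r).2
  obtain ⟨k, rfl⟩ : ∃ k, d = Mseq L (r + 1) + k := ⟨d - Mseq L (r + 1), by omega⟩
  have h3 := (upper_main h0 h1 L hL (r + 1)).2 k
  have h5 : (1 / 2 : ℝ) ^ k ≤ 1 := pow_le_one₀ (by norm_num) (by norm_num)
  linarith

end Pool.Agent.BBM
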