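import Pool.Agent.P.MP_3a7cda_pr.H21.Forest
import Pool.Agent.P.MP_3a7cda_pr.H21.Upper

set_option autoImplicit false
open Classical Finset

namespace Pool.Agent.BBM

lemma bad_bound {V Γ : Type} [Fintype V] [DecidableEq V] (S : Scheme V Γ) (γ : Γ) {p : ℝ}
    (h0 : 0 ≤ p) (h1 : p ≤ 1) (ρ : V → ℝ) (hρ : ∀ v, 0 ≤ ρ v) (x : Finset V → ℕ)
    (Q : V → Finset V → Prop) (hQ : ∀ v K, Q v K → p ^ K.card ≤ ρ v * (1 / 2) ^ x K)
    (P : Finset V → Prop) (hP : ∀ A, P A → ∃ v K, K ⊆ A ∧ Q v K ∧ S.Cheap γ v K (x K)) :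
    Ex p (fun A => ind (P A)) ≤ ∑ v, ρ v := by
  have h2 := Ex_union (univ.filter (fun vK : V × Finset V => Q vK.1 vK.2 ∧
    S.Cheap γ vK.1 vK.2 (x vK.2))) (fun vK => vK.2) h0 h1 P (fun A hA => by
      obtain ⟨v, K, a1, a2, a3⟩ := hP A hA
      exact ⟨(v, K), by simp [a2, a3], a1⟩)
  refine h2.trans ?_
  rw [Finset.sum_filter, Fintype.sum_prod_type]
  apply Finset.sum_le_sum
  intro v _
  rw [← Finset.sum_filter]
  have h3 := Scheme.kraft (S := S) γ v (univ.filter (fun K => Q v K ∧ S.Cheap γ v K (x K))) x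
    (fun K hK => (Finset.mem_filter.mp hK).2.2)
  calc _ ≤ ∑ K ∈ univ.filter (fun K => Q v K ∧ S.Cheap γ v K (x K)), ρ v * (1 / 2 : ℝ) ^ x K :=
        Finset.sum_le_sum fun K hK => hQ v K (Finset.mem_filter.mp hK).2.1
    _ ≤ ρ v := by
      rw [← Finset.mul_sum]
      exact mul_le_of_le_one_right (hρ v) h3

lemma sum_super (s : Finset ℕ) (θ : ℕ → ℕ) (a b : ℕ) :
    ∑ t ∈ s, (a - θ t) + ∑ t ∈ s, (b - θ t) ≤ ∑ t ∈ s, (a + b - θ t) := by
  rw [← Finset.sum_add_distrib]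
  exact Finset.sum_le_sum fun t _ => by omega

lemma sum_gain (s : Finset ℕ) (θ : ℕ → ℕ) (a b t₀ : ℕ) (h : t₀ ∈ s) (ha : θ t₀ ≤ a)
    (hb : θ t₀ ≤ b) :
    ∑ t ∈ s, (a - θ t) + ∑ t ∈ s, (b - θ t) + θ t₀ ≤ ∑ t ∈ s, (a + b - θ t) := by
  rw [← Finset.add_sum_erase s _ h, ← Finset.add_sum_erase s _ h, ← Finset.add_sum_erase s _ h]
  have := sum_super (s.erase t₀) θ a b
  omega

/-- Level weights. -/
def wv (R n j : ℕ) : ℕ := n ^ (2 ^ (R - j) - 1)

lemma wv_top (R n : ℕ) : wv R n R = 1 := by simp [wv]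

lemma wv_pos (R : ℕ) {n : ℕ} (hn : 1 ≤ n) (j : ℕ) : 0 < wv R n j := by unfold wv; positivity

lemma wv_anti (R : ℕ) {n : ℕ} (hn : 1 ≤ n) {i j : ℕ} (h : i ≤ j) : wv R n j ≤ wv R n i := by
  unfold wv
  apply Nat.pow_le_pow_right hn
  have : 2 ^ (R - j) ≤ 2 ^ (R - i) := Nat.pow_le_pow_right (by norm_num) (by omega)
  omega

lemma wv_step (R n : ℕ) {j : ℕ} (h : j < R) : wv R n j = n * wv R n (j + 1) * wv R n (j + 1) := by
  unfold wv
  rw [← pow_succ', ← pow_add]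
  congr 1
  have h1 : R - j = (R - (j + 1)) + 1 := by omega
  have h2 : 0 < 2 ^ (R - (j + 1)) := by positivity
  rw [h1, pow_succ]
  omega

lemma wv_zero (R n : ℕ) : n * wv R n 0 = n ^ 2 ^ R := by
  unfold wv
  rw [← pow_succ']
  congr 1
  have h2 : 0 < 2 ^ R := by positivity
  simp only [Nat.sub_zero]
  omega

/-- The level of a size. -/
noncomputable def levv (R n k : ℕ) : ℕ := sInf {j | wv R n j ≤ (R + 1) * k}

lemma levv_iff (R : ℕ) {n : ℕ} (hn : 1 ≤ n) (k j : ℕ) (hk : 1 ≤ k) :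
    levv R n k ≤ j ↔ wv R n j ≤ (R + 1) * k := by
  constructor
  · intro h
    have hne : {j | wv R n j ≤ (R + 1) * k}.Nonempty := ⟨R, by
      show wv R n R ≤ _
      rw [wv_top]; nlinarith⟩
    exact (wv_anti R hn h).trans (Nat.sInf_mem hne)
  · intro h
    exact Nat.sInf_le h

/-- The budget function. -/
def betav (R q C : ℕ) (k : ℕ) : ℕ :=
  C * q ^ 3 * ∑ j ∈ Icc 1 R, ((R + 1) * k - wv R (q ^ 3) j) +
    8 * (R + 1) * q * ∑ i ∈ range q, (k - 2 ^ i)

lemma betav_le (R q C k : ℕ) (hq : 1 ≤ q) :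
    betav R q C k ≤ (C * R * (R + 1) + 8 * (R + 1)) * q ^ 3 * k := by
  unfold betav
  have h1 : ∑ j ∈ Icc 1 R, ((R + 1) * k - wv R (q ^ 3) j) ≤ (Icc 1 R).card • ((R + 1) * k) :=
    Finset.sum_le_card_nsmul _ _ _ fun _ _ => Nat.sub_le _ _
  have h2 : ∑ i ∈ range q, (k - 2 ^ i) ≤ (range q).card • k :=
    Finset.sum_le_card_nsmul _ _ _ fun _ _ => Nat.sub_le _ _
  simp only [Nat.card_Icc, Nat.add_sub_cancel, smul_eq_mul, Finset.card_range] at h1 h2
  have h3 := Nat.mul_le_mul_left (C * q ^ 3) h1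
  have h4 := Nat.mul_le_mul_left (8 * (R + 1) * q) h2
  have h5 : q * q ≤ q ^ 3 := by nlinarith
  have h6 := Nat.mul_le_mul_left (8 * (R + 1) * k) h5
  nlinarith

lemma betav_loc (R q k₁ k₂ : ℕ) (h1 : 1 ≤ k₁) (h2 : 1 ≤ k₂) (h3 : k₂ ≤ 2 * (R + 1) * k₁)
    (h4 : k₁ < 2 ^ q) :
    8 * (R + 1) * q * ∑ i ∈ range q, (k₁ - 2 ^ i) + 8 * (R + 1) * q * ∑ i ∈ range q, (k₂ - 2 ^ i)
      + 2 * q * k₂ ≤ 8 * (R + 1) * q * ∑ i ∈ range q, (k₁ + k₂ - 2 ^ i) := by
  set m := min k₁ k₂ with hm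
  have hm1 : m ≤ k₁ := min_le_left _ _
  have hm2 : m ≤ k₂ := min_le_right _ _
  have hm0 : m ≠ 0 := by omega
  have a1 := Nat.pow_log_le_self 2 hm0
  have a2 := Nat.lt_pow_succ_log_self (by norm_num : 1 < 2) m
  have a3 : Nat.log 2 m < q := by
    by_contra h
    have : 2 ^ q ≤ 2 ^ Nat.log 2 m := Nat.pow_le_pow_right (by norm_num) (by omega)
    omega
  have a4 := sum_gain (range q) (fun i => 2 ^ i) k₁ k₂ _ (Finset.mem_range.mpr a3)
    (a1.trans hm1) (a1.trans hm2)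
  have a5 : k₂ ≤ 2 * (R + 1) * m := by
    rcases min_choice k₁ k₂ with h | h
    · rw [hm, h]; exact h3
    · rw [hm, h]; nlinarith
  rw [Nat.succ_eq_add_one, pow_succ] at a2
  have a6 : k₂ ≤ 4 * (R + 1) * 2 ^ Nat.log 2 m := by nlinarith
  have a7 := Nat.mul_le_mul_left (8 * (R + 1) * q) a4
  have a8 := Nat.mul_le_mul_left (2 * q) a6
  nlinarith

lemma nums_ok (R q C : ℕ) (hR : 1 ≤ R) (hq : 5 * R + 12 ≤ q) (hq2 : q ^ (3 * 2 ^ R) ≤ 2 ^ q) :
    Nums R q (levv R (q ^ 3)) (fun j => C * q ^ 3 * wv R (q ^ 3) j)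
      (betav R q ((R + 1) * (2 * C + 2) + C + 1))
      (fun j => (2 * C + 2) * q ^ 3 * wv R (q ^ 3) j) := by
  set n := q ^ 3 with hn
  have hqn : q ≤ n := Nat.le_self_pow (by norm_num) q
  have hn1 : 1 ≤ n := by omega
  have hl := levv_iff R hn1
  have hw0 : n ≤ wv R n 0 := by
    rw [wv_step R n hR]
    have := wv_pos R hn1 (0 + 1)
    exact (Nat.le_mul_of_pos_right _ this).trans (Nat.le_mul_of_pos_right _ this)
  have hsmall : ∀ k, 1 ≤ k → 1 ≤ levv R n k → k < 2 ^ q := by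
    intro k hk h
    have h1 : ¬ wv R n 0 ≤ (R + 1) * k := fun h' => by
      have := (hl k 0 hk).mpr h'
      omega
    have h2 := wv_zero R n
    rw [hn, ← pow_mul, ← hn] at h2
    nlinarith
  have hgain : ∀ k₁ k₂ t, 1 ≤ k₁ → 1 ≤ levv R n k₁ → 1 ≤ k₂ → k₂ ≤ 2 * (R + 1) * k₁ →
      levv R n k₁ ≤ t → levv R n k₂ ≤ t → t ≤ R →
      betav R q ((R + 1) * (2 * C + 2) + C + 1) k₁ + betav R q ((R + 1) * (2 * C + 2) + C + 1) k₂ +
        ((R + 1) * (2 * C + 2) + C + 1) * n * wv R n t + 2 * q * k₂ ≤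
        betav R q ((R + 1) * (2 * C + 2) + C + 1) (k₁ + k₂) := by
    intro k₁ k₂ t h1 h2 h3 h4 h5 h6 h7
    have a1 := betav_loc R q k₁ k₂ h1 h3 h4 (hsmall k₁ h1 h2)
    have a2 := sum_gain (Icc 1 R) (wv R n) ((R + 1) * k₁) ((R + 1) * k₂) t
      (Finset.mem_Icc.mpr ⟨by omega, h7⟩) ((hl _ _ h1).mp h5) ((hl _ _ h3).mp h6)
    have a3 := Nat.mul_le_mul_left (((R + 1) * (2 * C + 2) + C + 1) * n) a2
    unfold betav
    rw [← hn, mul_add (R + 1) k₁ k₂]
    rw [mul_add, mul_add] at a3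
    omega
  have hpay : ∀ t i j, t ≤ i → t ≤ j →
      (R + 1) * ((2 * C + 2) * n * wv R n j) + C * n * wv R n i + (5 * R + 12) ≤
        ((R + 1) * (2 * C + 2) + C + 1) * n * wv R n t := by
    intro t i j hi hj
    have a1 := Nat.mul_le_mul_left ((R + 1) * ((2 * C + 2) * n)) (wv_anti R hn1 hj)
    have a2 := Nat.mul_le_mul_left (C * n) (wv_anti R hn1 hi)
    have a3 : n ≤ n * wv R n t := Nat.le_mul_of_pos_right _ (wv_pos R hn1 t)
    nlinarith
  refine ⟨?_, ?_, ?_, ?_, ?_, ?_, ?_⟩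
  · intro k k' hk hkk
    rw [hl _ _ (by omega)]
    exact ((hl k _ hk).mp le_rfl).trans (Nat.mul_le_mul_left _ hkk)
  · intro k hk
    rw [hl _ _ hk, wv_top]; nlinarith
  · by_contra h
    have := (hl 1 0 le_rfl).mp (by omega)
    omega
  · unfold betav
    have a1 : (R + 1) * 1 - wv R n R ≤ ∑ j ∈ Icc 1 R, ((R + 1) * 1 - wv R n j) :=
      Finset.single_le_sum (f := fun j => (R + 1) * 1 - wv R n j) (fun _ _ => Nat.zero_le _)
        (Finset.mem_Icc.mpr ⟨hR, le_rfl⟩)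
    rw [wv_top] at a1
    have a2 : 1 ≤ ∑ j ∈ Icc 1 R, ((R + 1) * 1 - wv R n j) := by omega
    have a3 : 2 ≤ ((R + 1) * (2 * C + 2) + C + 1) * n :=
      le_trans (by omega) (Nat.le_mul_of_pos_left n (by positivity))
    have a4 := Nat.mul_le_mul a3 a2
    rw [← hn]
    omega
  · intro i j hij
    exact Nat.mul_le_mul_left _ (wv_anti R hn1 hij)
  · intro k₁ k₂ j i h1 h2 h3 h4 h5 h6 h7 h8 h9 h10
    have a1 := hgain k₁ k₂ (min i j) h1 h2 h3 h4 (le_min h8 h5) (le_min h9 h6)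
      ((min_le_left _ _).trans h10)
    have a2 := hpay (min i j) i j (min_le_left _ _) (min_le_right _ _)
    omega
  · intro k₁ k₂ j i h1 h2 h3 h4 h5 h6 h7 h8 h10
    rcases h5.eq_or_lt with h5 | h5
    · have a1 := hgain k₁ k₂ j h1 h2 h3 h4 h5.le h6 h7
      have a2 := hpay j i j (by omega) le_rfl
      omega
    · have a1 := betav_loc R q k₁ k₂ h1 h3 h4 (hsmall k₁ h1 h2)
      have a2 := sum_super (Icc 1 R) (wv R n) ((R + 1) * k₁) ((R + 1) * k₂)
      have a3 := Nat.mul_le_mul_left (((R + 1) * (2 * C + 2) + C + 1) * n) a2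
      set l := levv R n k₁
      have b1 : n * wv R n j ≤ wv R n l := by
        rw [wv_step R n (by omega : l < R)]
        have c1 := wv_anti R hn1 (by omega : l + 1 ≤ j)
        have c2 := wv_pos R hn1 (l + 1)
        have c3 := Nat.mul_le_mul_left n c1
        exact c3.trans (Nat.le_mul_of_pos_right _ c2)
      have b2 : 2 * (R + 1) * wv R n j ≤ wv R n l :=
        le_trans (Nat.mul_le_mul_right _ (by omega)) b1
      have b3 := Nat.mul_le_mul_left ((C + 1) * n) b2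
      have b4 := Nat.mul_le_mul_left (C * n) (wv_anti R hn1 h8)
      have b5 : n ≤ n * wv R n l := Nat.le_mul_of_pos_right _ (wv_pos R hn1 l)
      have b6 : (R + 1) * ((2 * C + 2) * n * wv R n j) + C * n * wv R n i + (5 * R + 12) ≤
          (2 * C + 2) * n * wv R n l := by nlinarith
      unfold betav
      rw [← hn, mul_add (R + 1) k₁ k₂]
      rw [mul_add] at a3
      omega

theorem lower_core (R : ℕ) (hR : 1 ≤ R) : ∃ C : ℕ, ∀ q d : ℕ, 5 * R + 12 ≤ q →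
    q ^ ((3 * 2 ^ R + 2) * (R + 1)) ≤ 2 ^ q → 1 ≤ d → d ≤ q ^ (3 * 2 ^ R) →
    ∀ p : ℝ, 0 ≤ p → p ≤ (1 / 2) ^ (C * q ^ 3) → fP p (R + 1) d ≤ 1 / 4 := by
  set e := (3 * 2 ^ R + 2) * R with he
  set C := 21 * 2 ^ e with hC
  set C' := (R + 1) * (2 * C + 2) + C + 1 with hC'
  set Cb := C' * R * (R + 1) + 8 * (R + 1) with hCb
  refine ⟨Cb + (2 * C + 2) * (R + 1) + (R + 1) + 7, fun q d hq hq2 hd1 hd2 p h0 hp => ?_⟩
  have h1 : p ≤ 1 := hp.trans (pow_le_one₀ (by norm_num) (by norm_num))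
  set n := q ^ 3 with hn
  have hqn : q ≤ n := Nat.le_self_pow (by norm_num) q
  have hn1 : 1 ≤ n := by omega
  have hq3 : q ^ (3 * 2 ^ R) ≤ 2 ^ q :=
    le_trans (Nat.pow_le_pow_right (by omega) (by nlinarith)) hq2
  have hd : d ≤ 2 ^ q := hd2.trans hq3
  have hd3 : 4 * d ≤ q ^ (3 * 2 ^ R + 2) := by
    rw [pow_add, mul_comm]
    exact Nat.mul_le_mul hd2 (by nlinarith)
  have hB : (2 * d + 1) ^ R ≤ q ^ e := by
    rw [he, pow_mul]
    exact Nat.pow_le_pow_left (by omega) _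
  have hB2 : 4 * d * (2 * d + 1) ^ R ≤ 2 ^ q := by
    refine le_trans ?_ hq2
    rw [mul_add (3 * 2 ^ R + 2), mul_one, ← he, pow_add, mul_comm]
    exact Nat.mul_le_mul hB hd3
  have hCpos : 1 ≤ C := by rw [hC]; have : 0 < 2 ^ e := by positivity
                           omega
  obtain ⟨ZS⟩ := zsys_exists (d := d) (wv R n) (fun j => n * wv R n (j + 1))
    (fun j => C * n * wv R n j) (levv R n) (wv_top R n) (wv_pos R hn1)
    (fun j hj => wv_step R n hj) (fun j _ => by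
      rw [mul_assoc]; exact Nat.le_mul_of_pos_left _ hCpos)
    (fun j _ U hU hfr hmin => by
      have e1 : n * wv R n (j + 1) = q * (q ^ 2 * wv R n (j + 1)) := by rw [hn]; ring
      have := rstar q e ((2 * d + 1) ^ R) (q ^ 2 * wv R n (j + 1)) hd1 (by omega) hB hB2
        (Nat.le_mul_of_pos_right _ (wv_pos R hn1 _)) hU hfr (by rw [← e1]; exact hmin)
      rw [← e1, ← hC, ← mul_assoc] at this
      exact this)
    (levv_iff R hn1)
  have N := nums_ok R q C hR hq hq3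
  rw [← hn, ← hC'] at N
  set β := betav R q C'
  set D := fun j => (2 * C + 2) * n * wv R n j
  have hβ : ∀ k, β k ≤ Cb * n * k := fun k => betav_le R q C' k (by omega)
  have hpk : ∀ k y, y ≤ (Cb + (2 * C + 2) * (R + 1) + (R + 1) + 7) * n * k →
      p ^ k ≤ (1 / 2) ^ y := by
    intro k y hy
    calc p ^ k ≤ ((1 / 2) ^ ((Cb + (2 * C + 2) * (R + 1) + (R + 1) + 7) * n)) ^ k :=
          pow_le_pow_left₀ h0 hp _
      _ ≤ _ := by
        rw [← pow_mul]
        exact pow_le_pow_of_le_one (by norm_num) (by norm_num) hy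
  let x₀ : Cube d := fun _ => false
  have b1 := bad_bound (ZS.scheme q hd) ([], []) h0 h1 (fun _ => (1 / 2 : ℝ) ^ (d + 3))
    (fun _ => by positivity) (fun K => β K.card) (fun _ K => K.Nonempty ∧ levv R n K.card = 0)
    (fun v K hK => by
      rw [← pow_add]
      apply hpk
      have a1 := hK.1.card_pos
      have a2 := (levv_iff R hn1 _ 0 a1).mp hK.2.le
      have a3 := wv_zero R n
      rw [hn, ← pow_mul, ← hn] at a3
      have a4 := Nat.mul_le_mul_left n a2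
      have a5 := hβ K.card
      have a6 : 1 ≤ n * K.card := Nat.mul_pos hn1 a1
      nlinarith [Nat.zero_le ((2 * C + 2) * (R + 1) * n * K.card)])
    (Bad1 ZS hd β) (fun A ⟨v, K, a1, a2, a3, a4⟩ => ⟨v, K, a1, ⟨a2, a3⟩, a4⟩)
  have b2 := bad_bound (ZS.scheme q hd) ([], []) h0 h1 (fun v => loc q x₀ v * (1 / 2 : ℝ) ^ 3)
    (fun _ => mul_nonneg (loc_nonneg _ _ _) (by positivity))
    (fun K => β K.card + D (levv R n K.card))
    (fun v K => K.Nonempty ∧ hammingDist x₀ v ≤ 2 * K.card)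
    (fun v K hK => by
      unfold loc
      rw [← pow_add, ← pow_add]
      apply hpk
      have a1 := hK.1.card_pos
      have a2 := (levv_iff R hn1 _ _ a1).mp le_rfl
      have a3 := Nat.mul_le_mul_left ((2 * C + 2) * n) a2
      have a4 := Nat.mul_le_mul hqn hK.2
      have a5 := hβ K.card
      have a6 : 1 ≤ n * K.card := Nat.mul_pos hn1 a1
      show _ + _ + (_ + (2 * C + 2) * n * wv R n (levv R n K.card)) ≤ _
      nlinarith [Nat.zero_le ((R + 1) * n * K.card)])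
    (fun A => Bad2 ZS hd β D A x₀) (fun A ⟨v, K, a1, a2, a3, a4⟩ => ⟨v, K, a1, ⟨a2, a3⟩, a4⟩)
  have b3 : fP p (R + 1) d ≤ Ex p (fun A => ind (Bad1 ZS hd β A)) +
      Ex p (fun A => ind (Bad2 ZS hd β D A x₀)) := by
    rw [← Ex_add]
    apply Ex_mono h0 h1
    intro A
    have i1 := ind_nonneg (Bad1 ZS hd β A)
    have i2 := ind_nonneg (Bad2 ZS hd β D A x₀)
    by_cases hA : Perc (R + 1) A
    · rw [ind_pos hA]
      rcases perc_bad (ZS := ZS) (hd := hd) N x₀ hA with h | h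
      · rw [ind_pos h]; linarith
      · rw [ind_pos h]; linarith
    · rw [ind_neg hA]; linarith
  rw [← Finset.sum_mul] at b2
  have b4 := loc_sum hd x₀
  have b5 : ∑ _v : Cube d, (1 / 2 : ℝ) ^ (d + 3) = 1 / 8 := by
    rw [Finset.sum_const, Finset.card_univ, Fintype.card_fun, Fintype.card_bool, Fintype.card_fin,
      nsmul_eq_mul, pow_add, ← mul_assoc]
    push_cast
    rw [← mul_pow]
    norm_num
  rw [b5] at b1
  norm_num at b2
  linarith

lemma lower_one {p : ℝ} (h0 : 0 ≤ p) (h1 : p ≤ 1) (d : ℕ) : fP p 1 d ≤ 2 ^ d * p := by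
  have h := Ex_union (univ : Finset (Cube d)) (fun v => ({v} : Finset (Cube d))) h0 h1
    (Perc 1) (fun A hA => by
      by_contra hc
      push Not at hc
      have := hA ∅ (fun x hx => absurd (Finset.singleton_subset_iff.mpr hx)
        (hc x (Finset.mem_univ _))) (fun v hv => by simp at hv)
      exact (Finset.univ_nonempty (α := Cube d)).ne_empty this.symm)
  unfold fP
  simpa using h

end Pool.Agent.BBM
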