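import Pool.Agent.P.MP_3a7cda_pr.H21.Alg

set_option autoImplicit false
open Classical Finset Polynomial

namespace Pool.Agent.BBM

variable {d : ℕ}

/-- Support of a function. -/
noncomputable def sp (P : Alg d) : Finset (Cube d) := univ.filter (fun x => P x ≠ 0)

/-- Every nonzero element has support at least `N`. -/
def Robust (U : Submodule ℚ (Alg d)) (N : ℕ) : Prop := ∀ P ∈ U, P ≠ 0 → N ≤ (sp P).card

/-- No subspace gains at rate `μ / 8`. -/
def MinSl (μ : ℕ) (U : Submodule ℚ (Alg d)) : Prop :=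
  ∀ U' ≤ U, 8 * fr (U * Lam d) + μ * fr U' ≤ 8 * fr (U' * Lam d) + μ * fr U

lemma exists_minSl (μ : ℕ) (n : ℕ) : ∀ U : Submodule ℚ (Alg d), U.FG → fr U ≤ n → U ≠ ⊥ →
    8 * fr (U * Lam d) ≤ μ * fr U → ∃ W ≤ U, W ≠ ⊥ ∧ MinSl μ W := by
  induction n with
  | zero =>
    intro U hU hn h0 _
    have := fr_pos hU h0
    omega
  | succ n ih =>
    intro U hU hn h0 hs
    by_cases hm : MinSl μ U
    · exact ⟨U, le_rfl, h0, hm⟩
    · unfold MinSl at hm
      push Not at hm
      obtain ⟨U', hU', hlt⟩ := hm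
      have hne : U' ≠ U := by rintro rfl; omega
      have h1 : fr U' < fr U := fr_lt hU (lt_of_le_of_ne hU' hne)
      have h2 : U' ≠ ⊥ := by
        rintro rfl
        simp only [fr, finrank_bot, mul_zero, add_zero] at hlt hs
        omega
      obtain ⟨W, hW, hW0, hWm⟩ := ih U' (fg_le hU hU') (by omega) h2 (by omega)
      exact ⟨W, hW.trans hU', hW0, hWm⟩

lemma van_gain (Y : Finset (Cube d)) {U : Submodule ℚ (Alg d)} (hU : U.FG) :
    fr ((U * Lam d).map (res Y)) + fr ((U ⊓ LinearMap.ker (res Y)) * Lam d) ≤ fr (U * Lam d) := by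
  have h1 := rank_null (res Y) (hU.mul (Lam_fg (d := d)))
  have h2 := fr_mono (fg_le (hU.mul (Lam_fg (d := d))) inf_le_left) (ker_mul_le Y U (Lam d))
  omega

lemma MinSl.restrict {μ : ℕ} {U : Submodule ℚ (Alg d)} (hU : U.FG) (h : MinSl μ U)
    (Y : Finset (Cube d)) : 8 * fr ((U * Lam d).map (res Y)) ≤ μ * fr (U.map (res Y)) := by
  have h1 := h (U ⊓ LinearMap.ker (res Y)) inf_le_left
  have h2 := van_gain Y hU
  have h3 := rank_null (res Y) hU
  rw [h3, mul_add] at h1
  omega

lemma MinSl.slope {μ : ℕ} {U : Submodule ℚ (Alg d)} (h : MinSl μ U) :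
    8 * fr (U * Lam d) ≤ μ * fr U := by
  have := h ⊥ bot_le
  rw [Submodule.bot_mul] at this
  simpa [fr] using this

lemma peel {U : Submodule ℚ (Alg d)} (hU : U.FG) (N : ℕ) (k : ℕ) :
    ∀ Y : Finset (Cube d), fr (U.map (res Y)) ≤ k →
      ∃ Y' ⊆ Y, Y.card ≤ Y'.card + k * N ∧ Robust (U.map (res Y')) N := by
  induction k with
  | zero =>
    intro Y hY
    refine ⟨Y, le_rfl, by omega, ?_⟩
    intro P hP hP0
    have : U.map (res Y) ≠ ⊥ := by
      intro h; rw [h, Submodule.mem_bot] at hP; exact hP0 hP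
    have := fr_pos (hU.map _) this
    omega
  | succ k ih =>
    intro Y hY
    by_cases hR : Robust (U.map (res Y)) N
    · exact ⟨Y, le_rfl, by omega, hR⟩
    · unfold Robust at hR
      push Not at hR
      obtain ⟨P, hP, hP0, hN⟩ := hR
      have h1 := rank_null (res (Y \ sp P)) (hU.map (res Y))
      rw [map_res_res Finset.sdiff_subset] at h1
      have h2 : U.map (res Y) ⊓ LinearMap.ker (res (Y \ sp P)) ≠ ⊥ := by
        intro h
        have : P ∈ U.map (res Y) ⊓ LinearMap.ker (res (Y \ sp P)) := by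
          refine ⟨hP, mem_ker_res.mpr ?_⟩
          intro x hx
          have := (Finset.mem_sdiff.mp hx).2
          simpa [sp] using this
        rw [h, Submodule.mem_bot] at this
        exact hP0 this
      have h3 := fr_pos (fg_le (hU.map _) inf_le_left) h2
      obtain ⟨Y', hY', hc, hR⟩ := ih (Y \ sp P) (by omega)
      refine ⟨Y', hY'.trans Finset.sdiff_subset, ?_, hR⟩
      have h4 := Finset.le_card_sdiff (sp P) Y
      rw [add_mul]
      omega

lemma batch {U : Submodule ℚ (Alg d)} (hU : U.FG) (b : ℕ) (Y : Finset (Cube d)) (m : ℕ)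
    (hm : 2 ^ m ≤ Y.card) :
    (∃ Y' ⊆ Y, Y.card ≤ 2 ^ m * Y'.card ∧
      4 * fr ((U * Lam d).map (res Y')) + m * b ≤ 4 * fr ((U * Lam d).map (res Y))) ∨
    (∃ Y' ⊆ Y, Y.card ≤ 2 ^ m * (2 * d) * Y'.card ∧ 4 * fr (U.map (res Y')) < b) := by
  induction m with
  | zero => exact Or.inl ⟨Y, le_rfl, by simp, by simp⟩
  | succ m ih =>
    have hp : 0 < 2 ^ m := by positivity
    rcases ih (by rw [pow_succ] at hm; omega) with ⟨Y', hY', hc, hg⟩ | ⟨Y', hY', hc, hg⟩
    · have h2 : 2 ≤ Y'.card := by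
        by_contra h
        have : Y'.card ≤ 1 := by omega
        have := Nat.mul_le_mul_left (2 ^ m) this
        rw [pow_succ] at hm
        omega
      obtain ⟨s, c, h3, h4⟩ := exists_balanced Y' h2
      have h5 := split_gain Y' s c hU
      by_cases hb : b ≤ 4 * fr (U.map (res (Y'.filter (fun x => x s = c))))
      · left
        refine ⟨Y'.filter (fun x => x s ≠ c), (Finset.filter_subset _ _).trans hY', ?_, ?_⟩
        · rw [pow_succ, mul_assoc]
          exact hc.trans (Nat.mul_le_mul_left _ h4)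
        · rw [add_mul]; omega
      · right
        refine ⟨Y'.filter (fun x => x s = c), (Finset.filter_subset _ _).trans hY', ?_, by omega⟩
        have := hc.trans (Nat.mul_le_mul_left _ h3)
        rw [pow_succ]
        nlinarith
    · right
      refine ⟨Y', hY', ?_, hg⟩
      rw [pow_succ]
      nlinarith

lemma rstar_aux (m s B : ℕ) (hd : 1 ≤ d) (hs : 2 ≤ s) (hm : 1 ≤ m) (n : ℕ) :
    ∀ (U : Submodule ℚ (Alg d)) (e h μ : ℕ), U.FG → U ≠ ⊥ →
      Robust U ((2 ^ m * (2 * d) * (2 * B)) ^ n) → 8 * fr (U * Lam d) ≤ μ * fr U →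
      fr U ≤ B → fr U ≤ s ^ e → fr U ≤ 2 ^ h →
      (μ + 2 * m * s * (h + 1)) * 2 ^ e ≤ n * m → False := by
  induction n with
  | zero =>
    intro U e h μ _ _ _ _ _ _ _ hpot
    have : 0 < (μ + 2 * m * s * (h + 1)) * 2 ^ e := by positivity
    omega
  | succ n ih =>
    intro U₀ e h μ hU₀ hne₀ hR₀ hsl₀ hB₀ hse₀ h2h₀ hpot
    obtain ⟨U, hUle, hne, hmin⟩ := exists_minSl μ _ U₀ hU₀ le_rfl hne₀ hsl₀
    have hU : U.FG := fg_le hU₀ hUle
    have hfr : fr U ≤ fr U₀ := fr_mono hU₀ hUle
    have hbpos : 0 < fr U := fr_pos hU hne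
    set M := 2 ^ m * (2 * d) * (2 * B) with hM
    have hB1 : 1 ≤ B := by omega
    have hMpos : 0 < M := by positivity
    have hN1 : 0 < M ^ n := by positivity
    have hNle : M ^ n ≤ M ^ (n + 1) := Nat.pow_le_pow_right hMpos (by omega)
    set Y := univ \ zs U with hY
    have hYc : M ^ (n + 1) ≤ Y.card := by
      obtain ⟨P, hP, hP0⟩ := Submodule.exists_mem_ne_zero_of_ne_bot hne
      refine (hR₀ P (hUle hP) hP0).trans (Finset.card_le_card ?_)
      intro x hx
      simp only [sp, Finset.mem_filter, Finset.mem_univ, true_and] at hx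
      simp only [hY, Finset.mem_sdiff, Finset.mem_univ, true_and, mem_zs]
      exact fun h => hx (h P hP)
    have h2m : 2 ^ m ≤ Y.card := by
      refine le_trans ?_ hYc
      rw [pow_succ]
      have : 2 ^ m ≤ M := by
        rw [hM, mul_assoc]; exact Nat.le_mul_of_pos_right _ (by positivity)
      nlinarith
    have h2e : 0 < 2 ^ e := by positivity
    -- the common peeling step
    have hpeel : ∀ Y' ⊆ Y, Y.card ≤ 2 ^ m * (2 * d) * Y'.card →
        ∃ Y'' ⊆ Y', U.map (res Y'') ≠ ⊥ ∧ Robust (U.map (res Y'')) (M ^ n) := by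
      intro Y' hY' hc
      have h1 : fr (U.map (res Y')) ≤ B := by
        have := rank_null (res Y') hU
        omega
      obtain ⟨Y'', hY'', hc', hR⟩ := peel hU (M ^ n) B Y' h1
      refine ⟨Y'', hY'', ?_, hR⟩
      have h2 : 2 * B * M ^ n ≤ Y'.card := by
        have h3 : 2 ^ m * (2 * d) * (2 * B * M ^ n) ≤ 2 ^ m * (2 * d) * Y'.card := by
          calc 2 ^ m * (2 * d) * (2 * B * M ^ n) = M ^ (n + 1) := by rw [pow_succ, hM]; ring
            _ ≤ _ := hYc.trans hc
        exact Nat.le_of_mul_le_mul_left h3 (by positivity)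
      have h4 : 0 < Y''.card := by nlinarith
      obtain ⟨x, hx⟩ := Finset.card_pos.mp h4
      have hxs : x ∉ zs U := (Finset.mem_sdiff.mp (hY' (hY'' hx))).2
      have h5 := fr_res_pos hU hx hxs
      intro h0
      rw [h0] at h5
      simp [fr] at h5
    -- outcome three
    have out3 : ∀ W : Submodule ℚ (Alg d), W.FG → W ≠ ⊥ → Robust W (M ^ n) →
        8 * fr (W * Lam d) ≤ (μ + m * s) * fr W → 2 * fr W ≤ fr U → False := by
      intro W hW hW0 hWR hWs hW2
      have hWp := fr_pos hW hW0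
      obtain ⟨h', rfl⟩ : ∃ h', h = h' + 1 := by
        rcases h with _ | h'
        · simp at h2h₀; omega
        · exact ⟨h', rfl⟩
      refine ih W e h' (μ + m * s) hW hW0 hWR hWs (by omega) (by omega)
        (by rw [pow_succ] at h2h₀; omega) ?_
      have h1 : m ≤ m * s * 2 ^ e := by
        rw [mul_assoc]; exact Nat.le_mul_of_pos_right _ (by positivity)
      nlinarith
    rcases batch hU (fr U) Y m h2m with ⟨Y', hY', hc, hg⟩ | ⟨Y', hY', hc, hg⟩
    · obtain ⟨Y'', hY'', hne'', hR''⟩ := hpeel Y' hY' (by nlinarith)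
      have hT := hmin.restrict hU Y''
      have hG := hmin.slope
      have hV := van_gain Y'' hU
      have hδ := rank_null (res Y'') hU
      have hmono := fr_res_mono hY'' (hU.mul (Lam_fg (d := d)))
      have hle := rank_null (res Y) (hU.mul (Lam_fg (d := d)))
      have hWfg : (U.map (res Y'')).FG := hU.map _
      have hbm := fr_pos hWfg hne''
      have hVfg : (U ⊓ LinearMap.ker (res Y'')).FG := fg_le hU inf_le_left
      have hVR : Robust (U ⊓ LinearMap.ker (res Y'')) (M ^ n) := fun P hP hP0 =>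
        hNle.trans (hR₀ P (hUle hP.1) hP0)
      rw [map_res_mul] at hT hV hmono
      set T := fr (U.map (res Y'') * Lam d)
      set bm := fr (U.map (res Y''))
      set δ := fr (U ⊓ LinearMap.ker (res Y''))
      set Gv := fr ((U ⊓ LinearMap.ker (res Y'')) * Lam d)
      set b := fr U
      set G := fr (U * Lam d)
      have hA : 8 * T + 2 * (m * b) ≤ 8 * G := by omega
      have hμb : μ * b = μ * bm + μ * δ := by rw [hδ, mul_add]
      by_cases hx : 8 * T + m * b ≤ μ * bm
      · have h1 : m * bm ≤ m * b := Nat.mul_le_mul_left _ (by omega)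
        have h2 : m ≤ μ := by
          by_contra h3
          have : μ * bm < m * bm := Nat.mul_lt_mul_of_pos_right (by omega) hbm
          omega
        obtain ⟨μ', rfl⟩ : ∃ μ', μ = μ' + m := ⟨μ - m, by omega⟩
        refine ih (U.map (res Y'')) e h μ' hWfg hne'' hR'' ?_ (by omega) (by omega) (by omega) ?_
        · show 8 * T ≤ μ' * bm
          rw [add_mul] at hx; omega
        · have h1 : m ≤ m * 2 ^ e := Nat.le_mul_of_pos_right _ h2e
          nlinarith
      · have hδ1 : m * b < μ * δ := by omega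
        have hδpos : 0 < δ := by
          by_contra h0
          have : δ = 0 := by omega
          rw [this] at hδ1; omega
        have hV0 : U ⊓ LinearMap.ker (res Y'') ≠ ⊥ := by
          intro h0
          have : δ = 0 := by
            show fr (U ⊓ LinearMap.ker (res Y'')) = 0
            rw [h0]; exact finrank_bot _ _
          omega
        by_cases hsδ : s * δ ≤ b
        · obtain ⟨e', rfl⟩ : ∃ e', e = e' + 1 := by
            rcases e with _ | e'
            · simp at hse₀; nlinarith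
            · exact ⟨e', rfl⟩
          refine ih (U ⊓ LinearMap.ker (res Y'')) e' h (2 * μ) hVfg hV0 hVR ?_ (by omega) ?_
            (by omega) ?_
          · show 8 * Gv ≤ 2 * μ * δ
            rw [mul_assoc]; omega
          · rw [pow_succ] at hse₀
            have : s * δ ≤ s * s ^ e' := by nlinarith
            exact Nat.le_of_mul_le_mul_left this (by omega)
          · have h1 : m ≤ 2 * m * s * (h + 1) * 2 ^ e' := by
              have : 2 * m * s * (h + 1) * 2 ^ e' = m * (2 * s * (h + 1) * 2 ^ e') := by ring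
              rw [this]; exact Nat.le_mul_of_pos_right _ (by positivity)
            rw [pow_succ] at hpot
            nlinarith
        · by_cases h2δ : 2 * δ ≤ b
          · refine out3 _ hVfg hV0 hVR ?_ h2δ
            have : m * b ≤ m * (s * δ) := Nat.mul_le_mul_left _ (by omega)
            show 8 * Gv ≤ (μ + m * s) * δ
            rw [add_mul, mul_assoc]
            omega
          · refine out3 _ hWfg hne'' hR'' ?_ (by omega)
            show 8 * T ≤ (μ + m * s) * bm
            rw [add_mul]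
            omega
    · obtain ⟨Y'', hY'', hne'', hR''⟩ := hpeel Y' hY' hc
      have hT := hmin.restrict hU Y''
      rw [map_res_mul] at hT
      have hmono := fr_res_mono hY'' hU
      refine out3 _ (hU.map _) hne'' hR'' ?_ (by omega)
      rw [add_mul]
      omega

/-- A space that no subspace beats at rate `κ` has support at most `2^{O(κ)}`. -/
theorem rstar (q e B κ' : ℕ) (hd : 1 ≤ d) (hq : 2 ≤ q) (hBe : B ≤ q ^ e)
    (hB2 : 4 * d * B ≤ 2 ^ q) (hκ : q ^ 2 ≤ κ') {U : Submodule ℚ (Alg d)} (hU : U.FG)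
    (hB : fr U ≤ B)
    (hmin : ∀ U' ≤ U, fr (U * Lam d) + q * κ' * fr U' ≤ fr (U' * Lam d) + q * κ' * fr U) :
    (univ \ zs U).card ≤ 2 ^ (21 * 2 ^ e * (q * κ')) := by
  by_contra hcon
  push Not at hcon
  set n := 10 * κ' * 2 ^ e with hn
  set M := 2 ^ q * (2 * d) * (2 * B) with hM
  have hmin' : MinSl (8 * (q * κ')) U := by
    intro U' hU'
    have := hmin U' hU'
    rw [mul_assoc 8, mul_assoc 8]
    omega
  have h1 : fr (U.map (res (univ \ zs U))) ≤ B := by
    have := rank_null (res (univ \ zs U)) hU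
    omega
  obtain ⟨Y, hY, hc, hR⟩ := peel hU (M ^ n) B _ h1
  have hM2 : M ≤ 2 ^ (2 * q) := by
    rw [hM, two_mul q, pow_add, mul_assoc]
    apply Nat.mul_le_mul_left
    nlinarith
  have hBq : 4 * B ≤ 2 ^ q := by nlinarith
  have h2e : 0 < 2 ^ e := by positivity
  have hκ1 : 1 ≤ κ' := le_trans (Nat.one_le_pow _ _ (by omega)) hκ
  have h2 : B * M ^ n ≤ 2 ^ (21 * 2 ^ e * (q * κ')) := by
    calc B * M ^ n ≤ 2 ^ q * (2 ^ (2 * q)) ^ n :=
          Nat.mul_le_mul (by omega) (Nat.pow_le_pow_left hM2 _)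
      _ = 2 ^ (q + 2 * q * n) := by rw [← pow_mul, ← pow_add]
      _ ≤ _ := by
        apply Nat.pow_le_pow_right (by norm_num)
        have : q ≤ 2 ^ e * (q * κ') := by
          have : q * 1 ≤ q * (κ' * 2 ^ e) := Nat.mul_le_mul_left _ (Nat.mul_pos hκ1 h2e)
          nlinarith
        rw [hn]; nlinarith
  have h4 : 0 < Y.card := by omega
  obtain ⟨x, hx⟩ := Finset.card_pos.mp h4
  have hxs : x ∉ zs U := (Finset.mem_sdiff.mp (hY hx)).2
  have h5 := fr_res_pos hU hx hxs
  have h6 : fr (U.map (res Y)) ≤ B := by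
    have := rank_null (res Y) hU
    omega
  have hT := hmin'.restrict hU Y
  rw [map_res_mul] at hT
  obtain ⟨h, rfl⟩ : ∃ h, q = h + 1 := ⟨q - 1, by omega⟩
  refine rstar_aux (h + 1) (h + 1) B hd hq (by omega) n (U.map (res Y)) e h _ (hU.map _) ?_ hR hT h6
    (h6.trans hBe) ?_ ?_
  · intro h0
    rw [h0] at h5
    simp [fr] at h5
  · rw [pow_succ] at hBq; omega
  · rw [hn]
    have : 2 * (h + 1) * (h + 1) * (h + 1) ≤ 2 * ((h + 1) * κ') := by nlinarith
    nlinarith

end Pool.Agent.BBM
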